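import Mathlib

/-!
The operator `∂̄` for real-differentiable functions on complex normed spaces and the
Cauchy-Pompeiu formula in the plane.
-/

namespace Pool.Agent.DbarSUC

open MeasureTheory Set Filter Topology Complex

section

variable {E : Type*} [NormedAddCommGroup E] [NormedSpace ℂ E]
  {F : Type*} [NormedAddCommGroup F] [NormedSpace ℂ F]

/-- The `(0,1)`-part of the derivative of `φ` at `z`, in the direction `v`. -/
noncomputable def dbar (φ : E → F) (z v : E) : F :=
  (1 / 2 : ℂ) • (fderiv ℝ φ z v + I • fderiv ℝ φ z (I • v))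

theorem dbar_add_right (φ : E → F) (z v w : E) :
    dbar φ z (v + w) = dbar φ z v + dbar φ z w := by
  simp only [dbar, smul_add, map_add]
  module

theorem fderiv_I_I (φ : E → F) (z v : E) :
    fderiv ℝ φ z (I • I • v) = - fderiv ℝ φ z v := by
  rw [smul_smul, I_mul_I, neg_one_smul, map_neg]

theorem dbar_smul_right (φ : E → F) (z v : E) (c : ℂ) :
    dbar φ z (c • v) = (starRingEnd ℂ c) • dbar φ z v := by
  have h1 : ∀ x : E, fderiv ℝ φ z (c • x) =
      (c.re : ℂ) • fderiv ℝ φ z x + (c.im : ℂ) • fderiv ℝ φ z (I • x) := by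
    intro x
    have : c • x = (c.re : ℝ) • x + (c.im : ℝ) • (I • x) := by
      conv_lhs => rw [← re_add_im c]
      rw [add_smul, mul_smul]
      simp
    rw [this, map_add, map_smul, map_smul]
    simp
  have h2 : I • c • v = c • I • v := smul_comm _ _ _
  simp only [dbar]
  rw [h2, h1, h1, fderiv_I_I]
  have h3 : (starRingEnd ℂ c) = (c.re : ℂ) - (c.im : ℂ) * I := by
    apply Complex.ext <;> simp
  rw [h3]
  match_scalars
  · ring
  · linear_combination (1 / 2 * (c.im : ℂ)) * I_mul_I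

theorem norm_dbar_le (φ : E → F) (z v : E) : ‖dbar φ z v‖ ≤ ‖fderiv ℝ φ z‖ * ‖v‖ := by
  unfold dbar
  rw [norm_smul]
  have h1 : ‖fderiv ℝ φ z v + I • fderiv ℝ φ z (I • v)‖ ≤ 2 * (‖fderiv ℝ φ z‖ * ‖v‖) := by
    refine (norm_add_le _ _).trans ?_
    rw [norm_smul, norm_I, one_mul]
    have h2 := (fderiv ℝ φ z).le_opNorm v
    have h3 := (fderiv ℝ φ z).le_opNorm (I • v)
    rw [norm_smul, norm_I, one_mul] at h3
    linarith
  have h4 : ‖(1 / 2 : ℂ)‖ = 1 / 2 := by simp
  rw [h4]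
  linarith

theorem continuous_dbar {φ : E → F} (hφ : ContDiff ℝ 1 φ) (v : E) :
    Continuous fun z => dbar φ z v := by
  unfold dbar
  have h := hφ.continuous_fderiv one_ne_zero
  exact continuous_const.smul ((h.clm_apply continuous_const).add
    (continuous_const.smul (h.clm_apply continuous_const)))

theorem dbar_smul {χ : E → ℂ} {φ : E → F} {z : E} (hχ : DifferentiableAt ℝ χ z)
    (hφ : DifferentiableAt ℝ φ z) (v : E) :
    dbar (fun z => χ z • φ z) z v = χ z • dbar φ z v + dbar χ z v • φ z := by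
  simp only [dbar]
  rw [fderiv_fun_smul hχ hφ]
  simp only [_root_.add_apply, _root_.smul_apply,
    ContinuousLinearMap.smulRight_apply, smul_eq_mul, smul_add, smul_smul]
  module

/-- Chain rule for a curve `ζ ↦ a + ζ • v`. -/
theorem dbar_comp_line {φ : E → F} (a v : E) (ζ : ℂ) (hφ : DifferentiableAt ℝ φ (a + ζ • v)) :
    dbar (fun ζ : ℂ => φ (a + ζ • v)) ζ 1 = dbar φ (a + ζ • v) v := by
  have h1 : HasFDerivAt (𝕜 := ℝ) (fun ζ : ℂ => a + ζ • v)
      ((ContinuousLinearMap.id ℝ ℂ).smulRight v) ζ := by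
    have := ((ContinuousLinearMap.id ℝ ℂ).smulRight v).hasFDerivAt (x := ζ)
    exact this.const_add a
  have h2 := (hφ.hasFDerivAt.comp ζ h1).fderiv
  simp only [dbar]
  change (1 / 2 : ℂ) • (fderiv ℝ (φ ∘ fun ζ : ℂ => a + ζ • v) ζ 1 +
    I • fderiv ℝ (φ ∘ fun ζ : ℂ => a + ζ • v) ζ (I • 1)) = _
  rw [h2]
  simp

end

section

variable {F : Type*} [NormedAddCommGroup F] [NormedSpace ℂ F] [CompleteSpace F]

/-- The Cauchy-Pompeiu formula for compactly supported functions. -/
theorem cauchy_pompeiu_zero {f : ℂ → F} (hf : ContDiff ℝ 1 f) (hs : HasCompactSupport f) :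
    ∫ ζ : ℂ, ζ⁻¹ • dbar f ζ 1 = - (Real.pi : ℂ) • f 0 := by
  obtain ⟨R, hR0, hR⟩ : ∃ R : ℝ, 0 < R ∧ ∀ ζ : ℂ, R < ‖ζ‖ → fderiv ℝ f ζ = 0 := by
    have h1 := hs.fderiv (𝕜 := ℝ)
    obtain ⟨R, hR⟩ := h1.isCompact.isBounded.subset_closedBall 0
    refine ⟨max R 1, by positivity, fun ζ hζ => ?_⟩
    apply image_eq_zero_of_notMem_tsupport
    intro h
    have := hR h
    rw [mem_closedBall_zero_iff] at this
    have := le_max_left R 1
    linarith
  obtain ⟨R', hR'⟩ : ∃ R' : ℝ, ∀ ζ : ℂ, R' < ‖ζ‖ → f ζ = 0 := by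
    obtain ⟨R, hR⟩ := hs.isCompact.isBounded.subset_closedBall 0
    refine ⟨R, fun ζ hζ => ?_⟩
    apply image_eq_zero_of_notMem_tsupport
    intro h
    have := hR h
    rw [mem_closedBall_zero_iff] at this
    linarith
  rw [← Complex.integral_comp_polarCoord_symm]
  let e : ℝ → ℂ := fun θ => Real.cos θ + Real.sin θ * I
  have he : Continuous e := by fun_prop
  have hnorm : ∀ θ, ‖e θ‖ = 1 := by
    intro θ
    have : e θ = exp (θ * I) := by
      simp only [e]
      rw [exp_mul_I, ofReal_cos, ofReal_sin]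
    rw [this, norm_exp_ofReal_mul_I]
  have hinv : ∀ θ, (e θ)⁻¹ = starRingEnd ℂ (e θ) := by
    intro θ
    rw [Complex.inv_def, Complex.normSq_eq_norm_sq, hnorm]
    simp
  let A : ℝ × ℝ → F := fun p => fderiv ℝ f (p.1 * e p.2) (e p.2)
  let B : ℝ × ℝ → F := fun p => fderiv ℝ f (p.1 * e p.2) (I • e p.2)
  have hc : Continuous fun p : ℝ × ℝ => (p.1 : ℂ) * e p.2 := by fun_prop
  have hf' := hf.continuous_fderiv one_ne_zero
  have hAc : Continuous A := (hf'.comp hc).clm_apply (he.comp continuous_snd)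
  have hBc : Continuous B := (hf'.comp hc).clm_apply ((he.comp continuous_snd).const_smul I)
  have hzero : ∀ p : ℝ × ℝ, R < p.1 → fderiv ℝ f (p.1 * e p.2) = 0 := by
    intro p hp
    apply hR
    rw [norm_mul, hnorm, mul_one, norm_real, Real.norm_eq_abs, abs_of_pos (hR0.trans hp)]
    exact hp
  have hint : ∀ G : ℝ × ℝ → F, Continuous G → (∀ p : ℝ × ℝ, R < p.1 → G p = 0) →
      IntegrableOn G (Ioi (0 : ℝ) ×ˢ Ioo (-Real.pi) Real.pi) (volume.prod volume) := by
    intro G hG hG0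
    have h1 : IntegrableOn G (Icc (0 : ℝ) R ×ˢ Icc (-Real.pi) Real.pi)
        (volume.prod volume) := by
      apply ContinuousOn.integrableOn_compact (isCompact_Icc.prod isCompact_Icc)
      exact hG.continuousOn
    apply h1.of_forall_sdiff_eq_zero (measurableSet_Ioi.prod measurableSet_Ioo)
    rintro ⟨r, θ⟩ ⟨⟨hr, hθ⟩, hn⟩
    apply hG0
    by_contra hcon
    apply hn
    exact ⟨⟨(mem_Ioi.1 hr).le, not_lt.1 hcon⟩, ⟨hθ.1.le, hθ.2.le⟩⟩
  have hA := hint A hAc fun p hp => by simp [A, hzero p hp]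
  have hB := hint B hBc fun p hp => by simp [B, hzero p hp]
  have hpt : ∀ p ∈ polarCoord.target, p.1 • ((Complex.polarCoord.symm p)⁻¹ •
      dbar f (Complex.polarCoord.symm p) 1) = (1 / 2 : ℂ) • (A p + I • B p) := by
    intro p hp
    have hp1 : 0 < p.1 := hp.1
    have h1 : Complex.polarCoord.symm p = (p.1 : ℂ) * e p.2 := Complex.polarCoord_symm_apply p
    have h2 : (1 / 2 : ℂ) • (A p + I • B p) = dbar f (p.1 * e p.2) (e p.2) := rfl
    have h3 : dbar f (p.1 * e p.2) (e p.2) = (e p.2)⁻¹ • dbar f (p.1 * e p.2) 1 := by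
      have := dbar_smul_right f (p.1 * e p.2) 1 (e p.2)
      rwa [smul_eq_mul, mul_one, ← hinv] at this
    rw [h2, h1, h3, mul_inv, mul_smul]
    have h4 : (p.1 : ℝ) • (((p.1 : ℂ))⁻¹ • ((e p.2)⁻¹ • dbar f (p.1 * e p.2) 1)) =
        ((p.1 : ℂ) * (p.1 : ℂ)⁻¹) • ((e p.2)⁻¹ • dbar f (p.1 * e p.2) 1) := by
      rw [mul_smul]
      simp
    rw [h4, mul_inv_cancel₀ (by exact_mod_cast hp1.ne'), one_smul]
  rw [setIntegral_congr_fun polarCoord.open_target.measurableSet hpt]
  rw [integral_smul]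
  have htarget : polarCoord.target = Ioi (0 : ℝ) ×ˢ Ioo (-Real.pi) Real.pi := rfl
  rw [htarget, Measure.volume_eq_prod]
  have hB' : IntegrableOn (fun p => I • B p) (Ioi (0 : ℝ) ×ˢ Ioo (-Real.pi) Real.pi)
    (volume.prod volume) := hB.smul I
  rw [integral_add hA hB', integral_smul]
  have hAint : ∫ p in Ioi (0 : ℝ) ×ˢ Ioo (-Real.pi) Real.pi, A p ∂(volume.prod volume) =
      - (2 * Real.pi : ℂ) • f 0 := by
    rw [← setIntegral_prod_swap, setIntegral_prod (fun z : ℝ × ℝ => A z.swap) hA.swap]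
    have h1 : ∀ θ : ℝ, ∫ r in Ioi (0 : ℝ), A (r, θ) = - f 0 := by
      intro θ
      have hd : ∀ r : ℝ, HasDerivAt (fun r : ℝ => f (r * e θ)) (A (r, θ)) r := by
        intro r
        have h2 : HasDerivAt (fun r : ℝ => (r : ℂ) * e θ) (e θ) r := by
          have := (Complex.ofRealCLM.hasDerivAt (x := r)).mul_const (e θ)
          simpa using this
        exact ((hf.differentiable one_ne_zero _).hasFDerivAt).comp_hasDerivAt r h2
      have hi : IntegrableOn (fun r => A (r, θ)) (Ioi 0) := by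
        have h3 : IntegrableOn (fun r => A (r, θ)) (Icc 0 R) :=
          (hAc.comp (by fun_prop : Continuous fun r : ℝ => (r, θ))).continuousOn.integrableOn_Icc
        apply h3.of_forall_sdiff_eq_zero measurableSet_Ioi
        rintro r ⟨hr, hn⟩
        have : R < r := by
          by_contra hcon
          exact hn ⟨(mem_Ioi.1 hr).le, not_lt.1 hcon⟩
        simp [A, hzero (r, θ) this]
      have ht : Tendsto (fun r : ℝ => f (r * e θ)) atTop (𝓝 0) := by
        apply tendsto_const_nhds.congr'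
        filter_upwards [eventually_gt_atTop (max R' 0)] with r hr
        rw [hR']
        rw [norm_mul, hnorm, mul_one, norm_real, Real.norm_eq_abs,
          abs_of_pos ((le_max_right _ _).trans_lt hr)]
        exact (le_max_left _ _).trans_lt hr
      rw [integral_Ioi_of_hasDerivAt_of_tendsto' (fun r _ => hd r) hi ht]
      simp
    have h2 : ∫ x in Ioo (-Real.pi) Real.pi, ∫ y in Ioi (0 : ℝ), A (x, y).swap =
        ∫ x in Ioo (-Real.pi) Real.pi, - f 0 := by
      congr 1
      ext θ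
      exact h1 θ
    rw [h2, setIntegral_const, Measure.real, Real.volume_Ioo, ENNReal.toReal_ofReal
      (by linarith [Real.pi_pos])]
    rw [smul_neg, neg_smul]
    congr 1
    have : (Real.pi - -Real.pi) = 2 * Real.pi := by ring
    rw [this, ← Complex.coe_smul]
    push_cast
    rfl
  have hBint : ∫ p in Ioi (0 : ℝ) ×ˢ Ioo (-Real.pi) Real.pi, B p ∂(volume.prod volume) = 0 := by
    rw [setIntegral_prod _ hB]
    apply setIntegral_eq_zero_of_forall_eq_zero
    intro r hr
    have hr : 0 < r := hr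
    rw [← integral_Ioc_eq_integral_Ioo, ← intervalIntegral.integral_of_le
      (by linarith [Real.pi_pos])]
    have hd : ∀ θ : ℝ, HasDerivAt (fun θ : ℝ => (r : ℝ)⁻¹ • f (r * e θ)) (B (r, θ)) θ := by
      intro θ
      have h2 : HasDerivAt (fun θ : ℝ => (r : ℂ) * e θ) ((r : ℂ) * (I * e θ)) θ := by
        have hc := (Real.hasDerivAt_cos θ).ofReal_comp
        have hs := ((Real.hasDerivAt_sin θ).ofReal_comp).mul_const I
        have h0 : HasDerivAt (fun θ : ℝ => (r : ℂ) * e θ)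
            ((r : ℂ) * (((-Real.sin θ : ℝ) : ℂ) + ((Real.cos θ : ℝ) : ℂ) * I)) θ :=
          (hc.add hs).const_mul (r : ℂ)
        refine h0.congr_deriv ?_
        simp only [e]
        push_cast
        linear_combination (-(r : ℂ) * (Complex.sin θ)) * I_mul_I
      have h3 := ((hf.differentiable one_ne_zero _).hasFDerivAt).comp_hasDerivAt θ h2
      have h4 : HasDerivAt (fun θ : ℝ => (r : ℝ)⁻¹ • f (r * e θ))
        ((r : ℝ)⁻¹ • fderiv ℝ f (r * e θ) ((r : ℂ) * (I * e θ))) θ := h3.const_smul (r : ℝ)⁻¹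
      refine h4.congr_deriv ?_
      simp only [B]
      rw [← map_smul]
      congr 1
      rw [Complex.real_smul, smul_eq_mul]
      push_cast
      have hr0 : (r : ℂ) ≠ 0 := by exact_mod_cast hr.ne'
      rw [inv_mul_cancel_left₀ hr0]
    rw [intervalIntegral.integral_eq_sub_of_hasDerivAt (fun θ _ => hd θ)
      ((hBc.comp (by fun_prop : Continuous fun θ : ℝ => (r, θ))).intervalIntegrable _ _)]
    have h5 : e Real.pi = e (-Real.pi) := by simp [e]
    rw [h5, sub_self]
  rw [hAint, hBint, smul_zero, add_zero, smul_smul]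
  congr 1
  ring

/-- The Cauchy-Pompeiu formula. -/
theorem cauchy_pompeiu {f : ℂ → F} (hf : ContDiff ℝ 1 f) (hs : HasCompactSupport f) (η : ℂ) :
    ∫ ζ : ℂ, (η - ζ)⁻¹ • dbar f ζ 1 = (Real.pi : ℂ) • f η := by
  have h1 : ContDiff ℝ 1 fun ζ => f (η + ζ) := hf.comp (contDiff_const.add contDiff_id)
  have h2 : HasCompactSupport fun ζ => f (η + ζ) :=
    hs.comp_homeomorph (Homeomorph.addLeft η)
  have h3 := cauchy_pompeiu_zero h1 h2
  have h4 : ∀ ζ, dbar (fun ζ => f (η + ζ)) ζ 1 = dbar f (η + ζ) 1 := by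
    intro ζ
    simp only [dbar]
    rw [fderiv_comp_add_left]
  simp_rw [h4] at h3
  have h5 := integral_add_left_eq_self (μ := (volume : Measure ℂ))
    (fun ζ : ℂ => (η - ζ)⁻¹ • dbar f ζ 1) η
  rw [← h5]
  have h6 : ∀ ζ : ℂ, (η - (η + ζ))⁻¹ • dbar f (η + ζ) 1 =
      - (ζ⁻¹ • dbar f (η + ζ) 1) := by
    intro ζ
    rw [sub_add_cancel_left, inv_neg, neg_smul]
  simp_rw [h6]
  rw [integral_neg, h3, add_zero]
  simp

end

end Pool.Agent.DbarSUC
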