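import Pool.Agent.DbarSUC.Kernel

namespace Pool.Agent.DbarSUC

open MeasureTheory Set Filter Topology Complex Metric
open scoped ENNReal

set_option linter.style.haveILetI false

section

/-- Weighted Hölder inequality. -/
theorem lintegral_mul_rpow_le {α : Type*} [MeasurableSpace α] (μ : Measure α) {q : ℝ}
    (hq : 1 < q) {K H : α → ℝ≥0∞} (hK : Measurable K) (hH : Measurable H) :
    (∫⁻ a, K a * H a ∂μ) ^ q ≤ (∫⁻ a, K a ^ q * H a ∂μ) * (∫⁻ a, H a ∂μ) ^ (q - 1) := by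
  have hq0 : 0 < q := by linarith
  obtain ⟨q', hqq'⟩ : ∃ q', q.HolderConjugate q' := ⟨_, Real.HolderConjugate.conjExponent hq⟩
  have h1 := ENNReal.lintegral_mul_le_Lp_mul_Lq (μ.withDensity H) hqq'
    (f := K) (g := fun _ => 1) hK.aemeasurable aemeasurable_const
  have h2 : ∫⁻ a, K a * H a ∂μ = ∫⁻ a, (K * (fun _ => 1 : α → ℝ≥0∞)) a ∂(μ.withDensity H) := by
    rw [lintegral_withDensity_eq_lintegral_mul _ hH (hK.mul measurable_const)]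
    congr 1
    ext a
    simp [mul_comm]
  have h3 : ∫⁻ a, K a ^ q ∂(μ.withDensity H) = ∫⁻ a, K a ^ q * H a ∂μ := by
    rw [lintegral_withDensity_eq_lintegral_mul _ hH (hK.pow_const q)]
    congr 1
    ext a
    simp [mul_comm]
  have h4 : ∫⁻ a : α, (1 : ℝ≥0∞) ^ q' ∂(μ.withDensity H) = ∫⁻ a, H a ∂μ := by
    simp
  rw [h2]
  have h5 := ENNReal.rpow_le_rpow h1 hq0.le
  refine h5.trans (le_of_eq ?_)
  rw [h3, h4, ENNReal.mul_rpow_of_nonneg _ _ hq0.le, ← ENNReal.rpow_mul, ← ENNReal.rpow_mul]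
  congr 1
  · rw [one_div, inv_mul_cancel₀ hq0.ne', ENNReal.rpow_one]
  · congr 1
    have h6 : 1 / q' = 1 - 1 / q := by
      have := hqq'.inv_add_inv_eq_one
      rw [one_div, one_div]
      linarith
    rw [h6]
    field_simp

end

section

variable {E : Type*} [NormedAddCommGroup E] [NormedSpace ℂ E]
  {F : Type*} [NormedAddCommGroup F] [NormedSpace ℂ F]

theorem dbar_congr {f g : E → F} {z : E} (h : f =ᶠ[𝓝 z] g) (v : E) :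
    dbar f z v = dbar g z v := by
  unfold dbar
  rw [h.fderiv_eq]

theorem dbar_zero (z v : E) : dbar (fun _ : E => (0 : F)) z v = 0 := by
  simp [dbar]

theorem dbar_eq_zero_of_notMem_tsupport {f : E → F} {z : E} (h : z ∉ tsupport f) (v : E) :
    dbar f z v = 0 := by
  have h1 : f =ᶠ[𝓝 z] fun _ => 0 := notMem_tsupport_iff_eventuallyEq.1 h
  rw [dbar_congr h1, dbar_zero]

theorem dbar_eq_zero_of_differentiableAt {χ : ℂ → ℂ} {ζ v : ℂ} (h : DifferentiableAt ℂ χ ζ) :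
    dbar χ ζ v = 0 := by
  unfold dbar
  rw [h.fderiv_restrictScalars ℝ]
  simp only [ContinuousLinearMap.coe_restrictScalars']
  rw [ContinuousLinearMap.map_smul, smul_eq_mul, smul_eq_mul, smul_eq_mul]
  linear_combination (1 / 2 * (fderiv ℂ χ ζ) v) * I_mul_I

theorem eventuallyEq_pow_smul {f : ℂ → F} (k : ℕ) {ζ : ℂ} (h : ζ ∉ tsupport f) :
    (fun ζ => ((ζ⁻¹) ^ k) • f ζ) =ᶠ[𝓝 ζ] fun _ => 0 := by
  have h1 : f =ᶠ[𝓝 ζ] fun _ => 0 := notMem_tsupport_iff_eventuallyEq.1 h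
  filter_upwards [h1] with x hx
  rw [hx, smul_zero]

theorem contDiff_pow_smul {f : ℂ → F} (hf : ContDiff ℝ 1 f) (h0 : (0 : ℂ) ∉ tsupport f)
    (k : ℕ) : ContDiff ℝ 1 (fun ζ => ((ζ⁻¹) ^ k) • f ζ) := by
  rw [contDiff_iff_contDiffAt]
  intro ζ
  by_cases h : ζ ∈ tsupport f
  · have hζ : ζ ≠ 0 := by rintro rfl; exact h0 h
    exact ((contDiffAt_inv ℝ hζ).pow k).smul hf.contDiffAt
  · exact (contDiffAt_const (c := (0 : F))).congr_of_eventuallyEq (eventuallyEq_pow_smul k h)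

theorem dbar_pow_smul {f : ℂ → F} (hf : ContDiff ℝ 1 f) (h0 : (0 : ℂ) ∉ tsupport f)
    (k : ℕ) (ζ : ℂ) : dbar (fun ζ => ((ζ⁻¹) ^ k) • f ζ) ζ 1 = ((ζ⁻¹) ^ k) • dbar f ζ 1 := by
  by_cases h : ζ ∈ tsupport f
  · have hζ : ζ ≠ 0 := by rintro rfl; exact h0 h
    have h1 : DifferentiableAt ℂ (fun ζ : ℂ => (ζ⁻¹) ^ k) ζ :=
      (differentiableAt_inv hζ).pow k
    rw [dbar_smul (h1.restrictScalars ℝ) (hf.differentiable one_ne_zero ζ),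
      dbar_eq_zero_of_differentiableAt h1, zero_smul, add_zero]
  · rw [dbar_congr (eventuallyEq_pow_smul k h), dbar_zero, dbar_eq_zero_of_notMem_tsupport h,
      smul_zero]

theorem hasCompactSupport_pow_smul {f : ℂ → F} (hs : HasCompactSupport f) (k : ℕ) :
    HasCompactSupport (fun ζ => ((ζ⁻¹) ^ k) • f ζ) :=
  hs.smul_left

variable [CompleteSpace F]

theorem enorm_le_lintegral_aux {f : ℂ → F} (hf : ContDiff ℝ 1 f) (hs : HasCompactSupport f)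
    (η : ℂ) : ‖f η‖ₑ ≤ ∫⁻ ζ, ‖η - ζ‖ₑ⁻¹ * ‖dbar f ζ 1‖ₑ := by
  have h1 := cauchy_pompeiu hf hs η
  have h2 : ‖∫ ζ : ℂ, (η - ζ)⁻¹ • dbar f ζ 1‖ₑ ≤ ∫⁻ ζ, ‖(η - ζ)⁻¹ • dbar f ζ 1‖ₑ :=
    enorm_integral_le_lintegral_enorm _
  rw [h1, enorm_smul] at h2
  have h3 : (1 : ℝ≥0∞) ≤ ‖(Real.pi : ℂ)‖ₑ := by
    rw [← ofReal_norm, norm_real, Real.norm_eq_abs, abs_of_pos Real.pi_pos]
    rw [← ENNReal.ofReal_one]
    exact ENNReal.ofReal_le_ofReal (by linarith [Real.pi_gt_three])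
  calc ‖f η‖ₑ = 1 * ‖f η‖ₑ := (one_mul _).symm
    _ ≤ ‖(Real.pi : ℂ)‖ₑ * ‖f η‖ₑ := by gcongr
    _ ≤ _ := h2
    _ ≤ _ := by
      apply lintegral_mono_ae
      have h4 : ∀ᵐ ζ : ℂ, ζ ≠ η := by rw [ae_iff]; simp
      filter_upwards [h4] with ζ hζ
      rw [enorm_smul, enorm_inv (sub_ne_zero.2 hζ.symm)]

theorem enorm_le_lintegral {f : ℂ → F} (hf : ContDiff ℝ 1 f) (hs : HasCompactSupport f)
    (h0 : (0 : ℂ) ∉ tsupport f) (k : ℕ) {η : ℂ} (hη : η ≠ 0) :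
    ‖η‖ₑ ^ (1 / 2 - k : ℝ) * ‖f η‖ₑ ≤ ∫⁻ ζ, (‖η‖ₑ ^ (1 / 2 : ℝ) * ‖η - ζ‖ₑ⁻¹ *
      ‖ζ‖ₑ ^ (1 / 2 : ℝ)) * (‖ζ‖ₑ ^ (-1 / 2 - k : ℝ) * ‖dbar f ζ 1‖ₑ) := by
  have h1 := enorm_le_lintegral_aux (contDiff_pow_smul hf h0 k)
    (hasCompactSupport_pow_smul hs k) η
  have hη0 : ‖η‖ₑ ≠ 0 := by simpa using hη
  have h2 : ∀ ζ : ℂ, ζ ≠ 0 → ‖(ζ⁻¹) ^ k‖ₑ = ‖ζ‖ₑ ^ (-k : ℝ) := by
    intro ζ hζ
    rw [enorm_pow, enorm_inv hζ, ENNReal.rpow_neg, ENNReal.rpow_natCast, ENNReal.inv_pow]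
  rw [enorm_smul, h2 η hη] at h1
  calc ‖η‖ₑ ^ (1 / 2 - k : ℝ) * ‖f η‖ₑ = ‖η‖ₑ ^ (1 / 2 : ℝ) * (‖η‖ₑ ^ (-k : ℝ) * ‖f η‖ₑ) := by
        rw [← mul_assoc, ← ENNReal.rpow_add _ _ hη0 enorm_ne_top]
        rfl
    _ ≤ ‖η‖ₑ ^ (1 / 2 : ℝ) *
        ∫⁻ ζ, ‖η - ζ‖ₑ⁻¹ * ‖dbar (fun ζ => ((ζ⁻¹) ^ k) • f ζ) ζ 1‖ₑ := by gcongr
    _ = ∫⁻ ζ, ‖η‖ₑ ^ (1 / 2 : ℝ) * (‖η - ζ‖ₑ⁻¹ *
        ‖dbar (fun ζ => ((ζ⁻¹) ^ k) • f ζ) ζ 1‖ₑ) := by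
        rw [lintegral_const_mul']
        exact (ENNReal.rpow_ne_top_of_nonneg (by norm_num) enorm_ne_top)
    _ = _ := by
        apply lintegral_congr_ae
        filter_upwards [ae_ne_zero] with ζ hζ
        have hζ0 : ‖ζ‖ₑ ≠ 0 := by simpa using hζ
        rw [dbar_pow_smul hf h0, enorm_smul, h2 ζ hζ]
        have h3 : ‖ζ‖ₑ ^ (-k : ℝ) = ‖ζ‖ₑ ^ (1 / 2 : ℝ) * ‖ζ‖ₑ ^ (-1 / 2 - k : ℝ) := by
          rw [← ENNReal.rpow_add _ _ hζ0 enorm_ne_top]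
          congr 1
          ring
        rw [h3]
        ring

/-- Carleman estimate in the punctured plane for smooth functions. -/
theorem carleman_smooth {f : ℂ → F} (hf : ContDiff ℝ 1 f) (hs : HasCompactSupport f)
    (h0 : (0 : ℂ) ∉ tsupport f) (k : ℕ) {q : ℝ} (hq : 1 < q) :
    ∫⁻ η, (‖η‖ₑ ^ (1 / 2 - k : ℝ) * ‖f η‖ₑ) ^ q * ‖η‖ₑ ^ (-2 : ℝ) ≤
      kerConst q * (∫⁻ ζ, ‖ζ‖ₑ ^ (-1 / 2 - k : ℝ) * ‖dbar f ζ 1‖ₑ) ^ q := by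
  have hq0 : 0 < q := by linarith
  set H : ℂ → ℝ≥0∞ := fun ζ => ‖ζ‖ₑ ^ (-1 / 2 - k : ℝ) * ‖dbar f ζ 1‖ₑ with hH
  have hHm : Measurable H := by
    have := (continuous_dbar hf 1).enorm.measurable
    exact Measurable.mul (by fun_prop) this
  set K : ℂ → ℂ → ℝ≥0∞ := fun η ζ => ‖η‖ₑ ^ (1 / 2 : ℝ) * ‖η - ζ‖ₑ⁻¹ * ‖ζ‖ₑ ^ (1 / 2 : ℝ)
    with hK
  have hKm : Measurable (Function.uncurry K) := by
    simp only [hK, Function.uncurry_def]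
    fun_prop
  have hKm1 : ∀ η, Measurable (K η) := fun η => hKm.comp measurable_prodMk_left
  have hKm2 : ∀ ζ, Measurable (fun η => K η ζ) := fun η => hKm.comp measurable_prodMk_right
  have h1 : ∀ᵐ η : ℂ, (‖η‖ₑ ^ (1 / 2 - k : ℝ) * ‖f η‖ₑ) ^ q * ‖η‖ₑ ^ (-2 : ℝ) ≤
      (∫⁻ ζ, K η ζ ^ q * H ζ) * (∫⁻ ζ, H ζ) ^ (q - 1) * ‖η‖ₑ ^ (-2 : ℝ) := by
    filter_upwards [ae_ne_zero] with η hη
    gcongr
    refine le_trans ?_ (lintegral_mul_rpow_le volume hq (hKm1 η) hHm)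
    exact ENNReal.rpow_le_rpow (enorm_le_lintegral hf hs h0 k hη) hq0.le
  have h2 : ∀ ζ : ℂ, ζ ≠ 0 → ∫⁻ η, K η ζ ^ q * ‖η‖ₑ ^ (-2 : ℝ) = kerConst q := by
    intro ζ hζ
    have hζ0 : ‖ζ‖ₑ ≠ 0 := by simpa using hζ
    have hm : Measurable fun η => K η ζ ^ q * ‖η‖ₑ ^ (-2 : ℝ) := by
      have := hKm2 ζ
      fun_prop
    rw [lintegral_smul_complex volume hζ hm]
    simp only [Module.finrank_self, mul_one]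
    rw [← lintegral_const_mul' _ _ (by finiteness)]
    unfold kerConst
    apply lintegral_congr_ae
    filter_upwards [ae_ne_zero] with t ht
    have ht0 : ‖t‖ₑ ≠ 0 := by simpa using ht
    have h3 : K (ζ • t) ζ = ‖t‖ₑ ^ (1 / 2 : ℝ) * ‖t - 1‖ₑ⁻¹ := by
      simp only [hK]
      have h4 : ζ • t - ζ = ζ * (t - 1) := by rw [smul_eq_mul]; ring
      have h5 : ‖ζ‖ₑ ^ (1 / 2 : ℝ) * ‖ζ‖ₑ ^ (1 / 2 : ℝ) = ‖ζ‖ₑ := by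
        rw [← ENNReal.rpow_add _ _ hζ0 enorm_ne_top]
        norm_num
      rw [h4, smul_eq_mul, enorm_mul, enorm_mul, ENNReal.mul_inv (Or.inl hζ0)
        (Or.inl enorm_ne_top), ENNReal.mul_rpow_of_nonneg _ _ (by norm_num)]
      calc ‖ζ‖ₑ ^ (1 / 2 : ℝ) * ‖t‖ₑ ^ (1 / 2 : ℝ) * (‖ζ‖ₑ⁻¹ * ‖t - 1‖ₑ⁻¹) *
          ‖ζ‖ₑ ^ (1 / 2 : ℝ)
          = ‖t‖ₑ ^ (1 / 2 : ℝ) * ‖t - 1‖ₑ⁻¹ * (‖ζ‖ₑ⁻¹ *
            (‖ζ‖ₑ ^ (1 / 2 : ℝ) * ‖ζ‖ₑ ^ (1 / 2 : ℝ))) := by ring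
        _ = ‖t‖ₑ ^ (1 / 2 : ℝ) * ‖t - 1‖ₑ⁻¹ := by
          rw [h5, ENNReal.inv_mul_cancel hζ0 enorm_ne_top, mul_one]
    have h6 : ‖ζ‖ₑ ^ 2 * ‖ζ • t‖ₑ ^ (-2 : ℝ) = ‖t‖ₑ ^ (-2 : ℝ) := by
      rw [enorm_smul, ENNReal.mul_rpow_of_ne_zero hζ0 ht0, ← mul_assoc,
        ← ENNReal.rpow_natCast, ← ENNReal.rpow_add _ _ hζ0 enorm_ne_top]
      norm_num
    rw [h3]
    calc ‖ζ‖ₑ ^ 2 * ((‖t‖ₑ ^ (1 / 2 : ℝ) * ‖t - 1‖ₑ⁻¹) ^ q * ‖ζ • t‖ₑ ^ (-2 : ℝ))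
        = (‖t‖ₑ ^ (1 / 2 : ℝ) * ‖t - 1‖ₑ⁻¹) ^ q * (‖ζ‖ₑ ^ 2 * ‖ζ • t‖ₑ ^ (-2 : ℝ)) := by ring
      _ = _ := by rw [h6]
  have h3 : ∫⁻ η, (∫⁻ ζ, K η ζ ^ q * H ζ) * ‖η‖ₑ ^ (-2 : ℝ) = kerConst q * ∫⁻ ζ, H ζ := by
    have h4 : ∀ η : ℂ, (∫⁻ ζ, K η ζ ^ q * H ζ) * ‖η‖ₑ ^ (-2 : ℝ) =
        ∫⁻ ζ, K η ζ ^ q * H ζ * ‖η‖ₑ ^ (-2 : ℝ) := by
      intro η
      have := hKm1 η
      rw [lintegral_mul_const _ (by fun_prop)]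
    simp_rw [h4]
    rw [lintegral_lintegral_swap]
    · have h5 : ∀ᵐ ζ : ℂ, ∫⁻ η, K η ζ ^ q * H ζ * ‖η‖ₑ ^ (-2 : ℝ) = kerConst q * H ζ := by
        filter_upwards [ae_ne_zero] with ζ hζ
        rw [← h2 ζ hζ, ← lintegral_mul_const _ (by have := hKm2 ζ; fun_prop)]
        congr 1
        ext η
        ring
      rw [lintegral_congr_ae h5, lintegral_const_mul _ hHm]
    · apply Measurable.aemeasurable
      simp only [Function.uncurry_def] at hKm ⊢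
      fun_prop
  calc ∫⁻ η, (‖η‖ₑ ^ (1 / 2 - k : ℝ) * ‖f η‖ₑ) ^ q * ‖η‖ₑ ^ (-2 : ℝ)
      ≤ ∫⁻ η, (∫⁻ ζ, K η ζ ^ q * H ζ) * (∫⁻ ζ, H ζ) ^ (q - 1) * ‖η‖ₑ ^ (-2 : ℝ) :=
        lintegral_mono_ae h1
    _ = ∫⁻ η, (∫⁻ ζ, H ζ) ^ (q - 1) * ((∫⁻ ζ, K η ζ ^ q * H ζ) * ‖η‖ₑ ^ (-2 : ℝ)) := by
        congr 1
        ext η
        ring
    _ = (∫⁻ ζ, H ζ) ^ (q - 1) * (kerConst q * ∫⁻ ζ, H ζ) := by
        rw [lintegral_const_mul _, h3]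
        have : Measurable fun η => ∫⁻ ζ, K η ζ ^ q * H ζ := by
          apply Measurable.lintegral_prod_right'
            (f := fun p : ℂ × ℂ => K p.1 p.2 ^ q * H p.2)
          simp only [Function.uncurry_def] at hKm
          fun_prop
        fun_prop
    _ = kerConst q * (∫⁻ ζ, H ζ) ^ q := by
        have h6 : (∫⁻ ζ, H ζ) ^ q = (∫⁻ ζ, H ζ) ^ (q - 1) * ∫⁻ ζ, H ζ := by
          conv_lhs => rw [← sub_add_cancel q 1]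
          rw [ENNReal.rpow_add_of_nonneg _ _ (by linarith) (by norm_num), ENNReal.rpow_one]
        rw [h6]
        ring

end

end Pool.Agent.DbarSUC
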