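import Mathlib

/-!
Propagation of a local almost-everywhere uniqueness statement over a connected open set.
-/

namespace Pool.Agent.DbarSUC

open MeasureTheory Set Filter Topology Metric

theorem ae_zero_of_local {E : Type*} [PseudoMetricSpace E] [SecondCountableTopology E]
    [MeasurableSpace E] [OpensMeasurableSpace E] {μ : Measure E} {Ω : Set E} (hΩ : IsOpen Ω)
    (hc : IsPreconnected Ω) {P Van : E → Prop}
    (hloc : ∀ z1 ∈ Ω, ∀ R > 0, closedBall z1 R ⊆ Ω → Van z1 → ∀ᵐ z ∂μ.restrict (ball z1 R), P z)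
    (hvan : ∀ z1 ∈ Ω, (∃ r > 0, ∀ᵐ z ∂μ.restrict (ball z1 r), P z) → Van z1)
    (h0 : ∃ z0 ∈ Ω, Van z0) : ∀ᵐ z ∂μ.restrict Ω, P z := by
  set A : Set E := {z | z ∈ Ω ∧ Van z} with hA
  set B : Set E := {z | z ∈ Ω ∧ ¬ Van z} with hB
  have hcl : ∀ z ∈ Ω, ∃ R > 0, closedBall z R ⊆ Ω := fun z hz =>
    Metric.nhds_basis_closedBall.mem_iff.mp (hΩ.mem_nhds hz)
  have hsub : ∀ z1 R, (∀ᵐ z ∂μ.restrict (ball z1 R), P z) → ∀ z2 ∈ ball z1 R,
      ∃ r > 0, ∀ᵐ z ∂μ.restrict (ball z2 r), P z := by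
    intro z1 R h z2 hz2
    obtain ⟨r, hr, hr2⟩ := Metric.isOpen_iff.mp isOpen_ball z2 hz2
    exact ⟨r, hr, ae_restrict_of_ae_restrict_of_subset hr2 h⟩
  have hAo : IsOpen A := by
    rw [Metric.isOpen_iff]
    rintro z1 ⟨hz1, hv⟩
    obtain ⟨R, hR, hRΩ⟩ := hcl z1 hz1
    refine ⟨R, hR, fun z2 hz2 => ?_⟩
    have h2 : z2 ∈ Ω := hRΩ (ball_subset_closedBall hz2)
    exact ⟨h2, hvan z2 h2 (hsub z1 R (hloc z1 hz1 R hR hRΩ hv) z2 hz2)⟩
  have hBo : IsOpen B := by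
    rw [Metric.isOpen_iff]
    rintro z2 ⟨hz2, hnv⟩
    obtain ⟨R, hR, hRΩ⟩ := hcl z2 hz2
    refine ⟨R / 3, by positivity, fun z1 hz1 => ?_⟩
    rw [mem_ball] at hz1
    have h1 : z1 ∈ Ω := hRΩ (by rw [mem_closedBall]; linarith)
    refine ⟨h1, fun hv => hnv ?_⟩
    have h3 : closedBall z1 (2 * R / 3) ⊆ Ω := by
      intro y hy
      apply hRΩ
      rw [mem_closedBall] at hy ⊢
      have := dist_triangle y z1 z2
      linarith
    apply hvan z2 hz2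
    apply hsub z1 (2 * R / 3) (hloc z1 h1 (2 * R / 3) (by positivity) h3 hv) z2
    rw [mem_ball, dist_comm]
    linarith
  have hall : ∀ z ∈ Ω, Van z := by
    obtain ⟨z0, hz0, hv0⟩ := h0
    intro z hz
    by_contra hn
    obtain ⟨y, hy1, hy2, hy3⟩ := hc A B hAo hBo (fun x hx => by
      by_cases h : Van x
      · exact Or.inl ⟨hx, h⟩
      · exact Or.inr ⟨hx, h⟩) ⟨z0, hz0, hz0, hv0⟩ ⟨z, hz, hz, hn⟩
    exact hy3.2 hy2.2
  rw [ae_restrict_iff' hΩ.measurableSet, ae_iff]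
  apply measure_null_of_locally_null
  rintro z hz
  have hzΩ : z ∈ Ω := by
    by_contra h
    exact hz (fun h2 => absurd h2 h)
  obtain ⟨R, hR, hRΩ⟩ := hcl z hzΩ
  have h1 := hloc z hzΩ R hR hRΩ (hall z hzΩ)
  rw [ae_restrict_iff' isOpen_ball.measurableSet, ae_iff] at h1
  refine ⟨{x | ¬ (x ∈ Ω → P x)} ∩ ball z R, ?_, ?_⟩
  · exact inter_mem self_mem_nhdsWithin (mem_nhdsWithin_of_mem_nhds (ball_mem_nhds z hR))
  · apply measure_mono_null _ h1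
    rintro x ⟨hx1, hx2⟩ h
    exact hx1 (fun _ => h hx2)

end Pool.Agent.DbarSUC
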