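import Mathlib

/-!
Definitions for the strong unique continuation problem for `|∂̄u| ≤ V|u|` on domains of `ℂ^n`.
All measures are Lebesgue measure on `ℂ^n = ℝ^{2n}`.
-/

namespace Pool.Agent.DbarSUC

open MeasureTheory Set Filter Topology Complex Metric
open scoped ENNReal

/-- `ℂ^k` with its Euclidean norm. -/
abbrev CC (k : ℕ) : Type := EuclideanSpace ℂ (Fin k)

/-- The Wirtinger derivative `∂φ/∂z̄_j = (1/2)(∂φ/∂x_j + i ∂φ/∂y_j)` of `φ : ℂ^n → ℂ`. -/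
noncomputable def wirtinger {n : ℕ} (j : Fin n) (φ : CC n → ℂ) (z : CC n) : ℂ :=
  (1 / 2) * (fderiv ℝ φ z (EuclideanSpace.single j 1) +
    I * fderiv ℝ φ z (EuclideanSpace.single j I))

/-- `f ∈ L^s_loc(Ω)`: `f` is in `L^s(K)` for every compact `K ⊆ Ω`. -/
def MemLpLoc {n : ℕ} {G : Type*} [NormedAddCommGroup G] (s : ℝ) (Ω : Set (CC n))
    (f : CC n → G) : Prop :=
  ∀ K : Set (CC n), IsCompact K → K ⊆ Ω → MemLp f (ENNReal.ofReal s) (volume.restrict K)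

/-- `g` is the distributional derivative of `u` on `Ω` in the real direction `v`. -/
def IsWeakDeriv {n m : ℕ} (Ω : Set (CC n)) (u g : CC n → CC m) (v : CC n) : Prop :=
  ∀ φ : CC n → ℝ, ContDiff ℝ ((⊤ : ℕ∞) : WithTop ℕ∞) φ → HasCompactSupport φ → tsupport φ ⊆ Ω →
    ∫ z, (fderiv ℝ φ z v) • u z = - ∫ z, φ z • g z

/-- `u ∈ W^{1,s}_loc(Ω; ℂ^m)`: `u` and all its first order distributional derivatives are in
`L^s_loc(Ω)`. -/
def MemW1Loc {n m : ℕ} (s : ℝ) (Ω : Set (CC n)) (u : CC n → CC m) : Prop :=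
  MemLpLoc s Ω u ∧ ∀ v : CC n, ∃ g : CC n → CC m, MemLpLoc s Ω g ∧ IsWeakDeriv Ω u g v

/-- `g j = ∂u/∂z̄_j = (∂u_1/∂z̄_j, …, ∂u_m/∂z̄_j)` on `Ω` in the sense of distributions, the `g j`
being locally integrable on `Ω`. -/
def IsWeakDbar {n m : ℕ} (Ω : Set (CC n)) (u : CC n → CC m) (g : Fin n → CC n → CC m) : Prop :=
  ∀ j, MemLpLoc 1 Ω (g j) ∧
    ∀ φ : CC n → ℂ, ContDiff ℝ ((⊤ : ℕ∞) : WithTop ℕ∞) φ → HasCompactSupport φ →
      tsupport φ ⊆ Ω → ∫ z, wirtinger j φ z • u z = - ∫ z, φ z • g j z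

/-- The pointwise Euclidean norm `(∑_{k,j} |∂u_k/∂z̄_j|²)^{1/2}` of `∂̄u = (g_1, …, g_n)`. -/
noncomputable def dbarNorm {n m : ℕ} (g : Fin n → CC n → CC m) (z : CC n) : ℝ :=
  √(∑ j, ∑ k, ‖g j z k‖ ^ 2)

/-- `u` vanishes to infinite order in the `L^s` sense at `z₀`:
`r^{-N} ∫_{B(z₀,r)} |u|^s → 0` as `r → 0+`, for every `N`. -/
def VanishesToInfiniteOrder {n m : ℕ} (s : ℝ) (u : CC n → CC m) (z₀ : CC n) : Prop :=
  ∀ N : ℕ, Tendsto (fun r : ℝ => (∫⁻ z in ball z₀ r, ‖u z‖ₑ ^ s) / ENNReal.ofReal r ^ N)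
    (𝓝[>] 0) (𝓝 0)

end Pool.Agent.DbarSUC
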