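import Mathlib
import Pool.Agent.DbarSUC.Dbar

/-!
Strong approximation of a function with weak `∂̄` by smooth functions (mollification).
-/

namespace Pool.Agent.DbarSUC

open MeasureTheory Set Filter Topology Complex Metric
open scoped Convolution

section translate

variable {E : Type*} [NormedAddCommGroup E] [NormedSpace ℝ E] [FiniteDimensional ℝ E]
  [MeasurableSpace E] [BorelSpace E] (μ : Measure E) [μ.IsAddHaarMeasure]
  {F : Type*} [NormedAddCommGroup F] [NormedSpace ℝ F]

/-- Continuity of translations in `L¹`. -/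
theorem eventually_translate {u : E → F} (hu : Integrable u μ) {ε : ENNReal} (hε : 0 < ε) :
    ∀ᶠ t in 𝓝 (0 : E), ∫⁻ z, ‖u (z - t) - u z‖ₑ ∂μ ≤ ε := by
  have hproper : ProperSpace E := FiniteDimensional.proper ℝ E
  have h3 : (ε / 3) ≠ 0 := by
    simp [hε.ne']
  obtain ⟨g, hgs, hge, hgc, hgi⟩ := hu.exists_hasCompactSupport_lintegral_sub_le h3
  have hguc : UniformContinuous g := hgs.uniformContinuous_of_continuous hgc
  obtain ⟨A, hA⟩ := hgs.isCompact.isBounded.subset_closedBall (0:E)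
  have hmfin : μ (closedBall (0:E) (A+1)) ≠ ⊤ := measure_closedBall_lt_top.ne
  obtain ⟨η, hη0, hη⟩ := ENNReal.exists_nnreal_pos_mul_lt hmfin h3
  obtain ⟨δ, hδ0, hδ⟩ := Metric.uniformContinuous_iff.mp hguc η hη0
  rw [Metric.eventually_nhds_iff]
  refine ⟨min δ 1, by positivity, fun t ht => ?_⟩
  rw [dist_zero_right, lt_min_iff] at ht
  have hpt : ∀ z, ‖g (z - t) - g z‖ₑ ≤ (closedBall (0:E) (A+1)).indicator (fun _ => (η : ENNReal)) z := by
    intro z
    by_cases hz : z ∈ closedBall (0:E) (A+1)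
    · rw [indicator_of_mem hz]
      have h1 : dist (z - t) z < δ := by
        rw [dist_eq_norm]
        simpa using ht.1
      have h2 := (hδ h1).le
      rw [dist_eq_norm] at h2
      rw [← ofReal_norm]
      exact ENNReal.ofReal_le_of_le_toReal (by simpa using h2)
    · rw [indicator_of_notMem hz]
      rw [mem_closedBall_zero_iff, not_le] at hz
      have h1 : g z = 0 := by
        apply image_eq_zero_of_notMem_tsupport
        intro h
        have := hA h
        rw [mem_closedBall_zero_iff] at this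
        linarith
      have h2 : g (z - t) = 0 := by
        apply image_eq_zero_of_notMem_tsupport
        intro h
        have := hA h
        rw [mem_closedBall_zero_iff] at this
        have h3 : ‖z‖ ≤ ‖z - t‖ + ‖t‖ := by
          simpa using norm_add_le (z - t) t
        linarith [ht.2]
      simp [h1, h2]
  have hm1 : AEMeasurable (fun z => ‖u z - g z‖ₑ) μ :=
    (hu.aestronglyMeasurable.sub hgc.aestronglyMeasurable).enorm
  calc ∫⁻ z, ‖u (z - t) - u z‖ₑ ∂μ
      ≤ ∫⁻ z, (‖u (z - t) - g (z - t)‖ₑ + (‖u z - g z‖ₑ + ‖g (z - t) - g z‖ₑ)) ∂μ := by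
        apply lintegral_mono
        intro z
        have h1 : u (z - t) - u z = (u (z - t) - g (z - t)) + ((-(u z - g z)) + (g (z - t) - g z)) := by
          abel
        simp only
        rw [h1]
        refine (enorm_add_le _ _).trans ?_
        gcongr
        refine (enorm_add_le _ _).trans ?_
        rw [enorm_neg]
    _ = ∫⁻ z, ‖u (z - t) - g (z - t)‖ₑ ∂μ + (∫⁻ z, ‖u z - g z‖ₑ ∂μ +
          ∫⁻ z, ‖g (z - t) - g z‖ₑ ∂μ) := by
        rw [lintegral_add_left', lintegral_add_left' hm1]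
        exact hm1.comp_quasiMeasurePreserving
          (measurePreserving_sub_right μ t).quasiMeasurePreserving
    _ ≤ ε / 3 + (ε / 3 + ε / 3) := by
        gcongr
        · rw [lintegral_sub_right_eq_self (fun z => ‖u z - g z‖ₑ) t]
          exact hge
        · calc ∫⁻ z, ‖g (z - t) - g z‖ₑ ∂μ
              ≤ ∫⁻ z, (closedBall (0:E) (A+1)).indicator (fun _ => (η : ENNReal)) z ∂μ :=
                lintegral_mono hpt
            _ = η * μ (closedBall (0:E) (A+1)) := by
                rw [lintegral_indicator isClosed_closedBall.measurableSet]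
                simp
            _ ≤ ε / 3 := hη.le
    _ = ε := by
        rw [← add_assoc]
        exact ENNReal.add_thirds ε

theorem lintegral_convolution_sub_le [CompleteSpace F] {u : E → F} (hu : Integrable u μ) {φ : E → ℝ}
    (hφc : Continuous φ) (hφs : HasCompactSupport φ) (hφ0 : ∀ x, 0 ≤ φ x)
    (hφ1 : ∫ x, φ x ∂μ = 1) {ε : ENNReal}
    (h : ∀ t, φ t ≠ 0 → ∫⁻ z, ‖u (z - t) - u z‖ₑ ∂μ ≤ ε) :
    ∫⁻ z, ‖(φ ⋆[ContinuousLinearMap.lsmul ℝ ℝ, μ] u) z - u z‖ₑ ∂μ ≤ ε := by
  have hφi : Integrable φ μ := hφc.integrable_of_hasCompactSupport hφs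
  have hex : ∀ z, Integrable (fun t => φ t • u (z - t)) μ := fun z =>
    hφs.convolutionExists_left (ContinuousLinearMap.lsmul ℝ ℝ) hφc hu.locallyIntegrable z
  have hpt : ∀ z, ‖(φ ⋆[ContinuousLinearMap.lsmul ℝ ℝ, μ] u) z - u z‖ₑ ≤
      ∫⁻ t, ‖φ t‖ₑ * ‖u (z - t) - u z‖ₑ ∂μ := by
    intro z
    have h1 : (φ ⋆[ContinuousLinearMap.lsmul ℝ ℝ, μ] u) z - u z =
        ∫ t, φ t • (u (z - t) - u z) ∂μ := by
      have h2 : u z = ∫ t, φ t • u z ∂μ := by
        rw [integral_smul_const, hφ1, one_smul]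
      conv_lhs => rw [h2]
      rw [convolution_def]
      simp only [ContinuousLinearMap.lsmul_apply]
      rw [← integral_sub (hex z) (hφi.smul_const (u z))]
      simp only [smul_sub]
    rw [h1]
    refine (enorm_integral_le_lintegral_enorm _).trans ?_
    simp only [enorm_smul]
    exact le_rfl
  have hmeas : AEMeasurable (fun p : E × E => ‖φ p.2‖ₑ * ‖u (p.1 - p.2) - u p.1‖ₑ) (μ.prod μ) := by
    refine AEMeasurable.mul (f := fun p : E × E => ‖φ p.2‖ₑ)
      (g := fun p : E × E => ‖u (p.1 - p.2) - u p.1‖ₑ) ?_ ?_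
    · exact (hφc.comp continuous_snd).enorm.aemeasurable
    · apply AEStronglyMeasurable.enorm
      apply AEStronglyMeasurable.sub
      · exact hu.aestronglyMeasurable.comp_quasiMeasurePreserving
          (quasiMeasurePreserving_sub_of_right_invariant μ μ)
      · exact hu.aestronglyMeasurable.comp_fst
  calc ∫⁻ z, ‖(φ ⋆[ContinuousLinearMap.lsmul ℝ ℝ, μ] u) z - u z‖ₑ ∂μ
      ≤ ∫⁻ z, ∫⁻ t, ‖φ t‖ₑ * ‖u (z - t) - u z‖ₑ ∂μ ∂μ := lintegral_mono hpt
    _ = ∫⁻ t, ∫⁻ z, ‖φ t‖ₑ * ‖u (z - t) - u z‖ₑ ∂μ ∂μ := lintegral_lintegral_swap hmeas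
    _ ≤ ∫⁻ t, ‖φ t‖ₑ * ε ∂μ := by
        apply lintegral_mono
        intro t
        simp only
        rw [lintegral_const_mul' _ _ (by simp)]
        by_cases ht : φ t = 0
        · simp [ht]
        · gcongr
          exact h t ht
    _ = ε := by
        rw [lintegral_mul_const _ (hφc.enorm.measurable)]
        have : ∫⁻ t, ‖φ t‖ₑ ∂μ = 1 := by
          have h1 : ∀ t, ‖φ t‖ₑ = ENNReal.ofReal (φ t) := fun t => by
            rw [Real.enorm_eq_ofReal (hφ0 t)]
          simp only [h1]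
          rw [← ofReal_integral_eq_lintegral_ofReal hφi (Eventually.of_forall hφ0), hφ1]
          simp
        rw [this, one_mul]

/-- The derivative of a mollified function. -/
theorem fderiv_convolution_apply [CompleteSpace F] {u : E → F} (hu : Integrable u μ) {φ : E → ℝ}
    (hφ : ContDiff ℝ 1 φ) (hφs : HasCompactSupport φ) (z v : E) :
    fderiv ℝ (φ ⋆[ContinuousLinearMap.lsmul ℝ ℝ, μ] u) z v =
      ∫ y, (fderiv ℝ φ (z - y) v) • u y ∂μ := by
  have hul : LocallyIntegrable u μ := hu.locallyIntegrable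
  set L : ℝ →L[ℝ] F →L[ℝ] F := ContinuousLinearMap.lsmul ℝ ℝ with hL
  have h0 := hφs.hasFDerivAt_convolution_left (μ := μ) L hφ
    hul z
  have h1 := h0.fderiv
  have hc : Continuous (fderiv ℝ φ) := hφ.continuous_fderiv one_ne_zero
  have hex : Integrable (fun t => (L.precompL E (fderiv ℝ φ t)) (u (z - t))) μ :=
    (hφs.fderiv ℝ).convolutionExists_left (L.precompL E) hc hul z
  rw [h1, convolution_def, ContinuousLinearMap.integral_apply hex]
  rw [← integral_sub_left_eq_self (fun y => (fderiv ℝ φ (z - y) v) • u y) μ z]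
  congr 1
  ext t
  simp [hL]

end translate

section main

variable {E : Type*} [NormedAddCommGroup E] [NormedSpace ℂ E] [FiniteDimensional ℂ E]
  [MeasurableSpace E] [BorelSpace E] (μ : Measure E) [μ.IsAddHaarMeasure]
  {F : Type*} [NormedAddCommGroup F] [NormedSpace ℂ F] [CompleteSpace F]

theorem dbar_convolution {u g : E → F} (hu : Integrable u μ) {z0 : E} {R : ℝ} (v : E)
    (hweak : ∀ φ : E → ℂ, ContDiff ℝ ((⊤ : ℕ∞) : WithTop ℕ∞) φ → HasCompactSupport φ →
      tsupport φ ⊆ ball z0 R → ∫ z, dbar φ z v • u z ∂μ = - ∫ z, φ z • g z ∂μ)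
    {φ : E → ℝ} (hφ : ContDiff ℝ ((⊤ : ℕ∞) : WithTop ℕ∞) φ) {δ : ℝ}
    (hφs : tsupport φ ⊆ closedBall 0 δ) {z : E} (hz : closedBall z δ ⊆ ball z0 R) :
    dbar (φ ⋆[ContinuousLinearMap.lsmul ℝ ℝ, μ] u) z v =
      (φ ⋆[ContinuousLinearMap.lsmul ℝ ℝ, μ] g) z := by
  have hproper : ProperSpace E := FiniteDimensional.proper ℝ E
  have hcs : HasCompactSupport φ :=
    HasCompactSupport.intro' (isCompact_closedBall 0 δ) isClosed_closedBall
      (fun x hx => image_eq_zero_of_notMem_tsupport (fun h => hx (hφs h)))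
  have hφ1 : ContDiff ℝ 1 φ := hφ.of_le (by exact_mod_cast le_top)
  set ψ : E → ℂ := fun y => ((φ (z - y) : ℝ) : ℂ) with hψ
  have hψc : ContDiff ℝ ((⊤ : ℕ∞) : WithTop ℕ∞) ψ :=
    Complex.ofRealCLM.contDiff.comp (hφ.comp (contDiff_const.sub contDiff_id))
  have hψt : tsupport ψ ⊆ closedBall z δ := by
    apply closure_minimal _ isClosed_closedBall
    intro y hy
    have h1 : φ (z - y) ≠ 0 := by
      intro h
      apply hy
      simp [hψ, h]
    have h2 : z - y ∈ closedBall (0:E) δ := hφs (subset_tsupport _ h1)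
    rw [mem_closedBall_zero_iff] at h2
    rw [mem_closedBall, dist_comm, dist_eq_norm]
    exact h2
  have hψs : HasCompactSupport ψ :=
    HasCompactSupport.intro' (isCompact_closedBall z δ) isClosed_closedBall
      (fun x hx => image_eq_zero_of_notMem_tsupport (fun h => hx (hψt h)))
  have hfd : ∀ y w, fderiv ℝ ψ y w = - ((fderiv ℝ φ (z - y) w : ℝ) : ℂ) := by
    intro y w
    have h1 : HasFDerivAt (fun y : E => z - y) (-(ContinuousLinearMap.id ℝ E)) y :=
      (hasFDerivAt_id y).const_sub z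
    have h2 : HasFDerivAt φ (fderiv ℝ φ (z - y)) (z - y) :=
      (hφ1.differentiable one_ne_zero _).hasFDerivAt
    have h3 := (Complex.ofRealCLM.hasFDerivAt.comp y (h2.comp y h1)).fderiv
    have h4 : fderiv ℝ ψ y = _ := h3
    rw [h4]
    simp
  have hint : ∀ w, Integrable (fun y => (fderiv ℝ φ (z - y) w) • u y) μ := by
    intro w
    have hc : Continuous fun y => fderiv ℝ φ (z - y) w :=
      ((hφ1.continuous_fderiv one_ne_zero).comp (continuous_const.sub continuous_id)).clm_apply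
        continuous_const
    have hs : HasCompactSupport fun y => fderiv ℝ φ (z - y) w := by
      have h1 := (hcs.fderiv ℝ).comp_homeomorph (Homeomorph.subLeft z)
      have h2 : HasCompactSupport fun y => fderiv ℝ φ (z - y) := h1
      exact h2.comp_left (g := fun L : E →L[ℝ] ℝ => L w) (by simp)
    obtain ⟨C, hC⟩ := hs.exists_bound_of_continuous hc
    exact Integrable.bdd_smul (𝕜 := ℝ) hu C hc.aestronglyMeasurable (Eventually.of_forall hC)
  have hint2 : ∀ w, Integrable (fun y => I • (fderiv ℝ φ (z - y) w) • u y) μ :=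
    fun w => (hint w).smul I
  have hkey : dbar (φ ⋆[ContinuousLinearMap.lsmul ℝ ℝ, μ] u) z v =
      - ∫ y, dbar ψ y v • u y ∂μ := by
    simp only [dbar]
    rw [fderiv_convolution_apply μ hu hφ1 hcs, fderiv_convolution_apply μ hu hφ1 hcs,
      ← integral_smul, ← integral_add (hint v) (hint2 (I • v)), ← integral_smul,
      ← integral_neg]
    congr 1
    ext y
    simp only [hfd]
    simp only [← Complex.coe_smul]
    module
  rw [hkey, hweak ψ hψc hψs (hψt.trans hz), neg_neg, convolution_def]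
  rw [← integral_sub_left_eq_self (fun y => ψ y • g y) μ z]
  simp [hψ]

/-- Strong approximation of a function with a weak `∂̄` by smooth functions. -/
theorem exists_smooth_approx {ι : Type*} [Fintype ι] (e : ι → E) (z0 : E) {ρ R : ℝ}
    (_h0 : 0 < ρ) (hR : ρ < R) (u : E → F) (g : ι → E → F)
    (hu : IntegrableOn u (ball z0 R) μ) (hg : ∀ j, IntegrableOn (g j) (ball z0 R) μ)
    (hweak : ∀ φ : E → ℂ, ContDiff ℝ ((⊤ : ℕ∞) : WithTop ℕ∞) φ → HasCompactSupport φ →
      tsupport φ ⊆ ball z0 R → ∀ j, ∫ z, dbar φ z (e j) • u z ∂μ = - ∫ z, φ z • g j z ∂μ)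
    {ε : ENNReal} (hε : 0 < ε) :
    ∃ U : E → F, ContDiff ℝ 1 U ∧ ∫⁻ z in ball z0 ρ, ‖U z - u z‖ₑ ∂μ ≤ ε ∧
      ∀ j, ∫⁻ z in ball z0 ρ, ‖dbar U z (e j) - g j z‖ₑ ∂μ ≤ ε := by
  have hproper : ProperSpace E := FiniteDimensional.proper ℝ E
  set u1 : E → F := (ball z0 R).indicator u with hu1
  set g1 : ι → E → F := fun j => (ball z0 R).indicator (g j) with hg1
  have hu1i : Integrable u1 μ := hu.integrable_indicator isOpen_ball.measurableSet
  have hg1i : ∀ j, Integrable (g1 j) μ := fun j =>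
    (hg j).integrable_indicator isOpen_ball.measurableSet
  have hev : ∀ᶠ t in 𝓝 (0 : E), ∫⁻ z, ‖u1 (z - t) - u1 z‖ₑ ∂μ ≤ ε ∧
      ∀ j, ∫⁻ z, ‖g1 j (z - t) - g1 j z‖ₑ ∂μ ≤ ε :=
    (eventually_translate μ hu1i hε).and
      (eventually_all.mpr fun j => eventually_translate μ (hg1i j) hε)
  obtain ⟨δ0, hδ0, hδ⟩ := Metric.eventually_nhds_iff.mp hev
  set δ : ℝ := min (δ0 / 2) (R - ρ) with hδdef
  have hδpos : 0 < δ := lt_min (by positivity) (by linarith)
  have hδlt : δ < δ0 := lt_of_le_of_lt (min_le_left _ _) (by linarith)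
  have hδR : δ ≤ R - ρ := min_le_right _ _
  let f : ContDiffBump (0 : E) := ⟨δ / 2, δ, by positivity, by linarith⟩
  set φ : E → ℝ := f.normed μ with hφ
  have hφc : ContDiff ℝ ((⊤ : ℕ∞) : WithTop ℕ∞) φ := f.contDiff_normed
  have hφcont : Continuous φ := hφc.continuous
  have hφs : HasCompactSupport φ := f.hasCompactSupport_normed
  have hφt : tsupport φ ⊆ closedBall 0 δ := (f.tsupport_normed_eq (μ := μ)).le
  have hφ0 : ∀ x, 0 ≤ φ x := f.nonneg_normed
  have hφ1 : ∫ x, φ x ∂μ = 1 := f.integral_normed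
  have htr : ∀ t, φ t ≠ 0 → ∫⁻ z, ‖u1 (z - t) - u1 z‖ₑ ∂μ ≤ ε ∧
      ∀ j, ∫⁻ z, ‖g1 j (z - t) - g1 j z‖ₑ ∂μ ≤ ε := by
    intro t ht
    apply hδ
    have := hφt (subset_tsupport _ ht)
    rw [mem_closedBall] at this
    exact lt_of_le_of_lt this hδlt
  refine ⟨φ ⋆[ContinuousLinearMap.lsmul ℝ ℝ, μ] u1, ?_, ?_, ?_⟩
  · exact hφs.contDiff_convolution_left _ (hφc.of_le (by exact_mod_cast le_top))
      hu1i.locallyIntegrable
  · calc ∫⁻ z in ball z0 ρ, ‖(φ ⋆[ContinuousLinearMap.lsmul ℝ ℝ, μ] u1) z - u z‖ₑ ∂μ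
        = ∫⁻ z in ball z0 ρ, ‖(φ ⋆[ContinuousLinearMap.lsmul ℝ ℝ, μ] u1) z - u1 z‖ₑ ∂μ := by
          apply setLIntegral_congr_fun isOpen_ball.measurableSet
          intro z hz
          have : u1 z = u z := indicator_of_mem (ball_subset_ball hR.le hz) u
          simp only [this]
      _ ≤ ∫⁻ z, ‖(φ ⋆[ContinuousLinearMap.lsmul ℝ ℝ, μ] u1) z - u1 z‖ₑ ∂μ :=
          setLIntegral_le_lintegral _ _
      _ ≤ ε := lintegral_convolution_sub_le μ hu1i hφcont hφs hφ0 hφ1 fun t ht => (htr t ht).1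
  · intro j
    have hw : ∀ φ : E → ℂ, ContDiff ℝ ((⊤ : ℕ∞) : WithTop ℕ∞) φ → HasCompactSupport φ →
        tsupport φ ⊆ ball z0 R → ∫ z, dbar φ z (e j) • u1 z ∂μ = - ∫ z, φ z • g1 j z ∂μ := by
      intro χ hχ hχs hχt
      have h1 : ∀ z, dbar χ z (e j) • u1 z = dbar χ z (e j) • u z := by
        intro z
        by_cases hz : z ∈ ball z0 R
        · rw [hu1, indicator_of_mem hz]
        · have h2 : fderiv ℝ χ z = 0 := by
            apply image_eq_zero_of_notMem_tsupport
            intro h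
            exact hz (hχt (tsupport_fderiv_subset ℝ h))
          simp [dbar, h2]
      have h2 : ∀ z, χ z • g1 j z = χ z • g j z := by
        intro z
        by_cases hz : z ∈ ball z0 R
        · simp only [hg1]
          rw [indicator_of_mem hz]
        · have h2 : χ z = 0 := by
            apply image_eq_zero_of_notMem_tsupport
            intro h
            exact hz (hχt h)
          simp [h2]
      simp only [h1, h2]
      exact hweak χ hχ hχs hχt j
    calc ∫⁻ z in ball z0 ρ, ‖dbar (φ ⋆[ContinuousLinearMap.lsmul ℝ ℝ, μ] u1) z (e j) - g j z‖ₑ ∂μ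
        = ∫⁻ z in ball z0 ρ, ‖(φ ⋆[ContinuousLinearMap.lsmul ℝ ℝ, μ] g1 j) z - g1 j z‖ₑ ∂μ := by
          apply setLIntegral_congr_fun isOpen_ball.measurableSet
          intro z hz
          have h1 : g1 j z = g j z := indicator_of_mem (ball_subset_ball hR.le hz) (g j)
          have h2 : closedBall z δ ⊆ ball z0 R := by
            intro y hy
            rw [mem_closedBall] at hy
            rw [mem_ball] at hz ⊢
            have := dist_triangle y z z0
            linarith
          simp only [h1]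
          rw [dbar_convolution μ hu1i (g := g1 j) (z0 := z0) (R := R)
            (e j) hw hφc hφt h2]
      _ ≤ ∫⁻ z, ‖(φ ⋆[ContinuousLinearMap.lsmul ℝ ℝ, μ] g1 j) z - g1 j z‖ₑ ∂μ :=
          setLIntegral_le_lintegral _ _
      _ ≤ ε := lintegral_convolution_sub_le μ (hg1i j) hφcont hφs hφ0 hφ1
          fun t ht => (htr t ht).2 j

end main

end Pool.Agent.DbarSUC
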