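import Mathlib

namespace Pool.Agent.DbarSUC

open MeasureTheory Set Filter Topology Complex Module

section

variable {V : Type*} [NormedAddCommGroup V] [NormedSpace ℂ V] [FiniteDimensional ℂ V]
  [MeasurableSpace V] [BorelSpace V] (μ : Measure V) [μ.IsAddHaarMeasure]

theorem det_smul_real (c : ℂ) :
    LinearMap.det ((c • (LinearMap.id : V →ₗ[ℂ] V)).restrictScalars ℝ) =
      (‖c‖ ^ 2) ^ finrank ℂ V := by
  rw [LinearMap.det_restrictScalars, LinearMap.det_smul, LinearMap.det_id, mul_one, map_pow,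
    Algebra.norm_complex_apply, Complex.normSq_eq_norm_sq]

/-- Change of variables `w ↦ c • w` in a complex vector space. -/
theorem lintegral_smul_complex {c : ℂ} (hc : c ≠ 0) {f : V → ENNReal} (hf : Measurable f) :
    ∫⁻ w, f w ∂μ = ‖c‖ₑ ^ (2 * finrank ℂ V) * ∫⁻ w, f (c • w) ∂μ := by
  haveI : FiniteDimensional ℝ V := FiniteDimensional.complexToReal V
  set L : V →ₗ[ℝ] V := (c • (LinearMap.id : V →ₗ[ℂ] V)).restrictScalars ℝ with hL
  have hdet : LinearMap.det L = (‖c‖ ^ 2) ^ finrank ℂ V := det_smul_real c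
  have hpos : 0 < (‖c‖ ^ 2) ^ finrank ℂ V := by
    have := norm_pos_iff.2 hc
    positivity
  have h1 := Measure.map_linearMap_addHaar_eq_smul_addHaar μ (f := L) (by rw [hdet]; exact hpos.ne')
  have h2 : ∫⁻ w, f (c • w) ∂μ = ∫⁻ w, f w ∂(Measure.map L μ) := by
    rw [lintegral_map hf L.continuous_of_finiteDimensional.measurable]
    rfl
  rw [h2, h1, lintegral_smul_measure, hdet, smul_eq_mul, ← mul_assoc]
  have h3 : ‖c‖ₑ ^ (2 * finrank ℂ V) * ENNReal.ofReal |((‖c‖ ^ 2) ^ finrank ℂ V)⁻¹| = 1 := by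
    rw [← ofReal_norm_eq_enorm, ← ENNReal.ofReal_pow (norm_nonneg _),
      ← ENNReal.ofReal_mul (by positivity), abs_of_pos (inv_pos.2 hpos), ← pow_mul,
      mul_inv_cancel₀ (by rw [pow_mul]; exact hpos.ne'), ENNReal.ofReal_one]
  rw [h3, one_mul]

end

end Pool.Agent.DbarSUC
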