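import Mathlib
import Pool.Agent.DbarSUC.Scale

/-!
Parametrisation of `ℂ^{d+1}` by the complex lines `ζ ↦ z₀ + ζ • (1, w)`.
-/

namespace Pool.Agent.DbarSUC

open MeasureTheory Set Filter Topology Complex Module
open scoped ENNReal NNReal

/-- The vector `(1, w)`. -/
noncomputable def vec {d : ℕ} (w : Fin d → ℂ) : EuclideanSpace ℂ (Fin (d + 1)) :=
  WithLp.toLp 2 (Fin.cons (1 : ℂ) w : Fin (d + 1) → ℂ)

/-- The coordinates `(ζ, y)` on `ℂ^{d+1}`. -/
noncomputable def consL (d : ℕ) : (ℂ × (Fin d → ℂ)) ≃L[ℂ] EuclideanSpace ℂ (Fin (d + 1)) :=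
  (Fin.consEquivL ℂ (fun _ : Fin (d + 1) => ℂ)).trans
    (PiLp.continuousLinearEquiv 2 ℂ (fun _ : Fin (d + 1) => ℂ)).symm

theorem consL_apply {d : ℕ} (ζ : ℂ) (y : Fin d → ℂ) :
    consL d (ζ, y) = WithLp.toLp 2 (Fin.cons ζ y : Fin (d + 1) → ℂ) := rfl

theorem vec_eq {d : ℕ} (w : Fin d → ℂ) : vec w = consL d (1, w) := rfl

theorem continuous_vec {d : ℕ} : Continuous (vec (d := d)) := by
  have : (vec (d := d)) = fun w => consL d (1, w) := funext vec_eq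
  rw [this]
  exact (consL d).continuous.comp (by fun_prop)

theorem measurable_vec {d : ℕ} : Measurable (vec (d := d)) := continuous_vec.measurable

theorem smul_vec {d : ℕ} (ζ : ℂ) (w : Fin d → ℂ) : ζ • vec w = consL d (ζ, ζ • w) := by
  rw [vec_eq, ← map_smul]
  simp

theorem vec_ne {d : ℕ} (w : Fin d → ℂ) : vec w ≠ 0 := by
  rw [vec_eq]
  intro h
  have h2 := (map_eq_zero_iff (consL d) (consL d).injective).mp h
  simp at h2

theorem measurable_lines_aux {d : ℕ} (z0 : EuclideanSpace ℂ (Fin (d + 1)))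
    {F : EuclideanSpace ℂ (Fin (d + 1)) → ℝ≥0∞} (hF : Measurable F) :
    Measurable fun p : (Fin d → ℂ) × ℂ => ‖p.2‖ₑ ^ (2 * d) * F (z0 + p.2 • vec p.1) := by
  apply Measurable.mul
  · fun_prop
  · apply hF.comp
    apply Continuous.measurable
    exact continuous_const.add (continuous_snd.smul (continuous_vec.comp continuous_fst))

theorem measurable_line {d : ℕ} (z0 : EuclideanSpace ℂ (Fin (d + 1)))
    {F : EuclideanSpace ℂ (Fin (d + 1)) → ℝ≥0∞} (hF : Measurable F) (w : Fin d → ℂ) :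
    Measurable fun ζ : ℂ => ‖ζ‖ₑ ^ (2 * d) * F (z0 + ζ • vec w) :=
  (measurable_lines_aux z0 hF).comp (measurable_const.prodMk measurable_id)

/-- Fubini along the complex lines through `z₀`. -/
theorem lintegral_lines (d : ℕ) (μ : Measure (EuclideanSpace ℂ (Fin (d + 1))))
    [μ.IsAddHaarMeasure] :
    ∃ c : ℝ≥0∞, c ≠ 0 ∧ c ≠ ∞ ∧ ∀ (z0 : EuclideanSpace ℂ (Fin (d + 1)))
      (F : EuclideanSpace ℂ (Fin (d + 1)) → ℝ≥0∞), Measurable F →
      ∫⁻ z, F z ∂μ = c * ∫⁻ w : Fin d → ℂ, ∫⁻ ζ : ℂ, ‖ζ‖ₑ ^ (2 * d) * F (z0 + ζ • vec w) := by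
  set ν : Measure (EuclideanSpace ℂ (Fin (d + 1))) :=
    ((volume : Measure ℂ).prod (volume : Measure (Fin d → ℂ))).map (consL d) with hν
  have hνp : ((volume : Measure ℂ).prod (volume : Measure (Fin d → ℂ))).IsAddHaarMeasure :=
    Measure.prod.instIsAddHaarMeasure volume volume
  have hνH : ν.IsAddHaarMeasure := (consL d).isAddHaarMeasure_map _
  set c : ℝ≥0∞ := (Measure.addHaarScalarFactor μ ν : ℝ≥0∞) with hc
  have hc0 : c ≠ 0 := by
    simpa only [hc, ne_eq, ENNReal.coe_eq_zero] using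
      (Measure.addHaarScalarFactor_pos_of_isAddHaarMeasure μ ν).ne'
  have hμ : μ = c • ν := Measure.isAddLeftInvariant_eq_smul μ ν
  refine ⟨c, hc0, ENNReal.coe_ne_top, fun z0 F hF => ?_⟩
  have hF' : Measurable fun p : ℂ × (Fin d → ℂ) => F (z0 + consL d p) :=
    hF.comp (measurable_const.add (consL d).continuous.measurable)
  calc ∫⁻ z, F z ∂μ = ∫⁻ z, F (z0 + z) ∂μ := (lintegral_add_left_eq_self F z0).symm
    _ = c * ∫⁻ z, F (z0 + z) ∂ν := by
        conv_lhs => rw [hμ]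
        rw [lintegral_smul_measure, smul_eq_mul]
    _ = c * ∫⁻ p : ℂ × (Fin d → ℂ), F (z0 + consL d p) ∂((volume : Measure ℂ).prod volume) := by
        rw [hν, lintegral_map (f := fun z => F (z0 + z)) (hF.comp (measurable_const_add z0))
          (consL d).continuous.measurable]
    _ = c * ∫⁻ ζ : ℂ, ∫⁻ y : Fin d → ℂ, F (z0 + consL d (ζ, y)) := by
        rw [lintegral_prod _ hF'.aemeasurable]
    _ = c * ∫⁻ ζ : ℂ, ∫⁻ w : Fin d → ℂ, ‖ζ‖ₑ ^ (2 * d) * F (z0 + ζ • vec w) := by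
        congr 1
        apply lintegral_congr_ae
        have h0 : ∀ᵐ ζ : ℂ, ζ ≠ 0 := by
          simp [ae_iff]
        filter_upwards [h0] with ζ hζ
        have h1 := lintegral_smul_complex (V := Fin d → ℂ) volume hζ
          (f := fun y => F (z0 + consL d (ζ, y))) (hF'.comp (by fun_prop))
        rw [h1, finrank_fin_fun, ← lintegral_const_mul']
        · simp only [smul_vec]
        · exact ENNReal.pow_ne_top (by simp)
    _ = c * ∫⁻ w : Fin d → ℂ, ∫⁻ ζ : ℂ, ‖ζ‖ₑ ^ (2 * d) * F (z0 + ζ • vec w) := by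
        rw [lintegral_lintegral_swap]
        apply Measurable.aemeasurable
        exact (measurable_lines_aux z0 hF).comp measurable_swap

theorem measurable_inner {d : ℕ} (z0 : EuclideanSpace ℂ (Fin (d + 1)))
    {F : EuclideanSpace ℂ (Fin (d + 1)) → ℝ≥0∞} (hF : Measurable F) :
    Measurable fun w : Fin d → ℂ => ∫⁻ ζ : ℂ, ‖ζ‖ₑ ^ (2 * d) * F (z0 + ζ • vec w) :=
  (measurable_lines_aux z0 hF).lintegral_prod_right'

theorem lines_ne_top {d : ℕ} (μ : Measure (EuclideanSpace ℂ (Fin (d + 1))))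
    [μ.IsAddHaarMeasure] (z0 : EuclideanSpace ℂ (Fin (d + 1)))
    {F : EuclideanSpace ℂ (Fin (d + 1)) → ℝ≥0∞} (hF : Measurable F) (h : ∫⁻ z, F z ∂μ ≠ ∞) :
    ∀ᵐ w : Fin d → ℂ, ∫⁻ ζ : ℂ, ‖ζ‖ₑ ^ (2 * d) * F (z0 + ζ • vec w) ≠ ∞ := by
  obtain ⟨c, hc0, hc, hcF⟩ := lintegral_lines d μ
  rw [hcF z0 F hF] at h
  have h2 : ∫⁻ w : Fin d → ℂ, ∫⁻ ζ : ℂ, ‖ζ‖ₑ ^ (2 * d) * F (z0 + ζ • vec w) ≠ ∞ := by
    intro h3
    rw [h3, ENNReal.mul_top hc0] at h
    exact h rfl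
  filter_upwards [ae_lt_top (measurable_inner z0 hF) h2] with w hw
  exact hw.ne

theorem ae_lines {d : ℕ} (μ : Measure (EuclideanSpace ℂ (Fin (d + 1))))
    [μ.IsAddHaarMeasure] (z0 : EuclideanSpace ℂ (Fin (d + 1)))
    {P : EuclideanSpace ℂ (Fin (d + 1)) → Prop} (h : ∀ᵐ z ∂μ, P z) :
    ∀ᵐ w : Fin d → ℂ, ∀ᵐ ζ : ℂ, P (z0 + ζ • vec w) := by
  obtain ⟨c, hc0, hc, hcF⟩ := lintegral_lines d μ
  obtain ⟨N, hN, hNm, hN0⟩ := exists_measurable_superset_of_null (ae_iff.mp h)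
  have hFm : Measurable (N.indicator (fun _ => (1 : ℝ≥0∞))) := measurable_const.indicator hNm
  have h1 := hcF z0 _ hFm
  rw [lintegral_indicator hNm] at h1
  simp only [lintegral_const, one_mul, Measure.restrict_apply, MeasurableSet.univ, univ_inter,
    hN0] at h1
  have h2 : ∫⁻ w : Fin d → ℂ, ∫⁻ ζ : ℂ, ‖ζ‖ₑ ^ (2 * d) *
      N.indicator (fun _ => (1 : ℝ≥0∞)) (z0 + ζ • vec w) = 0 := by
    rcases mul_eq_zero.mp h1.symm with h3 | h3
    · exact absurd h3 hc0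
    · exact h3
  rw [lintegral_eq_zero_iff (measurable_inner z0 hFm)] at h2
  filter_upwards [h2] with w hw
  have hm : Measurable fun ζ : ℂ => ‖ζ‖ₑ ^ (2 * d) *
      N.indicator (fun _ => (1 : ℝ≥0∞)) (z0 + ζ • vec w) :=
    measurable_line z0 hFm w
  simp only [Pi.zero_apply] at hw
  rw [lintegral_eq_zero_iff hm] at hw
  have h0 : ∀ᵐ ζ : ℂ, ζ ≠ 0 := by
    simp [ae_iff]
  filter_upwards [hw, h0] with ζ hζ hζ0
  by_contra hP
  have hmem : z0 + ζ • vec w ∈ N := hN hP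
  simp only [Pi.zero_apply, indicator_of_mem hmem, mul_one] at hζ
  rcases Nat.eq_zero_or_pos (2 * d) with hd | hd
  · rw [hd, pow_zero] at hζ
    exact one_ne_zero hζ
  · rw [pow_eq_zero_iff hd.ne', enorm_eq_zero] at hζ
    exact hζ0 hζ

theorem ae_of_lines {d : ℕ} (μ : Measure (EuclideanSpace ℂ (Fin (d + 1))))
    [μ.IsAddHaarMeasure] (z0 : EuclideanSpace ℂ (Fin (d + 1)))
    {P : EuclideanSpace ℂ (Fin (d + 1)) → Prop} (hP : MeasurableSet {z | P z})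
    (h : ∀ᵐ w : Fin d → ℂ, ∀ᵐ ζ : ℂ, P (z0 + ζ • vec w)) :
    ∀ᵐ z ∂μ, P z := by
  obtain ⟨c, hc0, hc, hcF⟩ := lintegral_lines d μ
  set N := {z | P z}ᶜ with hN
  have hNm : MeasurableSet N := hP.compl
  have hFm : Measurable (N.indicator (fun _ => (1 : ℝ≥0∞))) := measurable_const.indicator hNm
  have h1 := hcF z0 _ hFm
  rw [lintegral_indicator hNm] at h1
  simp only [lintegral_const, one_mul, Measure.restrict_apply, MeasurableSet.univ,
    univ_inter] at h1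
  have h2 : ∫⁻ w : Fin d → ℂ, ∫⁻ ζ : ℂ, ‖ζ‖ₑ ^ (2 * d) *
      N.indicator (fun _ => (1 : ℝ≥0∞)) (z0 + ζ • vec w) = 0 := by
    rw [lintegral_eq_zero_iff (measurable_inner z0 hFm)]
    filter_upwards [h] with w hw
    simp only [Pi.zero_apply]
    rw [lintegral_eq_zero_iff (measurable_line z0 hFm w)]
    filter_upwards [hw] with ζ hζ
    have hmem : z0 + ζ • vec w ∉ N := fun h => h hζ
    simp [indicator_of_notMem hmem]
  rw [h2, mul_zero] at h1
  exact h1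

/-- Version of `ae_of_lines` for null-measurable sets. -/
theorem ae_of_lines₀ {d : ℕ} (μ : Measure (EuclideanSpace ℂ (Fin (d + 1))))
    [μ.IsAddHaarMeasure] (z0 : EuclideanSpace ℂ (Fin (d + 1)))
    {P : EuclideanSpace ℂ (Fin (d + 1)) → Prop} (hP : NullMeasurableSet {z | P z} μ)
    (h : ∀ᵐ w : Fin d → ℂ, ∀ᵐ ζ : ℂ, P (z0 + ζ • vec w)) :
    ∀ᵐ z ∂μ, P z := by
  obtain ⟨t, ht, htm, hte⟩ := hP.exists_measurable_superset_ae_eq
  have h1 : ∀ᵐ z ∂μ, (z ∈ t → P z) := by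
    filter_upwards [hte] with z hz hzt
    have : (z ∈ t) = (P z) := hz
    rw [← this]
    exact hzt
  have h2 : ∀ᵐ z ∂μ, z ∈ t := by
    apply ae_of_lines μ z0 (P := fun z => z ∈ t) htm
    filter_upwards [h] with w hw
    filter_upwards [hw] with ζ hζ
    exact ht hζ
  filter_upwards [h1, h2] with z hz1 hz2
  exact hz1 hz2

end Pool.Agent.DbarSUC
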