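import Pool.Agent.DbarSUC.Unique
import Pool.Agent.DbarSUC.Mollify
import Pool.Agent.DbarSUC.Polar

namespace Pool.Agent.DbarSUC

open MeasureTheory Set Filter Topology Complex Metric
open scoped ENNReal

section

variable {F : Type*} [NormedAddCommGroup F] [NormedSpace ℂ F] {d : ℕ}

theorem dbar_eq_sum {n : ℕ} (U : EuclideanSpace ℂ (Fin n) → F) (z v : EuclideanSpace ℂ (Fin n)) :
    dbar U z v = ∑ j, (starRingEnd ℂ (v j)) • dbar U z (EuclideanSpace.single j 1) := by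
  have hv : v = ∑ j, v j • EuclideanSpace.single j (1 : ℂ) := by
    conv_lhs => rw [← (EuclideanSpace.basisFun (Fin n) ℂ).sum_repr v]
    simp
  let D : EuclideanSpace ℂ (Fin n) →+ F := AddMonoidHom.mk' (fun v => dbar U z v)
    (dbar_add_right U z)
  have hD : ∀ v, D v = dbar U z v := fun _ => rfl
  calc dbar U z v = D (∑ j, v j • EuclideanSpace.single j (1 : ℂ)) := by rw [← hv, hD]
    _ = ∑ j, (starRingEnd ℂ (v j)) • dbar U z (EuclideanSpace.single j 1) := by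
      rw [map_sum]
      apply Finset.sum_congr rfl
      intro j _
      rw [hD, dbar_smul_right]

theorem enorm_coord_le {n : ℕ} (v : EuclideanSpace ℂ (Fin n)) (j : Fin n) : ‖v j‖ₑ ≤ ‖v‖ₑ := by
  rw [← ofReal_norm, ← ofReal_norm]
  exact ENNReal.ofReal_le_ofReal (PiLp.norm_apply_le v j)

theorem enorm_sum_conj_le {n : ℕ} (v : EuclideanSpace ℂ (Fin n)) (x : Fin n → F) :
    ‖∑ j, (starRingEnd ℂ (v j)) • x j‖ₑ ≤ ‖v‖ₑ * ∑ j, ‖x j‖ₑ := by
  refine (enorm_sum_le _ _).trans ?_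
  rw [Finset.mul_sum]
  apply Finset.sum_le_sum
  intro j _
  rw [enorm_smul]
  have : ‖(starRingEnd ℂ (v j))‖ₑ = ‖v j‖ₑ := by
    rw [← ofReal_norm, ← ofReal_norm, RCLike.norm_conj]
  rw [this]
  gcongr
  exact enorm_coord_le v j

/-- The error functions of the approximants. -/
noncomputable def errF (z0 : EuclideanSpace ℂ (Fin (d + 1))) (ρ : ℝ)
    (U u : EuclideanSpace ℂ (Fin (d + 1)) → F)
    (g : Fin (d + 1) → EuclideanSpace ℂ (Fin (d + 1)) → F) :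
    EuclideanSpace ℂ (Fin (d + 1)) → ℝ≥0∞ :=
  (ball z0 ρ).indicator fun z => ‖U z - u z‖ₑ +
    ∑ i, ‖dbar U z (EuclideanSpace.single i 1) - g i z‖ₑ

theorem measurable_errF {z0 : EuclideanSpace ℂ (Fin (d + 1))} {ρ : ℝ}
    {U u : EuclideanSpace ℂ (Fin (d + 1)) → F}
    {g : Fin (d + 1) → EuclideanSpace ℂ (Fin (d + 1)) → F} (hU : ContDiff ℝ 1 U)
    (hu : StronglyMeasurable u) (hg : ∀ j, StronglyMeasurable (g j)) :
    Measurable (errF z0 ρ U u g) := by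
  apply Measurable.indicator _ measurableSet_ball
  have h1 : Measurable fun z => ‖U z - u z‖ₑ :=
    (hU.continuous.stronglyMeasurable.sub hu).enorm
  have h2 : Measurable fun z => ∑ i, ‖dbar U z (EuclideanSpace.single i 1) - g i z‖ₑ := by
    apply Finset.measurable_fun_sum
    intro i _
    exact ((continuous_dbar hU _).stronglyMeasurable.sub (hg i)).enorm
  exact h1.add h2

theorem norm_vec_pos (w : Fin d → ℂ) : 0 < ‖vec w‖ := norm_pos_iff.2 (vec_ne w)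

theorem mem_ball_line {z0 : EuclideanSpace ℂ (Fin (d + 1))} {w : Fin d → ℂ} {ζ : ℂ} {ρ : ℝ} :
    z0 + ζ • vec w ∈ ball z0 ρ ↔ ‖ζ‖ < ρ / ‖vec w‖ := by
  rw [mem_ball, dist_eq_norm, add_sub_cancel_left, norm_smul, lt_div_iff₀ (norm_vec_pos w)]

/-- The approximation property on almost every slice. -/
theorem approx_slice {z0 : EuclideanSpace ℂ (Fin (d + 1))} {R : ℝ}
    {u : EuclideanSpace ℂ (Fin (d + 1)) → F}
    {g : Fin (d + 1) → EuclideanSpace ℂ (Fin (d + 1)) → F}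
    (hu : StronglyMeasurable u) (hg : ∀ j, StronglyMeasurable (g j))
    {ρ : ℕ → ℝ} (hρ : Tendsto ρ atTop (𝓝 R))
    {U : ℕ → EuclideanSpace ℂ (Fin (d + 1)) → F} (hU : ∀ j, ContDiff ℝ 1 (U j))
    {w : Fin d → ℂ} (hw : ∫⁻ ζ : ℂ, ‖ζ‖ₑ ^ (2 * d) *
      ∑' j, errF z0 (ρ j) (U j) u g (z0 + ζ • vec w) ≠ ∞) :
    Approx (R / ‖vec w‖) (fun ζ => u (z0 + ζ • vec w))
      (fun ζ => ∑ i, (starRingEnd ℂ (vec w i)) • g i (z0 + ζ • vec w)) := by
  intro a b ha hb ε hε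
  set E : ℕ → ℝ≥0∞ := fun j => ∫⁻ ζ : ℂ, ‖ζ‖ₑ ^ (2 * d) *
    errF z0 (ρ j) (U j) u g (z0 + ζ • vec w) with hE
  have h1 : ∑' j, E j ≠ ∞ := by
    rw [hE, ← lintegral_tsum]
    · simpa only [ENNReal.tsum_mul_left] using hw
    · intro j
      exact (measurable_line z0 (measurable_errF (hU j) hu hg) w).aemeasurable
  have h2 : Tendsto E atTop (𝓝 0) := ENNReal.tendsto_atTop_zero_of_tsum_ne_top h1
  set A : ℝ≥0∞ := (ENNReal.ofReal a ^ (2 * d))⁻¹ with hA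
  have ha' : ENNReal.ofReal a ≠ 0 := by
    rw [ne_eq, ENNReal.ofReal_eq_zero]
    linarith
  have hAtop : A ≠ ∞ := by
    rw [hA, ne_eq, ENNReal.inv_eq_top]
    exact pow_ne_zero _ ha'
  have hA1 : ∀ ζ ∈ ann a b, 1 ≤ A * ‖ζ‖ₑ ^ (2 * d) := by
    intro ζ hζ
    have h3 : ENNReal.ofReal a ≤ ‖ζ‖ₑ := by
      rw [← ofReal_norm]
      exact ENNReal.ofReal_le_ofReal hζ.1
    calc 1 = A * ENNReal.ofReal a ^ (2 * d) := by
          rw [hA, ENNReal.inv_mul_cancel (pow_ne_zero _ ha')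
            (ENNReal.pow_ne_top ENNReal.ofReal_ne_top)]
      _ ≤ _ := by gcongr
  have h3 : Tendsto (fun j => (1 + ‖vec w‖ₑ) * A * E j) atTop
      (𝓝 ((1 + ‖vec w‖ₑ) * A * 0)) :=
    ENNReal.Tendsto.const_mul h2 (Or.inr (ENNReal.mul_ne_top
      (ENNReal.add_ne_top.2 ⟨by simp, enorm_ne_top⟩) hAtop))
  rw [mul_zero] at h3
  have h4 : ∀ᶠ j in atTop, (1 + ‖vec w‖ₑ) * A * E j < ε := h3.eventually_lt_const hε
  have h5 : ∀ᶠ j in atTop, b < ρ j / ‖vec w‖ :=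
    (hρ.div_const ‖vec w‖).eventually_const_lt hb
  obtain ⟨j, hj4, hj5⟩ := (h4.and h5).exists
  have hmem : ∀ ζ ∈ ann a b, z0 + ζ • vec w ∈ ball z0 (ρ j) := by
    intro ζ hζ
    rw [mem_ball_line]
    exact lt_of_le_of_lt hζ.2 hj5
  have h6 : ∀ (c : ℝ≥0∞) (G : ℂ → ℝ≥0∞), c ≤ 1 + ‖vec w‖ₑ →
      (∀ ζ ∈ ann a b, G ζ ≤ c * errF z0 (ρ j) (U j) u g (z0 + ζ • vec w)) →
      ∫⁻ ζ in ann a b, G ζ ≤ ε := by
    intro c G hc hG
    calc ∫⁻ ζ in ann a b, G ζ ≤ ∫⁻ ζ in ann a b, (1 + ‖vec w‖ₑ) * A * (‖ζ‖ₑ ^ (2 * d) *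
            errF z0 (ρ j) (U j) u g (z0 + ζ • vec w)) := by
          apply setLIntegral_mono' (measurableSet_ann a b)
          intro ζ hζ
          refine (hG ζ hζ).trans ?_
          calc c * errF z0 (ρ j) (U j) u g (z0 + ζ • vec w)
              ≤ (1 + ‖vec w‖ₑ) * (1 * errF z0 (ρ j) (U j) u g (z0 + ζ • vec w)) := by
                rw [one_mul]
                gcongr
            _ ≤ (1 + ‖vec w‖ₑ) * ((A * ‖ζ‖ₑ ^ (2 * d)) *
                errF z0 (ρ j) (U j) u g (z0 + ζ • vec w)) := by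
                gcongr
                exact hA1 ζ hζ
            _ = _ := by ring
      _ ≤ ∫⁻ ζ, (1 + ‖vec w‖ₑ) * A * (‖ζ‖ₑ ^ (2 * d) *
            errF z0 (ρ j) (U j) u g (z0 + ζ • vec w)) := setLIntegral_le_lintegral _ _
      _ = (1 + ‖vec w‖ₑ) * A * E j := by
          rw [lintegral_const_mul]
          exact measurable_line z0 (measurable_errF (hU j) hu hg) w
      _ ≤ ε := hj4.le
  refine ⟨fun ζ => U j (z0 + ζ • vec w), ?_, ?_, ?_⟩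
  · apply (hU j).comp
    exact contDiff_const.add (contDiff_id.smul contDiff_const)
  · apply h6 1 _ le_self_add
    intro ζ hζ
    rw [errF, indicator_of_mem (hmem ζ hζ), one_mul]
    exact le_self_add
  · apply h6 ‖vec w‖ₑ _ le_add_self
    intro ζ hζ
    rw [errF, indicator_of_mem (hmem ζ hζ),
      dbar_comp_line _ _ _ ((hU j).differentiable one_ne_zero _), dbar_eq_sum,
      ← Finset.sum_sub_distrib]
    simp only [← smul_sub]
    refine (enorm_sum_conj_le _ _).trans ?_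
    gcongr
    exact le_add_self

omit [NormedSpace ℂ F] in
/-- The weights on a slice. -/
theorem van_slice {z0 : EuclideanSpace ℂ (Fin (d + 1))} {q : ℝ} (hq : 0 < q)
    {u : EuclideanSpace ℂ (Fin (d + 1)) → F} {w : Fin d → ℂ}
    (hw : ∀ N : ℕ, ∫⁻ ζ : ℂ, ‖ζ‖ₑ ^ (2 * d) * (‖(z0 + ζ • vec w) - z0‖ₑ ^ (-(N : ℝ)) *
      ‖u (z0 + ζ • vec w)‖ₑ) ^ q ≠ ∞) (t b : ℝ) :
    ∫⁻ ζ in closedBall (0 : ℂ) b, (‖ζ‖ₑ ^ t * ‖u (z0 + ζ • vec w)‖ₑ) ^ q ≠ ∞ := by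
  obtain ⟨N, hN⟩ := exists_nat_ge (2 * d / q - t)
  set e : ℝ := t * q - 2 * d + N * q with he
  have he0 : 0 ≤ e := by
    have h1 : (2 * d / q - t) * q ≤ N * q := by gcongr
    have h2 : (2 * d / q - t) * q = 2 * d - t * q := by
      rw [sub_mul, div_mul_cancel₀ _ hq.ne']
    rw [he]
    linarith
  have hv0 : ‖vec w‖ₑ ≠ 0 := by
    rw [ne_eq, enorm_eq_zero]
    exact vec_ne w
  set M : ℝ≥0∞ := ENNReal.ofReal b ^ e * ‖vec w‖ₑ ^ (N * q) with hM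
  have hMtop : M ≠ ∞ := by
    apply ENNReal.mul_ne_top
    · exact ENNReal.rpow_ne_top_of_nonneg he0 ENNReal.ofReal_ne_top
    · exact ENNReal.rpow_ne_top_of_ne_zero hv0 enorm_ne_top
  have h1 : ∀ᵐ ζ : ℂ, ζ ∈ closedBall (0 : ℂ) b → (‖ζ‖ₑ ^ t * ‖u (z0 + ζ • vec w)‖ₑ) ^ q ≤
      M * (‖ζ‖ₑ ^ (2 * d) * (‖(z0 + ζ • vec w) - z0‖ₑ ^ (-(N : ℝ)) *
      ‖u (z0 + ζ • vec w)‖ₑ) ^ q) := by
    filter_upwards [ae_ne_zero] with ζ hζ0 hζ
    have hζ0' : ‖ζ‖ₑ ≠ 0 := by simpa using hζ0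
    rw [add_sub_cancel_left, enorm_smul, ENNReal.mul_rpow_of_nonneg _ _ hq.le,
      ENNReal.mul_rpow_of_nonneg _ _ hq.le, ← ENNReal.rpow_mul, ← ENNReal.rpow_mul,
      ENNReal.mul_rpow_of_ne_top enorm_ne_top enorm_ne_top, ← ENNReal.rpow_natCast]
    have h2 : ‖ζ‖ₑ ^ (t * q) = ‖ζ‖ₑ ^ e * (‖ζ‖ₑ ^ ((2 * d : ℕ) : ℝ) * ‖ζ‖ₑ ^ (-N * q : ℝ)) := by
      rw [← ENNReal.rpow_add _ _ hζ0' enorm_ne_top, ← ENNReal.rpow_add _ _ hζ0' enorm_ne_top]
      congr 1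
      rw [he]
      push_cast
      ring
    have h3 : ‖vec w‖ₑ ^ (N * q) * ‖vec w‖ₑ ^ (-N * q : ℝ) = 1 := by
      rw [← ENNReal.rpow_add _ _ hv0 enorm_ne_top]
      have : (N * q + -N * q : ℝ) = 0 := by ring
      rw [this, ENNReal.rpow_zero]
    have h4 : ‖ζ‖ₑ ^ e ≤ ENNReal.ofReal b ^ e := by
      apply ENNReal.rpow_le_rpow _ he0
      rw [← ofReal_norm]
      exact ENNReal.ofReal_le_ofReal (by rwa [mem_closedBall_zero_iff] at hζ)
    rw [h2]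
    calc ‖ζ‖ₑ ^ e * (‖ζ‖ₑ ^ ((2 * d : ℕ) : ℝ) * ‖ζ‖ₑ ^ (-N * q : ℝ)) *
          ‖u (z0 + ζ • vec w)‖ₑ ^ q
        ≤ ENNReal.ofReal b ^ e * (‖ζ‖ₑ ^ ((2 * d : ℕ) : ℝ) * ‖ζ‖ₑ ^ (-N * q : ℝ)) *
          ‖u (z0 + ζ • vec w)‖ₑ ^ q := by gcongr
      _ = ENNReal.ofReal b ^ e * (‖vec w‖ₑ ^ (N * q) * ‖vec w‖ₑ ^ (-N * q : ℝ)) *
          (‖ζ‖ₑ ^ ((2 * d : ℕ) : ℝ) * ‖ζ‖ₑ ^ (-N * q : ℝ)) *
          ‖u (z0 + ζ • vec w)‖ₑ ^ q := by rw [h3, mul_one]
      _ = _ := by rw [hM]; ring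
  have h5 : ∫⁻ ζ in closedBall (0 : ℂ) b, (‖ζ‖ₑ ^ t * ‖u (z0 + ζ • vec w)‖ₑ) ^ q ≤
      M * ∫⁻ ζ : ℂ, ‖ζ‖ₑ ^ (2 * d) * (‖(z0 + ζ • vec w) - z0‖ₑ ^ (-(N : ℝ)) *
      ‖u (z0 + ζ • vec w)‖ₑ) ^ q := by
    rw [← lintegral_const_mul' _ _ hMtop]
    refine (setLIntegral_mono_ae' measurableSet_closedBall h1).trans ?_
    exact setLIntegral_le_lintegral _ _
  exact ne_top_of_le_ne_top (ENNReal.mul_ne_top hMtop (hw N)) h5

/-- Uniqueness on a single good slice. -/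
theorem slice_zero [CompleteSpace F] (hd : 0 < d) {z0 : EuclideanSpace ℂ (Fin (d + 1))} {R : ℝ}
    {u : EuclideanSpace ℂ (Fin (d + 1)) → F}
    {g : Fin (d + 1) → EuclideanSpace ℂ (Fin (d + 1)) → F}
    {V : EuclideanSpace ℂ (Fin (d + 1)) → ℝ≥0∞}
    (hu : StronglyMeasurable u) (hg : ∀ j, StronglyMeasurable (g j)) (hV : Measurable V)
    {ρ : ℕ → ℝ} (hρ : Tendsto ρ atTop (𝓝 R))
    {U : ℕ → EuclideanSpace ℂ (Fin (d + 1)) → F} (hU : ∀ j, ContDiff ℝ 1 (U j))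
    {q r : ℝ} (hr : r = 2 * d + 2) (hqr : q.HolderConjugate r)
    {w : Fin d → ℂ} (hw1 : ∫⁻ ζ : ℂ, ‖ζ‖ₑ ^ (2 * d) *
      ∑' j, errF z0 (ρ j) (U j) u g (z0 + ζ • vec w) ≠ ∞)
    (hw2 : ∀ N : ℕ, ∫⁻ ζ : ℂ, ‖ζ‖ₑ ^ (2 * d) * (‖(z0 + ζ • vec w) - z0‖ₑ ^ (-(N : ℝ)) *
      ‖u (z0 + ζ • vec w)‖ₑ) ^ q ≠ ∞)
    (hw3 : ∫⁻ ζ : ℂ, ‖ζ‖ₑ ^ (2 * d) * V (z0 + ζ • vec w) ^ r ≠ ∞)
    (hw4 : ∀ j, ∀ᵐ ζ : ℂ, ‖g j (z0 + ζ • vec w)‖ₑ ≤
      V (z0 + ζ • vec w) * ‖u (z0 + ζ • vec w)‖ₑ) :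
    ∀ᵐ ζ : ℂ, ‖ζ‖ < R / ‖vec w‖ → u (z0 + ζ • vec w) = 0 := by
  have hq0 : 0 < q := hqr.pos
  have hr0 : 0 < r := hqr.symm.pos
  have hd' : (1 : ℝ) ≤ d := by exact_mod_cast hd
  have hq2 : q < 2 := by
    have h1 := hqr.inv_add_inv_eq_one
    by_contra h
    push Not at h
    have h2 : q⁻¹ ≤ 2⁻¹ := by gcongr
    have h3 : r⁻¹ ≤ 4⁻¹ := by
      apply inv_anti₀ (by norm_num)
      linarith
    norm_num at h2 h3
    linarith
  have hcont : Continuous fun ζ : ℂ => z0 + ζ • vec w := by fun_prop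
  have hA := approx_slice hu hg hρ hU hw1
  have hf : StronglyMeasurable fun ζ : ℂ => u (z0 + ζ • vec w) :=
    hu.comp_measurable hcont.measurable
  have hg' : StronglyMeasurable fun ζ : ℂ =>
      ∑ i, (starRingEnd ℂ (vec w i)) • g i (z0 + ζ • vec w) := by
    apply Finset.stronglyMeasurable_fun_sum
    intro i _
    exact ((hg i).comp_measurable hcont.measurable).const_smul _
  set c : ℝ≥0∞ := ‖vec w‖ₑ * (d + 1 : ℕ) with hc
  have hctop : c ≠ ∞ := ENNReal.mul_ne_top enorm_ne_top (by simp)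
  have hV' : Measurable fun ζ : ℂ => c * V (z0 + ζ • vec w) :=
    (hV.comp hcont.measurable).const_mul c
  apply unique_disc hA hf.aestronglyMeasurable hg'.aestronglyMeasurable hq2 hqr
    (fun t b _ => van_slice hq0 hw2 t b) hV'.aemeasurable
  · filter_upwards [ae_all_iff.2 hw4] with ζ hζ _
    refine (enorm_sum_conj_le _ _).trans ?_
    calc ‖vec w‖ₑ * ∑ j, ‖g j (z0 + ζ • vec w)‖ₑ
        ≤ ‖vec w‖ₑ * ∑ _j : Fin (d + 1), V (z0 + ζ • vec w) * ‖u (z0 + ζ • vec w)‖ₑ := by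
          gcongr with j _
          exact hζ j
      _ = _ := by
          rw [Finset.sum_const, Finset.card_univ, Fintype.card_fin, nsmul_eq_mul, hc]
          ring
  · intro b _
    have h1 : ∀ᵐ ζ : ℂ, (‖ζ‖ₑ * (c * V (z0 + ζ • vec w))) ^ r * ‖ζ‖ₑ ^ (-2 : ℝ) =
        c ^ r * (‖ζ‖ₑ ^ (2 * d) * V (z0 + ζ • vec w) ^ r) := by
      filter_upwards [ae_ne_zero] with ζ hζ0
      have hζ0' : ‖ζ‖ₑ ≠ 0 := by simpa using hζ0
      rw [ENNReal.mul_rpow_of_nonneg _ _ hr0.le, ENNReal.mul_rpow_of_nonneg _ _ hr0.le]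
      have h2 : ‖ζ‖ₑ ^ (2 * d) = ‖ζ‖ₑ ^ r * ‖ζ‖ₑ ^ (-2 : ℝ) := by
        rw [← ENNReal.rpow_add _ _ hζ0' enorm_ne_top, ← ENNReal.rpow_natCast]
        congr 1
        rw [hr]
        push_cast
        ring
      rw [h2]
      ring
    have h3 : ∫⁻ ζ in closedBall (0 : ℂ) b, (‖ζ‖ₑ * (c * V (z0 + ζ • vec w))) ^ r *
        ‖ζ‖ₑ ^ (-2 : ℝ) ≤ c ^ r * ∫⁻ ζ : ℂ, ‖ζ‖ₑ ^ (2 * d) * V (z0 + ζ • vec w) ^ r := by
      refine (setLIntegral_le_lintegral _ _).trans ?_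
      rw [lintegral_congr_ae h1, lintegral_const_mul']
      exact ENNReal.rpow_ne_top_of_nonneg hr0.le hctop
    exact ne_top_of_le_ne_top (ENNReal.mul_ne_top
      (ENNReal.rpow_ne_top_of_nonneg hr0.le hctop) hw3) h3

/-- Strong unique continuation on a ball. -/
theorem local_unique [CompleteSpace F] (hd : 0 < d) (z0 : EuclideanSpace ℂ (Fin (d + 1)))
    {R : ℝ} (hR : 0 < R) {u : EuclideanSpace ℂ (Fin (d + 1)) → F}
    {g : Fin (d + 1) → EuclideanSpace ℂ (Fin (d + 1)) → F}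
    {V : EuclideanSpace ℂ (Fin (d + 1)) → ℝ≥0∞}
    (hu : IntegrableOn u (ball z0 R)) (hg : ∀ j, IntegrableOn (g j) (ball z0 R))
    (hV : AEMeasurable V (volume.restrict (ball z0 R)))
    (hweak : ∀ φ : EuclideanSpace ℂ (Fin (d + 1)) → ℂ,
      ContDiff ℝ ((⊤ : ℕ∞) : WithTop ℕ∞) φ → HasCompactSupport φ →
      tsupport φ ⊆ ball z0 R → ∀ j : Fin (d + 1),
        ∫ z, dbar φ z (EuclideanSpace.single j 1) • u z = - ∫ z, φ z • g j z)
    (hgV : ∀ j, ∀ᵐ z ∂(volume.restrict (ball z0 R)), ‖g j z‖ₑ ≤ V z * ‖u z‖ₑ)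
    {q r : ℝ} (hr : r = 2 * d + 2) (hqr : q.HolderConjugate r)
    (hVfin : ∫⁻ z in ball z0 R, V z ^ r ≠ ∞)
    (hvan : ∀ N : ℕ, ∫⁻ z in ball z0 R, (‖z - z0‖ₑ ^ (-(N : ℝ)) * ‖u z‖ₑ) ^ q ≠ ∞) :
    ∀ᵐ z ∂(volume.restrict (ball z0 R)), u z = 0 := by
  have hq0 : 0 < q := hqr.pos
  have hr0 : 0 < r := hqr.symm.pos
  -- representatives
  set u' : EuclideanSpace ℂ (Fin (d + 1)) → F := (ball z0 R).indicator (hu.1.mk u) with hu'
  set g' : Fin (d + 1) → EuclideanSpace ℂ (Fin (d + 1)) → F := fun j =>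
    (ball z0 R).indicator ((hg j).1.mk (g j)) with hg'
  set V' : EuclideanSpace ℂ (Fin (d + 1)) → ℝ≥0∞ := (ball z0 R).indicator (hV.mk V) with hV'
  have hu'm : StronglyMeasurable u' := hu.1.stronglyMeasurable_mk.indicator measurableSet_ball
  have hg'm : ∀ j, StronglyMeasurable (g' j) := fun j =>
    (hg j).1.stronglyMeasurable_mk.indicator measurableSet_ball
  have hV'm : Measurable V' := hV.measurable_mk.indicator measurableSet_ball
  have hueq : ∀ᵐ z ∂(volume.restrict (ball z0 R)), u z = u' z := by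
    filter_upwards [hu.1.ae_eq_mk, ae_restrict_mem measurableSet_ball] with z hz hzb
    rw [hu', indicator_of_mem hzb, hz]
  have hgeq : ∀ j, ∀ᵐ z ∂(volume.restrict (ball z0 R)), g j z = g' j z := by
    intro j
    filter_upwards [(hg j).1.ae_eq_mk, ae_restrict_mem measurableSet_ball] with z hz hzb
    simp only [hg']
    rw [indicator_of_mem hzb, hz]
  have hVeq : ∀ᵐ z ∂(volume.restrict (ball z0 R)), V z = V' z := by
    filter_upwards [hV.ae_eq_mk, ae_restrict_mem measurableSet_ball] with z hz hzb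
    rw [hV', indicator_of_mem hzb, hz]
  -- radii
  set ρ : ℕ → ℝ := fun j => R - R * (1 / ((j : ℝ) + 2)) with hρdef
  have hρlim : Tendsto ρ atTop (𝓝 R) := by
    have h1 : Tendsto (fun j : ℕ => 1 / ((j : ℝ) + 2)) atTop (𝓝 0) := by
      have h2 : Tendsto (fun j : ℕ => 1 / (((j + 1 : ℕ) : ℝ) + 1)) atTop (𝓝 0) :=
        (tendsto_add_atTop_iff_nat (f := fun j : ℕ => 1 / ((j : ℝ) + 1)) 1).2
          tendsto_one_div_add_atTop_nhds_zero_nat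
      refine h2.congr fun j => ?_
      push_cast
      ring
    have h2 := (tendsto_const_nhds (x := R)).sub (h1.const_mul R)
    rwa [mul_zero, sub_zero] at h2
  have hρR : ∀ j, ρ j < R := fun j => by
    have : 0 < R * (1 / ((j : ℝ) + 2)) := by positivity
    simp only [hρdef]
    linarith
  have hρ0 : ∀ j, 0 < ρ j := fun j => by
    have h1 : 1 / ((j : ℝ) + 2) < 1 := by
      rw [div_lt_one (by positivity)]
      have : (0 : ℝ) ≤ j := j.cast_nonneg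
      linarith
    have h2 : R * (1 / ((j : ℝ) + 2)) < R * 1 := by gcongr
    simp only [hρdef]
    linarith
  -- approximants
  choose U hU hU1 hU2 using fun j : ℕ => exists_smooth_approx volume
    (fun i : Fin (d + 1) => EuclideanSpace.single i (1 : ℂ)) z0 (hρ0 j) (hρR j) u g hu hg hweak
    (ε := (2⁻¹ : ℝ≥0∞) ^ j) (by apply ENNReal.pow_pos; simp)
  have hsub : ∀ j, ball z0 (ρ j) ⊆ ball z0 R := fun j => ball_subset_ball (hρR j).le
  have hErr : ∀ j, ∫⁻ z, errF z0 (ρ j) (U j) u' g' z ≤ (2⁻¹) ^ j * (d + 2 : ℕ) := by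
    intro j
    rw [errF, lintegral_indicator measurableSet_ball]
    have h1 : ∀ᵐ z ∂(volume.restrict (ball z0 (ρ j))), ‖U j z - u' z‖ₑ +
        ∑ i, ‖dbar (U j) z (EuclideanSpace.single i 1) - g' i z‖ₑ = ‖U j z - u z‖ₑ +
        ∑ i, ‖dbar (U j) z (EuclideanSpace.single i 1) - g i z‖ₑ := by
      filter_upwards [ae_restrict_of_ae_restrict_of_subset (hsub j) hueq,
        ae_restrict_of_ae_restrict_of_subset (hsub j) (ae_all_iff.2 hgeq)] with z h2 h3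
      rw [h2]
      congr 1
      apply Finset.sum_congr rfl
      intro i _
      rw [h3 i]
    rw [lintegral_congr_ae h1]
    have hm1 : AEMeasurable (fun z => ‖U j z - u z‖ₑ) (volume.restrict (ball z0 (ρ j))) :=
      ((hU j).continuous.aestronglyMeasurable.sub (hu.1.mono_set (hsub j))).enorm
    rw [lintegral_add_left' hm1, lintegral_finsetSum']
    · calc (∫⁻ z in ball z0 (ρ j), ‖U j z - u z‖ₑ) +
            ∑ i, ∫⁻ z in ball z0 (ρ j), ‖dbar (U j) z (EuclideanSpace.single i 1) - g i z‖ₑ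
          ≤ (2⁻¹) ^ j + ∑ _i : Fin (d + 1), (2⁻¹) ^ j := by
            gcongr with i _
            · exact hU1 j
            · exact hU2 j i
        _ = _ := by
            rw [Finset.sum_const, Finset.card_univ, Fintype.card_fin, nsmul_eq_mul]
            push_cast
            ring
    · intro i _
      exact ((continuous_dbar (hU j) _).aestronglyMeasurable.sub
        ((hg i).1.mono_set (hsub j))).enorm
  have hH1 : ∫⁻ z, ∑' j, errF z0 (ρ j) (U j) u' g' z ≠ ∞ := by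
    rw [lintegral_tsum fun j => (measurable_errF (hU j) hu'm hg'm).aemeasurable]
    refine ne_top_of_le_ne_top ?_ (ENNReal.tsum_le_tsum hErr)
    rw [ENNReal.tsum_mul_right, ENNReal.tsum_geometric]
    apply ENNReal.mul_ne_top
    · simp
    · simp
  have hH1m : Measurable fun z => ∑' j, errF z0 (ρ j) (U j) u' g' z :=
    Measurable.tsum fun j => measurable_errF (hU j) hu'm hg'm
  have hw1 := lines_ne_top volume z0 hH1m hH1
  -- weights
  have hH2m : ∀ N : ℕ, Measurable fun z => (‖z - z0‖ₑ ^ (-(N : ℝ)) * ‖u' z‖ₑ) ^ q := by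
    intro N
    exact (Measurable.mul (by fun_prop) hu'm.enorm).pow_const q
  have hH2 : ∀ N : ℕ, ∫⁻ z, (‖z - z0‖ₑ ^ (-(N : ℝ)) * ‖u' z‖ₑ) ^ q ≠ ∞ := by
    intro N
    have h1 : ∀ z, (‖z - z0‖ₑ ^ (-(N : ℝ)) * ‖u' z‖ₑ) ^ q =
        (ball z0 R).indicator (fun z => (‖z - z0‖ₑ ^ (-(N : ℝ)) * ‖u' z‖ₑ) ^ q) z := by
      intro z
      by_cases hz : z ∈ ball z0 R
      · rw [indicator_of_mem hz]
      · rw [indicator_of_notMem hz, hu', indicator_of_notMem hz]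
        simp [hq0]
    rw [lintegral_congr h1, lintegral_indicator measurableSet_ball]
    have h2 : ∀ᵐ z ∂(volume.restrict (ball z0 R)), (‖z - z0‖ₑ ^ (-(N : ℝ)) * ‖u' z‖ₑ) ^ q =
        (‖z - z0‖ₑ ^ (-(N : ℝ)) * ‖u z‖ₑ) ^ q := by
      filter_upwards [hueq] with z hz
      rw [hz]
    rw [lintegral_congr_ae h2]
    exact hvan N
  have hw2 : ∀ᵐ w : Fin d → ℂ, ∀ N : ℕ, ∫⁻ ζ : ℂ, ‖ζ‖ₑ ^ (2 * d) *
      (‖(z0 + ζ • vec w) - z0‖ₑ ^ (-(N : ℝ)) * ‖u' (z0 + ζ • vec w)‖ₑ) ^ q ≠ ∞ :=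
    ae_all_iff.2 fun N => lines_ne_top volume z0 (hH2m N) (hH2 N)
  -- potential
  have hH3 : ∫⁻ z, V' z ^ r ≠ ∞ := by
    have h1 : ∀ z, V' z ^ r = (ball z0 R).indicator (fun z => V' z ^ r) z := by
      intro z
      by_cases hz : z ∈ ball z0 R
      · rw [indicator_of_mem hz]
      · rw [indicator_of_notMem hz, hV', indicator_of_notMem hz, ENNReal.zero_rpow_of_pos hr0]
    rw [lintegral_congr h1, lintegral_indicator measurableSet_ball]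
    have h2 : ∀ᵐ z ∂(volume.restrict (ball z0 R)), V' z ^ r = V z ^ r := by
      filter_upwards [hVeq] with z hz
      rw [hz]
    rw [lintegral_congr_ae h2]
    exact hVfin
  have hw3 := lines_ne_top volume z0 (hV'm.pow_const r) hH3
  -- the inequality
  have hH4 : ∀ j, ∀ᵐ z, ‖g' j z‖ₑ ≤ V' z * ‖u' z‖ₑ := by
    intro j
    have h1 := (ae_restrict_iff' measurableSet_ball).1
      ((hgV j).and ((hueq.and (hgeq j)).and hVeq))
    filter_upwards [h1] with z hz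
    by_cases hzb : z ∈ ball z0 R
    · obtain ⟨h2, ⟨h3, h4⟩, h5⟩ := hz hzb
      rw [← h3, ← h4, ← h5]
      exact h2
    · simp only [hg']
      rw [indicator_of_notMem hzb]
      simp
  have hw4 : ∀ᵐ w : Fin d → ℂ, ∀ j, ∀ᵐ ζ : ℂ, ‖g' j (z0 + ζ • vec w)‖ₑ ≤
      V' (z0 + ζ • vec w) * ‖u' (z0 + ζ • vec w)‖ₑ :=
    ae_all_iff.2 fun j => ae_lines volume z0 (hH4 j)
  -- conclusion on slices
  have hslice : ∀ᵐ w : Fin d → ℂ, ∀ᵐ ζ : ℂ, ‖u' (z0 + ζ • vec w)‖ₑ = 0 := by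
    filter_upwards [hw1, hw2, hw3, hw4] with w h1 h2 h3 h4
    have h5 := slice_zero hd hu'm hg'm hV'm hρlim hU hr hqr h1 h2 h3 h4
    filter_upwards [h5] with ζ hζ
    by_cases hb : ‖ζ‖ < R / ‖vec w‖
    · rw [hζ hb, enorm_zero]
    · have h6 : z0 + ζ • vec w ∉ ball z0 R := by rwa [mem_ball_line]
      rw [hu', indicator_of_notMem h6, enorm_zero]
  have hfin := ae_of_lines volume z0 (P := fun z => ‖u' z‖ₑ = 0)
    (hu'm.enorm (measurableSet_singleton 0)) hslice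
  filter_upwards [hueq, ae_restrict_of_ae hfin] with z h1 h2
  rw [h1]
  simpa using h2

end

end Pool.Agent.DbarSUC
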