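import Mathlib

/-!
Integrability of singular weights against functions vanishing to infinite order at a point.
-/

namespace Pool.Agent.DbarSUC

open MeasureTheory Set Filter Topology Metric
open scoped ENNReal

theorem weight_ne_top {E : Type*} [NormedAddCommGroup E] [MeasurableSpace E] [BorelSpace E]
    {μ : Measure E} {z0 : E} {φ : E → ℝ≥0∞} {R : ℝ} (hR : 0 < R)
    (hφ : AEMeasurable φ (μ.restrict (ball z0 R))) (hfin : ∫⁻ z in ball z0 R, φ z ∂μ ≠ ∞)
    (h0 : ∀ᵐ z ∂μ, z ≠ z0)
    (h : ∀ N : ℕ, ∃ C : ℝ≥0∞, C ≠ ∞ ∧ ∃ ρ0 > 0, ∀ ρ : ℝ, 0 < ρ → ρ ≤ ρ0 →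
      ∫⁻ z in ball z0 ρ, φ z ∂μ ≤ C * ENNReal.ofReal ρ ^ N) {a : ℝ} (ha : 0 ≤ a) :
    ∫⁻ z in ball z0 R, ‖z - z0‖ₑ ^ (-a) * φ z ∂μ ≠ ∞ := by
  obtain ⟨M, hM⟩ := exists_nat_ge (a + 1)
  obtain ⟨C, hC, ρ0, hρ0, hCρ⟩ := h M
  set ρ1 : ℝ := min ρ0 (min R 1) with hρ1
  have hρ1pos : 0 < ρ1 := lt_min hρ0 (lt_min hR one_pos)
  have hρ10 : ρ1 ≤ ρ0 := min_le_left _ _
  have hρ1R : ρ1 ≤ R := (min_le_right _ _).trans (min_le_left _ _)
  have hρ11 : ρ1 ≤ 1 := (min_le_right _ _).trans (min_le_right _ _)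
  set b : ℕ → ℝ := fun k => ρ1 * (1 / 2) ^ k with hb
  have hbpos : ∀ k, 0 < b k := fun k => by simp only [hb]; positivity
  have hb1 : ∀ k, b k ≤ ρ1 := fun k => by
    have : ((1 : ℝ) / 2) ^ k ≤ 1 := pow_le_one₀ (by norm_num) (by norm_num)
    calc b k = ρ1 * (1 / 2) ^ k := rfl
      _ ≤ ρ1 * 1 := by gcongr
      _ = ρ1 := mul_one _
  have hofb : ∀ k, ENNReal.ofReal (b k) ≠ 0 := fun k => by
    rw [ne_eq, ENNReal.ofReal_eq_zero, not_le]
    exact hbpos k
  set W : E → ℝ≥0∞ := fun z => ENNReal.ofReal (ρ1 / 2) ^ (-a) * φ z +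
    ∑' k, (ball z0 (b k)).indicator (fun z => ENNReal.ofReal (b k / 4) ^ (-a) * φ z) z with hW
  have hanti : ∀ x y : ℝ≥0∞, x ≤ y → y ^ (-a) ≤ x ^ (-a) := by
    intro x y hxy
    rw [ENNReal.rpow_neg, ENNReal.rpow_neg]
    exact ENNReal.inv_le_inv.2 (ENNReal.rpow_le_rpow hxy ha)
  have hle : ∀ᵐ z ∂(μ.restrict (ball z0 R)), ‖z - z0‖ₑ ^ (-a) * φ z ≤ W z := by
    filter_upwards [ae_restrict_of_ae h0] with z hz
    have hpos : 0 < ‖z - z0‖ := norm_pos_iff.2 (sub_ne_zero.2 hz)
    rcases lt_or_ge (ρ1 / 2) ‖z - z0‖ with h1 | h1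
    · refine le_trans ?_ le_self_add
      refine mul_le_mul' (hanti _ _ ?_) le_rfl
      rw [← ofReal_norm]
      exact ENNReal.ofReal_le_ofReal h1.le
    · refine le_trans ?_ le_add_self
      obtain ⟨k, hk1, hk2⟩ := exists_nat_pow_near_of_lt_one
        (x := ‖z - z0‖ / (ρ1 / 2)) (y := (1 / 2 : ℝ)) (by positivity)
        (by rw [div_le_one (by positivity)]; exact h1) (by norm_num) (by norm_num)
      rw [lt_div_iff₀ (by positivity)] at hk1
      rw [div_le_iff₀ (by positivity)] at hk2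
      have h2 : z ∈ ball z0 (b k) := by
        rw [mem_ball, dist_eq_norm]
        refine lt_of_le_of_lt hk2 ?_
        simp only [hb]
        have : 0 < ρ1 * (1 / 2) ^ k := hbpos k
        nlinarith
      refine le_trans ?_ (ENNReal.le_tsum k)
      rw [indicator_of_mem h2]
      refine mul_le_mul' (hanti _ _ ?_) le_rfl
      rw [← ofReal_norm]
      apply ENNReal.ofReal_le_ofReal
      simp only [hb]
      rw [pow_succ] at hk1
      linarith
  refine ne_top_of_le_ne_top ?_ (lintegral_mono_ae hle)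
  have hsubR : ∀ k, ball z0 (b k) ⊆ ball z0 R := fun k =>
    ball_subset_ball ((hb1 k).trans hρ1R)
  simp only [hW]
  rw [lintegral_add_left' (hφ.const_mul _), lintegral_const_mul'' _ hφ, lintegral_tsum]
  · apply ENNReal.add_ne_top.2 ⟨?_, ?_⟩
    · apply ENNReal.mul_ne_top _ hfin
      apply ENNReal.rpow_ne_top_of_ne_zero _ ENNReal.ofReal_ne_top
      rw [ne_eq, ENNReal.ofReal_eq_zero, not_le]
      positivity
    · have hterm : ∀ k, ∫⁻ z in ball z0 R, (ball z0 (b k)).indicator
          (fun z => ENNReal.ofReal (b k / 4) ^ (-a) * φ z) z ∂μ ≤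
          (ENNReal.ofReal (1 / 4) ^ (-a) * C) * (2⁻¹) ^ k := by
        intro k
        rw [lintegral_indicator measurableSet_ball, Measure.restrict_restrict measurableSet_ball,
          inter_eq_self_of_subset_left (hsubR k),
          lintegral_const_mul'' _ (hφ.mono_measure (Measure.restrict_mono (hsubR k) le_rfl))]
        have h1 : ENNReal.ofReal (b k / 4) ^ (-a) =
            ENNReal.ofReal (1 / 4) ^ (-a) * ENNReal.ofReal (b k) ^ (-a) := by
          rw [← ENNReal.mul_rpow_of_ne_top ENNReal.ofReal_ne_top ENNReal.ofReal_ne_top,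
            ← ENNReal.ofReal_mul (by norm_num)]
          congr 2
          ring
        have h2 : ENNReal.ofReal (b k) ^ (-a) * ENNReal.ofReal (b k) ^ M ≤ (2⁻¹) ^ k := by
          rw [← ENNReal.rpow_natCast, ← ENNReal.rpow_add _ _ (hofb k) ENNReal.ofReal_ne_top]
          calc ENNReal.ofReal (b k) ^ (-a + M) ≤ ENNReal.ofReal (b k) ^ (1 : ℝ) := by
                apply ENNReal.rpow_le_rpow_of_exponent_ge
                · rw [← ENNReal.ofReal_one]
                  exact ENNReal.ofReal_le_ofReal ((hb1 k).trans hρ11)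
                · linarith
            _ = ENNReal.ofReal (b k) := ENNReal.rpow_one _
            _ ≤ ENNReal.ofReal ((1 / 2) ^ k) := by
                apply ENNReal.ofReal_le_ofReal
                simp only [hb]
                have : (0 : ℝ) < (1 / 2) ^ k := by positivity
                nlinarith
            _ = _ := by
                rw [ENNReal.ofReal_pow (by norm_num), one_div,
                  ENNReal.ofReal_inv_of_pos (by norm_num)]
                simp
        calc ENNReal.ofReal (b k / 4) ^ (-a) * ∫⁻ z in ball z0 (b k), φ z ∂μ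
            ≤ ENNReal.ofReal (b k / 4) ^ (-a) * (C * ENNReal.ofReal (b k) ^ M) := by
              gcongr
              exact hCρ (b k) (hbpos k) ((hb1 k).trans hρ10)
          _ = (ENNReal.ofReal (1 / 4) ^ (-a) * C) *
              (ENNReal.ofReal (b k) ^ (-a) * ENNReal.ofReal (b k) ^ M) := by
              rw [h1]
              ring
          _ ≤ _ := by gcongr
      refine ne_top_of_le_ne_top ?_ (ENNReal.tsum_le_tsum hterm)
      rw [ENNReal.tsum_mul_left, ENNReal.tsum_geometric]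
      apply ENNReal.mul_ne_top
      · apply ENNReal.mul_ne_top _ hC
        apply ENNReal.rpow_ne_top_of_ne_zero _ ENNReal.ofReal_ne_top
        simp
      · simp
  · intro k
    exact (hφ.const_mul _).indicator measurableSet_ball

end Pool.Agent.DbarSUC
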