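import Pool.Agent.DbarSUC.Defs
import Pool.Agent.DbarSUC.Local
import Pool.Agent.DbarSUC.Vanish
import Pool.Agent.DbarSUC.Connected

namespace Pool.Agent.DbarSUC

open MeasureTheory Set Filter Topology Complex Metric
open scoped ENNReal

theorem wirtinger_eq {n : ℕ} (j : Fin n) (φ : CC n → ℂ) (z : CC n) :
    wirtinger j φ z = dbar φ z (EuclideanSpace.single j 1) := by
  have h1 : (EuclideanSpace.single j I : CC n) = I • EuclideanSpace.single j (1 : ℂ) := by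
    ext i
    by_cases h : i = j <;> simp [h]
  rw [wirtinger, dbar, h1, smul_eq_mul, smul_eq_mul]

theorem dbarNorm_eq {n m : ℕ} (g : Fin n → CC n → CC m) (z : CC n) :
    dbarNorm g z = √(∑ j, ‖g j z‖ ^ 2) := by
  unfold dbarNorm
  congr 1
  apply Finset.sum_congr rfl
  intro j _
  rw [EuclideanSpace.norm_sq_eq]

theorem norm_le_dbarNorm {n m : ℕ} (g : Fin n → CC n → CC m) (z : CC n) (j : Fin n) :
    ‖g j z‖ ≤ dbarNorm g z := by
  rw [dbarNorm_eq]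
  apply Real.le_sqrt_of_sq_le
  exact Finset.single_le_sum (f := fun j => ‖g j z‖ ^ 2) (fun _ _ => by positivity)
    (Finset.mem_univ j)

theorem MemLpLoc.memLp_ball {n : ℕ} {G : Type*} [NormedAddCommGroup G] {s : ℝ}
    {Ω : Set (CC n)} {f : CC n → G} (hf : MemLpLoc s Ω f) {z : CC n} {R : ℝ}
    (h : closedBall z R ⊆ Ω) : MemLp f (ENNReal.ofReal s) (volume.restrict (ball z R)) :=
  (hf _ (isCompact_closedBall z R) h).mono_measure
    (Measure.restrict_mono ball_subset_closedBall le_rfl)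

/-- The strong unique continuation property in the form used for the propagation. -/
theorem suc_main {d m : ℕ} (hd : 0 < d) {Ω : Set (CC (d + 1))} (hΩ : IsOpen Ω)
    (hc : IsPreconnected Ω) {u : CC (d + 1) → CC m} {g : Fin (d + 1) → CC (d + 1) → CC m}
    {V : CC (d + 1) → ℝ} {q r : ℝ} (hr : r = 2 * d + 2) (hqr : q.HolderConjugate r)
    (hu : MemLpLoc q Ω u) (hg : IsWeakDbar Ω u g) (hV : MemLpLoc r Ω V)
    (hineq : ∀ᵐ z ∂(volume.restrict Ω), dbarNorm g z ≤ V z * ‖u z‖)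
    (h0 : ∃ z0 ∈ Ω, ∀ N : ℕ, ∃ C : ℝ≥0∞, C ≠ ∞ ∧ ∃ ρ0 > 0, ∀ ρ : ℝ, 0 < ρ → ρ ≤ ρ0 →
      ∫⁻ z in ball z0 ρ, ‖u z‖ₑ ^ q ≤ C * ENNReal.ofReal ρ ^ N) :
    ∀ᵐ z ∂(volume.restrict Ω), u z = 0 := by
  have hq0 : 0 < q := hqr.pos
  have hq1 : 1 ≤ q := hqr.lt.le
  have hr0 : 0 < r := hqr.symm.pos
  apply ae_zero_of_local hΩ hc (Van := fun z0 => ∀ N : ℕ, ∃ C : ℝ≥0∞, C ≠ ∞ ∧ ∃ ρ0 > 0,
    ∀ ρ : ℝ, 0 < ρ → ρ ≤ ρ0 → ∫⁻ z in ball z0 ρ, ‖u z‖ₑ ^ q ≤ C * ENNReal.ofReal ρ ^ N)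
    ?_ ?_ h0
  · intro z1 _ R hR hsub hvan
    have hsub' : ball z1 R ⊆ Ω := ball_subset_closedBall.trans hsub
    have huq := hu.memLp_ball hsub
    have hfinm : IsFiniteMeasure ((volume : Measure (CC (d + 1))).restrict (ball z1 R)) :=
      ⟨by rw [Measure.restrict_apply_univ]; exact measure_ball_lt_top⟩
    have hui : IntegrableOn u (ball z1 R) := huq.integrable (by
      rw [← ENNReal.ofReal_one]
      exact ENNReal.ofReal_le_ofReal hq1)
    have hgi : ∀ j, IntegrableOn (g j) (ball z1 R) := fun j =>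
      ((hg j).1.memLp_ball hsub).integrable (by simp)
    have hVr := hV.memLp_ball hsub
    have hofq : (ENNReal.ofReal q).toReal = q := ENNReal.toReal_ofReal hq0.le
    have hofr : (ENNReal.ofReal r).toReal = r := ENNReal.toReal_ofReal hr0.le
    have huqfin : ∫⁻ z in ball z1 R, ‖u z‖ₑ ^ q ≠ ∞ := by
      have := lintegral_rpow_enorm_lt_top_of_eLpNorm_lt_top
        (by rw [ne_eq, ENNReal.ofReal_eq_zero, not_le]; exact hq0) ENNReal.ofReal_ne_top huq.2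
      rw [hofq] at this
      exact this.ne
    have hVrfin : ∫⁻ z in ball z1 R, ‖V z‖ₑ ^ r ≠ ∞ := by
      have := lintegral_rpow_enorm_lt_top_of_eLpNorm_lt_top
        (by rw [ne_eq, ENNReal.ofReal_eq_zero, not_le]; exact hr0) ENNReal.ofReal_ne_top hVr.2
      rw [hofr] at this
      exact this.ne
    apply local_unique hd z1 hR (V := fun z => ‖V z‖ₑ) hui hgi hVr.1.enorm ?_ ?_ hr hqr hVrfin ?_
    · intro φ hφ hφc hφs j
      have h1 := (hg j).2 φ hφ hφc (hφs.trans hsub')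
      simpa only [wirtinger_eq] using h1
    · intro j
      filter_upwards [ae_restrict_of_ae_restrict_of_subset hsub' hineq] with z hz
      have h1 : ‖g j z‖ ≤ ‖V z‖ * ‖u z‖ := by
        calc ‖g j z‖ ≤ dbarNorm g z := norm_le_dbarNorm g z j
          _ ≤ V z * ‖u z‖ := hz
          _ ≤ ‖V z‖ * ‖u z‖ := by
            gcongr
            exact Real.le_norm_self _
      rw [← ofReal_norm, ← ofReal_norm, ← ofReal_norm, ← ENNReal.ofReal_mul (norm_nonneg _)]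
      exact ENNReal.ofReal_le_ofReal h1
    · intro N
      have h1 : ∀ z, (‖z - z1‖ₑ ^ (-(N : ℝ)) * ‖u z‖ₑ) ^ q =
          ‖z - z1‖ₑ ^ (-(N * q : ℝ)) * ‖u z‖ₑ ^ q := by
        intro z
        rw [ENNReal.mul_rpow_of_nonneg _ _ hq0.le, ← ENNReal.rpow_mul, neg_mul]
      simp only [h1]
      apply weight_ne_top hR (hui.1.enorm.pow_const q) huqfin _ hvan (by positivity)
      rw [ae_iff]
      simp
  · rintro z1 _ ⟨r1, hr1, hz1⟩ N
    refine ⟨0, by simp, r1, hr1, fun ρ _ hρ2 => ?_⟩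
    rw [zero_mul]
    have h1 : ∀ᵐ z ∂(volume.restrict (ball z1 ρ)), ‖u z‖ₑ ^ q = 0 := by
      filter_upwards [ae_restrict_of_ae_restrict_of_subset (ball_subset_ball hρ2) hz1] with z hz
      rw [hz, enorm_zero, ENNReal.zero_rpow_of_pos hq0]
    rw [lintegral_congr_ae h1, lintegral_zero]

theorem holder_exponents {d : ℕ} (hd : 0 < d) :
    Real.HolderConjugate ((2 * d + 2 : ℝ) / (2 * d + 1)) (2 * d + 2) := by
  have hd' : (1 : ℝ) ≤ d := by exact_mod_cast hd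
  rw [Real.holderConjugate_iff]
  constructor
  · rw [lt_div_iff₀ (by positivity)]
    linarith
  · field_simp
    ring

theorem strong_ucp (n m : ℕ) (hn : 2 ≤ n) (Ω : Set (CC n)) (hΩ : IsOpen Ω)
    (hc : IsConnected Ω) (u : CC n → CC m) (g : Fin n → CC n → CC m) (V : CC n → ℝ)
    (hu : MemW1Loc (4 * n / (2 * n + 1)) Ω u) (hg : IsWeakDbar Ω u g)
    (hV : MemLpLoc (2 * n) Ω V)
    (hineq : ∀ᵐ z ∂(volume.restrict Ω), dbarNorm g z ≤ V z * ‖u z‖)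
    (z₀ : CC n) (hz₀ : z₀ ∈ Ω) (hvan : VanishesToInfiniteOrder (4 * n / (2 * n - 1)) u z₀) :
    ∀ᵐ z ∂(volume.restrict Ω), u z = 0 := by
  obtain ⟨d, rfl⟩ : ∃ d, n = d + 1 := ⟨n - 1, by omega⟩
  have hd : 0 < d := by omega
  have hd' : (1 : ℝ) ≤ d := by exact_mod_cast hd
  set q : ℝ := (2 * d + 2 : ℝ) / (2 * d + 1) with hq
  have hqr : q.HolderConjugate (2 * d + 2) := holder_exponents hd
  have hq0 : 0 < q := hqr.pos
  have hq1 : 1 ≤ q := hqr.lt.le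
  have hr : (2 * ((d + 1 : ℕ) : ℝ)) = 2 * d + 2 := by push_cast; ring
  rw [hr] at hV
  have hp' : (4 * ((d + 1 : ℕ) : ℝ)) / (2 * ((d + 1 : ℕ) : ℝ) - 1) = q * 2 := by
    rw [hq]
    push_cast
    have h1 : (2 * (d + 1 : ℝ) - 1) = 2 * d + 1 := by ring
    rw [h1]
    ring
  rw [hp'] at hvan
  have hpq : q ≤ (4 * ((d + 1 : ℕ) : ℝ)) / (2 * ((d + 1 : ℕ) : ℝ) + 1) := by
    rw [hq]
    push_cast
    rw [div_le_div_iff₀ (by positivity) (by positivity)]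
    nlinarith
  have huq : MemLpLoc q Ω u := by
    intro K hK hKΩ
    have hfinm : IsFiniteMeasure ((volume : Measure (CC (d + 1))).restrict K) :=
      ⟨by rw [Measure.restrict_apply_univ]; exact hK.measure_lt_top⟩
    exact (hu.1 K hK hKΩ).mono_exponent (ENNReal.ofReal_le_ofReal hpq)
  apply suc_main hd hΩ hc.isPreconnected rfl hqr huq hg hV hineq
  refine ⟨z₀, hz₀, fun N => ?_⟩
  obtain ⟨R, hR, hRΩ⟩ := Metric.nhds_basis_closedBall.mem_iff.1 (hΩ.mem_nhds hz₀)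
  have h1 := hvan (2 * N)
  have h2 : ∀ᶠ r : ℝ in 𝓝[>] 0,
      (∫⁻ z in ball z₀ r, ‖u z‖ₑ ^ (q * 2)) / ENNReal.ofReal r ^ (2 * N) < 1 :=
    h1.eventually_lt_const (by simp)
  obtain ⟨δ, hδ, hδ'⟩ := mem_nhdsGT_iff_exists_Ioo_subset.1 h2
  have hδ0 : 0 < δ := hδ
  set ρ0 : ℝ := min (δ / 2) R with hρ0
  have hρ0pos : 0 < ρ0 := lt_min (by positivity) hR
  refine ⟨volume (ball z₀ R) ^ (1 / 2 : ℝ), ENNReal.rpow_ne_top_of_nonneg (by norm_num)
    measure_ball_lt_top.ne, ρ0, hρ0pos, fun ρ hρ1 hρ2 => ?_⟩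
  have hρδ : ρ ∈ Ioo 0 δ := ⟨hρ1, by
    have := hρ2.trans (min_le_left _ _)
    linarith⟩
  have hρR : ρ ≤ R := hρ2.trans (min_le_right _ _)
  have h3 : (∫⁻ z in ball z₀ ρ, ‖u z‖ₑ ^ (q * 2)) / ENNReal.ofReal ρ ^ (2 * N) < 1 := hδ' hρδ
  have hofρ : ENNReal.ofReal ρ ≠ 0 := by
    rw [ne_eq, ENNReal.ofReal_eq_zero, not_le]
    exact hρ1
  have h4 : ∫⁻ z in ball z₀ ρ, ‖u z‖ₑ ^ (q * 2) ≤ ENNReal.ofReal ρ ^ (2 * N) := by
    have h5 := ENNReal.div_le_iff_le_mul (b := ENNReal.ofReal ρ ^ (2 * N))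
      (Or.inl (pow_ne_zero _ hofρ)) (Or.inl (ENNReal.pow_ne_top ENNReal.ofReal_ne_top)) |>.1 h3.le
    rwa [one_mul] at h5
  have hmeas : AEMeasurable (fun z => ‖u z‖ₑ ^ q) (volume.restrict (ball z₀ ρ)) :=
    ((huq.memLp_ball ((closedBall_subset_closedBall hρR).trans hRΩ)).1.enorm).pow_const q
  have h6 := ENNReal.lintegral_mul_le_Lp_mul_Lq (volume.restrict (ball z₀ ρ))
    Real.HolderConjugate.two_two hmeas (g := fun _ => 1) aemeasurable_const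
  simp only [Pi.mul_apply, mul_one, ENNReal.one_rpow, lintegral_const, one_mul,
    Measure.restrict_apply_univ] at h6
  refine h6.trans ?_
  have h7 : (∫⁻ z in ball z₀ ρ, (‖u z‖ₑ ^ q) ^ (2 : ℝ)) ^ (1 / 2 : ℝ) ≤
      ENNReal.ofReal ρ ^ N := by
    simp only [← ENNReal.rpow_mul]
    calc (∫⁻ z in ball z₀ ρ, ‖u z‖ₑ ^ (q * 2)) ^ (1 / 2 : ℝ)
        ≤ (ENNReal.ofReal ρ ^ (2 * N)) ^ (1 / 2 : ℝ) := by gcongr
      _ = ENNReal.ofReal ρ ^ N := by
        rw [← ENNReal.rpow_natCast, ← ENNReal.rpow_natCast, ← ENNReal.rpow_mul]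
        congr 1
        push_cast
        ring
  calc (∫⁻ z in ball z₀ ρ, (‖u z‖ₑ ^ q) ^ (2 : ℝ)) ^ (1 / 2 : ℝ) *
        volume (ball z₀ ρ) ^ (1 / 2 : ℝ)
      ≤ ENNReal.ofReal ρ ^ N * volume (ball z₀ R) ^ (1 / 2 : ℝ) := by
        gcongr
    _ = _ := mul_comm _ _

end Pool.Agent.DbarSUC
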