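import Pool.Agent.DbarSUC.Dbar
import Pool.Agent.DbarSUC.Scale

namespace Pool.Agent.DbarSUC

open MeasureTheory Set Filter Topology Complex Metric
open scoped ENNReal

set_option linter.style.haveILetI false

section

theorem enorm_rpow_eq {t : ℂ} (ht : t ≠ 0) (s : ℝ) : ‖t‖ₑ ^ s = ‖‖t‖ ^ s‖ₑ := by
  have h := norm_pos_iff.2 ht
  rw [← ofReal_norm, ENNReal.ofReal_rpow_of_pos h, Real.enorm_eq_ofReal (by positivity)]

theorem rpow_anti {x y : ℝ≥0∞} {z : ℝ} (h : x ≤ y) (hz : z ≤ 0) : y ^ z ≤ x ^ z := by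
  have h1 : ∀ w : ℝ≥0∞, w ^ z = (w ^ (-z))⁻¹ := fun w => by rw [← ENNReal.rpow_neg, neg_neg]
  rw [h1, h1]
  exact ENNReal.inv_le_inv.2 (ENNReal.rpow_le_rpow h (by linarith))

theorem ae_ne_zero : ∀ᵐ t : ℂ, t ≠ 0 := by
  rw [ae_iff]
  simp

theorem lintegral_ball_rpow_lt_top {s : ℝ} (hs : -2 < s) {R : ℝ} (hR : 0 < R) :
    ∫⁻ t in ball (0 : ℂ) R, ‖t‖ₑ ^ s < ∞ := by
  have h1 : IntegrableOn (fun t : ℂ => ‖t‖ ^ s) (ball (0 : ℂ) R) := by
    rw [integrableOn_fun_norm_addHaar (μ := (volume : Measure ℂ)) (f := fun y => y ^ s)]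
    have h2 : IntegrableOn (fun y : ℝ => y ^ (1 + s)) (Ioo 0 R) :=
      (intervalIntegral.integrableOn_Ioo_rpow_iff hR).2 (by linarith)
    refine h2.congr_fun (fun y hy => ?_) measurableSet_Ioo
    simp only [Complex.finrank_real_complex, Nat.add_one_sub_one, pow_one, smul_eq_mul]
    rw [Real.rpow_add hy.1, Real.rpow_one]
  have h3 := h1.2
  rw [hasFiniteIntegral_iff_enorm] at h3
  refine lt_of_le_of_lt (le_of_eq ?_) h3
  apply lintegral_congr_ae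
  filter_upwards [ae_restrict_of_ae ae_ne_zero] with t ht
  exact enorm_rpow_eq ht s

theorem lintegral_compl_ball_rpow_lt_top {s : ℝ} (hs : s < -2) {R : ℝ} (hR : 0 < R) :
    ∫⁻ t in (ball (0 : ℂ) R)ᶜ, ‖t‖ₑ ^ s < ∞ := by
  have h1 : Integrable (fun t : ℂ => (Ici R).indicator (fun y => y ^ s) ‖t‖) := by
    rw [integrable_fun_norm_addHaar (μ := (volume : Measure ℂ))
      (f := (Ici R).indicator (fun y => y ^ s))]
    have h2 : IntegrableOn (fun y : ℝ => y ^ (1 + s)) (Ici R) := by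
      have : IntegrableOn (fun y : ℝ => y ^ (1 + s)) (Ioi R) :=
        (integrableOn_Ioi_rpow_iff hR).2 (by linarith)
      rwa [integrableOn_Ici_iff_integrableOn_Ioi]
    have h3 : IntegrableOn ((Ici R).indicator (fun y : ℝ => y ^ (1 + s))) (Ioi 0) := by
      apply Integrable.integrableOn
      exact (integrable_indicator_iff measurableSet_Ici).2 h2
    refine h3.congr_fun (fun y hy => ?_) measurableSet_Ioi
    simp only [Complex.finrank_real_complex, Nat.add_one_sub_one, pow_one, smul_eq_mul]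
    by_cases hyR : y ∈ Ici R
    · rw [indicator_of_mem hyR, indicator_of_mem hyR, Real.rpow_add hy, Real.rpow_one]
    · rw [indicator_of_notMem hyR, indicator_of_notMem hyR, mul_zero]
  have h3 := h1.2
  rw [hasFiniteIntegral_iff_enorm] at h3
  refine lt_of_le_of_lt (le_of_eq ?_) h3
  rw [← lintegral_indicator measurableSet_ball.compl]
  apply lintegral_congr_ae
  filter_upwards [ae_ne_zero] with t ht
  by_cases h : t ∈ (ball (0 : ℂ) R)ᶜ
  · rw [indicator_of_mem h, indicator_of_mem (by simpa using h)]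
    exact enorm_rpow_eq ht s
  · rw [indicator_of_notMem h, indicator_of_notMem (by simpa using h)]
    simp

/-- The kernel constant. -/
noncomputable def kerConst (q : ℝ) : ℝ≥0∞ :=
  ∫⁻ t : ℂ, (‖t‖ₑ ^ (1 / 2 : ℝ) * ‖t - 1‖ₑ⁻¹) ^ q * ‖t‖ₑ ^ (-2 : ℝ)

theorem kerConst_lt_top {q : ℝ} (hq1 : 1 < q) (hq2 : q < 2) : kerConst q < ∞ := by
  have hq0 : 0 ≤ q := by linarith
  -- the integrand for `t ≠ 0`
  have key : ∀ t : ℂ, t ≠ 0 → (‖t‖ₑ ^ (1 / 2 : ℝ) * ‖t - 1‖ₑ⁻¹) ^ q * ‖t‖ₑ ^ (-2 : ℝ) =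
      ‖t‖ₑ ^ (q / 2 - 2) * (‖t - 1‖ₑ⁻¹) ^ q := by
    intro t ht
    have h0 : ‖t‖ₑ ≠ 0 := by simpa using ht
    rw [ENNReal.mul_rpow_of_nonneg _ _ hq0, ← ENNReal.rpow_mul, mul_right_comm,
      ← ENNReal.rpow_add _ _ h0 enorm_ne_top]
    congr 2
    ring
  set S1 : Set ℂ := ball 1 (1 / 2) with hS1
  set S2 : Set ℂ := ball 0 2 \ ball 1 (1 / 2) with hS2
  set S3 : Set ℂ := (ball 0 2)ᶜ with hS3
  have hcov : (univ : Set ℂ) ⊆ S1 ∪ S2 ∪ S3 := by
    intro t _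
    by_cases h1 : t ∈ S1
    · exact Or.inl (Or.inl h1)
    · by_cases h2 : t ∈ ball (0 : ℂ) 2
      · exact Or.inl (Or.inr ⟨h2, h1⟩)
      · exact Or.inr h2
  have hsplit : kerConst q ≤ (∫⁻ t in S1, ‖t‖ₑ ^ (q / 2 - 2) * (‖t - 1‖ₑ⁻¹) ^ q) +
      (∫⁻ t in S2, ‖t‖ₑ ^ (q / 2 - 2) * (‖t - 1‖ₑ⁻¹) ^ q) +
      (∫⁻ t in S3, ‖t‖ₑ ^ (q / 2 - 2) * (‖t - 1‖ₑ⁻¹) ^ q) := by
    have h1 : kerConst q = ∫⁻ t : ℂ, ‖t‖ₑ ^ (q / 2 - 2) * (‖t - 1‖ₑ⁻¹) ^ q := by
      apply lintegral_congr_ae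
      filter_upwards [ae_ne_zero] with t ht using key t ht
    rw [h1, ← setLIntegral_univ]
    refine (lintegral_mono_set hcov).trans ?_
    refine (lintegral_union_le _ _ _).trans ?_
    gcongr
    exact lintegral_union_le _ _ _
  refine lt_of_le_of_lt hsplit ?_
  refine ENNReal.add_lt_top.2 ⟨ENNReal.add_lt_top.2 ⟨?_, ?_⟩, ?_⟩
  · -- near 1
    have h1 : ∫⁻ t in S1, ‖t‖ₑ ^ (q / 2 - 2) * (‖t - 1‖ₑ⁻¹) ^ q ≤
        ∫⁻ t in S1, (ENNReal.ofReal (1 / 2)) ^ (q / 2 - 2) * ‖t - 1‖ₑ ^ (-q) := by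
      apply setLIntegral_mono_ae' measurableSet_ball
      filter_upwards with t ht
      rw [ENNReal.inv_rpow, ← ENNReal.rpow_neg]
      gcongr ?_ * _
      refine rpow_anti ?_ (by linarith)
      rw [← ofReal_norm]
      apply ENNReal.ofReal_le_ofReal
      have h2 : ‖t - 1‖ < 1 / 2 := by simpa [S1, dist_eq_norm] using ht
      have h3 : ‖(1 : ℂ)‖ ≤ ‖t‖ + ‖t - 1‖ := by
        have := norm_sub_le t (t - 1)
        simpa using this
      rw [norm_one] at h3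
      linarith
    refine lt_of_le_of_lt h1 ?_
    rw [lintegral_const_mul _ (by fun_prop)]
    apply ENNReal.mul_lt_top
    · exact (ENNReal.rpow_ne_top_of_ne_zero (by simp) ENNReal.ofReal_ne_top).lt_top
    · have h2 : ∫⁻ t in S1, ‖t - 1‖ₑ ^ (-q) = ∫⁻ t in ball (0 : ℂ) (1 / 2), ‖t‖ₑ ^ (-q) := by
        rw [← lintegral_indicator measurableSet_ball, ← lintegral_indicator measurableSet_ball]
        have h3 := lintegral_sub_right_eq_self (μ := (volume : Measure ℂ))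
          ((ball (0 : ℂ) (1 / 2)).indicator fun t => ‖t‖ₑ ^ (-q)) (1 : ℂ)
        rw [← h3]
        congr 1
        ext t
        simp only [indicator, mem_ball, dist_eq_norm, sub_zero]
      rw [h2]
      exact lintegral_ball_rpow_lt_top (by linarith) (by norm_num)
  · have h1 : ∫⁻ t in S2, ‖t‖ₑ ^ (q / 2 - 2) * (‖t - 1‖ₑ⁻¹) ^ q ≤
        ∫⁻ t in ball (0 : ℂ) 2, ‖t‖ₑ ^ (q / 2 - 2) * (ENNReal.ofReal (1 / 2))⁻¹ ^ q := by
      refine le_trans ?_ (lintegral_mono_set (s := S2) sdiff_subset)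
      apply setLIntegral_mono_ae' (measurableSet_ball.diff measurableSet_ball)
      filter_upwards with t ht
      gcongr
      rw [← ofReal_norm]
      apply ENNReal.ofReal_le_ofReal
      have := ht.2
      simpa [dist_eq_norm] using this
    refine lt_of_le_of_lt h1 ?_
    rw [lintegral_mul_const _ (by fun_prop)]
    apply ENNReal.mul_lt_top
    · exact lintegral_ball_rpow_lt_top (by linarith) (by norm_num)
    · apply ENNReal.rpow_lt_top_of_nonneg hq0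
      simp
  · have h1 : ∫⁻ t in S3, ‖t‖ₑ ^ (q / 2 - 2) * (‖t - 1‖ₑ⁻¹) ^ q ≤
        ∫⁻ t in S3, (ENNReal.ofReal 2) ^ q * ‖t‖ₑ ^ (-q / 2 - 2) := by
      apply setLIntegral_mono_ae' measurableSet_ball.compl
      filter_upwards with t ht
      have h2 : 2 ≤ ‖t‖ := by simpa [S3] using ht
      have h0 : ‖t‖ₑ ≠ 0 := by
        rw [← ofReal_norm]
        simp only [ne_eq, ENNReal.ofReal_eq_zero, not_le]
        linarith
      have h3 : ‖t - 1‖ₑ⁻¹ ≤ ENNReal.ofReal 2 * ‖t‖ₑ⁻¹ := by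
        have h4 : ‖t‖ ≤ 2 * ‖t - 1‖ := by
          have := norm_sub_norm_le t 1
          rw [norm_one] at this
          linarith
        have h5 : ‖t‖ₑ ≤ ENNReal.ofReal 2 * ‖t - 1‖ₑ := by
          rw [← ofReal_norm, ← ofReal_norm, ← ENNReal.ofReal_mul (by norm_num)]
          exact ENNReal.ofReal_le_ofReal h4
        rw [← div_eq_mul_inv, ENNReal.le_div_iff_mul_le (Or.inl h0) (Or.inl enorm_ne_top)]
        calc ‖t - 1‖ₑ⁻¹ * ‖t‖ₑ ≤ ‖t - 1‖ₑ⁻¹ * (ENNReal.ofReal 2 * ‖t - 1‖ₑ) := by gcongr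
          _ = ENNReal.ofReal 2 * (‖t - 1‖ₑ⁻¹ * ‖t - 1‖ₑ) := by ring
          _ ≤ ENNReal.ofReal 2 * 1 := by
            gcongr
            exact ENNReal.inv_mul_le_one _
          _ = ENNReal.ofReal 2 := mul_one _
      calc ‖t‖ₑ ^ (q / 2 - 2) * (‖t - 1‖ₑ⁻¹) ^ q
          ≤ ‖t‖ₑ ^ (q / 2 - 2) * (ENNReal.ofReal 2 * ‖t‖ₑ⁻¹) ^ q := by gcongr
        _ = (ENNReal.ofReal 2) ^ q * (‖t‖ₑ ^ (q / 2 - 2) * ‖t‖ₑ ^ (-q)) := by
          rw [ENNReal.mul_rpow_of_nonneg _ _ hq0, ENNReal.inv_rpow, ← ENNReal.rpow_neg]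
          ring
        _ = (ENNReal.ofReal 2) ^ q * ‖t‖ₑ ^ (-q / 2 - 2) := by
          rw [← ENNReal.rpow_add _ _ h0 enorm_ne_top]
          congr 2
          ring
    refine lt_of_le_of_lt h1 ?_
    rw [lintegral_const_mul _ (by fun_prop)]
    apply ENNReal.mul_lt_top
    · apply ENNReal.rpow_lt_top_of_nonneg hq0
      simp
    · exact lintegral_compl_ball_rpow_lt_top (by linarith) (by norm_num)

end

end Pool.Agent.DbarSUC
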