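import Pool.Agent.DbarSUC.Van

namespace Pool.Agent.DbarSUC

open MeasureTheory Set Filter Topology Complex Metric
open scoped ENNReal

section

variable {F : Type*} [NormedAddCommGroup F] [NormedSpace ℂ F] [CompleteSpace F]

theorem ennreal_absorb {x y : ℝ≥0∞} (h : x ≤ 2⁻¹ * x + y) (hx : x ≠ ∞) : x ≤ 2 * y := by
  have h1 : 2⁻¹ * x + 2⁻¹ * x = x := by
    rw [← add_mul, ENNReal.inv_two_add_inv_two, one_mul]
  have h2 : 2⁻¹ * x + 2⁻¹ * x ≤ 2⁻¹ * x + y := by rw [h1]; exact h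
  have h3 : 2⁻¹ * x ≠ ∞ := ENNReal.mul_ne_top (by simp) hx
  have h4 := (ENNReal.add_le_add_iff_left h3).1 h2
  calc x = 2 * (2⁻¹ * x) := by
        rw [← mul_assoc, ENNReal.mul_inv_cancel (by simp) (by simp), one_mul]
    _ ≤ 2 * y := by gcongr

theorem le_one_add_rpow {x : ℝ≥0∞} {q : ℝ} (hq : 1 ≤ q) : x ≤ 1 + x ^ q := by
  by_cases h : x ≤ 1
  · exact h.trans le_self_add
  · push Not at h
    calc x = x ^ (1 : ℝ) := (ENNReal.rpow_one x).symm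
      _ ≤ x ^ q := ENNReal.rpow_le_rpow_of_exponent_le h.le hq
      _ ≤ 1 + x ^ q := le_add_self

omit [NormedSpace ℂ F] [CompleteSpace F] in
theorem van_one {R0 : ℝ} {f : ℂ → F} {q : ℝ} (hq : 1 ≤ q)
    (hv : ∀ t b : ℝ, b < R0 → ∫⁻ ζ in closedBall (0 : ℂ) b, (‖ζ‖ₑ ^ t * ‖f ζ‖ₑ) ^ q ≠ ∞)
    (t b : ℝ) (hb : b < R0) : ∫⁻ ζ in closedBall (0 : ℂ) b, ‖ζ‖ₑ ^ t * ‖f ζ‖ₑ ≠ ∞ := by
  have h1 : ∫⁻ ζ in closedBall (0 : ℂ) b, ‖ζ‖ₑ ^ t * ‖f ζ‖ₑ ≤
      ∫⁻ ζ in closedBall (0 : ℂ) b, (1 + (‖ζ‖ₑ ^ t * ‖f ζ‖ₑ) ^ q) :=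
    lintegral_mono fun ζ => le_one_add_rpow hq
  refine ne_top_of_le_ne_top ?_ h1
  rw [lintegral_add_left measurable_const]
  apply ENNReal.add_ne_top.2 ⟨?_, hv t b hb⟩
  simp only [lintegral_const, one_mul, Measure.restrict_apply_univ]
  exact (measure_closedBall_lt_top).ne

/-- Propagation of zeros from `ball 0 s` to `ball 0 b` for slices with small potential on the
annulus. -/
theorem propagate {R0 : ℝ} {f g : ℂ → F} (hA : Approx R0 f g)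
    (hf : AEStronglyMeasurable f) (hg : AEStronglyMeasurable g)
    {q r : ℝ} (hq2 : q < 2) (hqr : q.HolderConjugate r)
    (hv : ∀ t b : ℝ, b < R0 → ∫⁻ ζ in closedBall (0 : ℂ) b, (‖ζ‖ₑ ^ t * ‖f ζ‖ₑ) ^ q ≠ ∞)
    {V : ℂ → ℝ≥0∞} (hV : AEMeasurable V)
    (hgV : ∀ᵐ ζ : ℂ, ‖ζ‖ < R0 → ‖g ζ‖ₑ ≤ V ζ * ‖f ζ‖ₑ)
    {s b : ℝ} (hb : b < R0) (hzero : ∀ᵐ ζ : ℂ, ‖ζ‖ < s → f ζ = 0)
    (hsmall : kerConst q ^ (1 / q) *
      (∫⁻ ζ in ann s b, (‖ζ‖ₑ * V ζ) ^ r * ‖ζ‖ₑ ^ (-2 : ℝ)) ^ (1 / r) ≤ 2⁻¹)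
    {b₂ : ℝ} (hb2 : b₂ < b) : ∀ᵐ ζ : ℂ, ‖ζ‖ < b₂ → f ζ = 0 := by
  have hq1 : 1 < q := hqr.lt
  have hq0 : 0 < q := by linarith
  have hr0 : 0 < r := hqr.symm.pos
  rcases le_or_gt b₂ 0 with hb20 | hb20
  · filter_upwards with ζ hζ
    have := norm_nonneg ζ
    linarith
  have hv1 := van_one hq1.le hv
  have hf' : AEMeasurable (fun ζ => ‖f ζ‖ₑ) := hf.enorm
  have hb0 : 0 < b := hb20.trans hb2
  set b₁ : ℝ := (b₂ + b) / 2 with hb₁
  have hb21 : b₂ < b₁ := by rw [hb₁]; linarith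
  have hb1b : b₁ < b := by rw [hb₁]; linarith
  have hb10 : 0 < b₁ := hb20.trans hb21
  -- the cutoff
  let α : ContDiffBump (0 : ℂ) := ⟨b₁, b, hb10, hb1b⟩
  set χ : ℂ → ℂ := fun z => ((α z : ℝ) : ℂ) with hχdef
  have hχ : ContDiff ℝ 1 χ := by
    have h1 : ContDiff ℝ 1 (fun z => (α z : ℝ)) := α.contDiff
    exact Complex.ofRealCLM.contDiff.comp h1
  have hts : tsupport χ ⊆ closedBall 0 b := by
    have h1 : tsupport (fun z => (α z : ℝ)) = closedBall 0 b := α.tsupport_eq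
    rw [← h1]
    apply closure_mono
    intro z hz
    rw [Function.mem_support] at hz ⊢
    intro h
    apply hz
    simp only [hχdef, h, ofReal_zero]
  have hχ1 : ∀ ζ, ‖χ ζ‖ₑ ≤ 1 := by
    intro ζ
    rw [hχdef, ← ofReal_norm, Complex.norm_real, Real.norm_of_nonneg α.nonneg,
      ← ENNReal.ofReal_one]
    exact ENNReal.ofReal_le_ofReal α.le_one
  have hχ2 : ∀ ζ, ‖ζ‖ ≤ b₁ → χ ζ = 1 := by
    intro ζ hζ
    have h1 : α ζ = 1 := α.one_of_mem_closedBall (by rwa [mem_closedBall_zero_iff])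
    simp only [hχdef, h1, ofReal_one]
  have hχ3 : ∀ ζ, b < ‖ζ‖ → χ ζ = 0 := by
    intro ζ hζ
    apply image_eq_zero_of_notMem_tsupport
    intro h
    have := hts h
    rw [mem_closedBall_zero_iff] at this
    linarith
  have hdχ1 : ∀ ζ, ‖ζ‖ < b₁ → dbar χ ζ 1 = 0 := by
    intro ζ hζ
    have h1 : χ =ᶠ[𝓝 ζ] fun _ => (1 : ℂ) := by
      have h2 : ball (0 : ℂ) b₁ ∈ 𝓝 ζ := isOpen_ball.mem_nhds (by
        rwa [mem_ball_zero_iff])
      filter_upwards [h2] with η hη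
      rw [mem_ball_zero_iff] at hη
      exact hχ2 η hη.le
    rw [dbar_congr h1]
    simp [dbar]
  have hdχ2 : ∀ ζ, b < ‖ζ‖ → dbar χ ζ 1 = 0 := by
    intro ζ hζ
    apply dbar_eq_zero_of_notMem_tsupport
    intro h
    have := hts h
    rw [mem_closedBall_zero_iff] at this
    linarith
  obtain ⟨D, hD, hD'⟩ := exists_enorm_le (continuous_dbar hχ 1) (isCompact_closedBall (0 : ℂ) b)
  set Φ : ℝ≥0∞ := ∫⁻ ζ in closedBall (0 : ℂ) b, ‖f ζ‖ₑ with hΦ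
  have hΦfin : Φ ≠ ∞ := by
    have := hv1 0 b hb
    simpa only [ENNReal.rpow_zero, one_mul] using this
  set J : ℝ≥0∞ := (∫⁻ η in ball (0 : ℂ) b₂, ‖f η‖ₑ ^ q * ‖η‖ₑ ^ (-2 : ℝ)) ^ (1 / q) with hJ
  set K : ℝ≥0∞ := kerConst q ^ (1 / q) with hK
  have hKfin : K ≠ ∞ := ENNReal.rpow_ne_top_of_nonneg (by positivity)
    (kerConst_lt_top hq1 hq2).ne
  have hexp : (2 : ℝ) / q + 2 / r = 2 := by
    have := hqr.inv_add_inv_eq_one
    rw [div_eq_mul_inv, div_eq_mul_inv, ← mul_add, this, mul_one]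
  have key : ∀ k : ℕ, 1 ≤ k → (ENNReal.ofReal b₂) ^ (1 / 2 - k : ℝ) * J ≤
      2 * (K * (D * (ENNReal.ofReal b₁) ^ (-1 / 2 - k : ℝ) * Φ)) := by
    intro k hk
    have hk' : (1 : ℝ) ≤ k := by exact_mod_cast hk
    set X : ℝ≥0∞ := (∫⁻ η, (‖η‖ₑ ^ (1 / 2 - k : ℝ) * (‖χ η‖ₑ * ‖f η‖ₑ)) ^ q *
      ‖η‖ₑ ^ (-2 : ℝ)) ^ (1 / q) with hX
    -- finiteness
    have hXfin : X ≠ ∞ := by
      apply ENNReal.rpow_ne_top_of_nonneg (by positivity)
      have h1 : ∀ᵐ η : ℂ, (‖η‖ₑ ^ (1 / 2 - k : ℝ) * (‖χ η‖ₑ * ‖f η‖ₑ)) ^ q *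
          ‖η‖ₑ ^ (-2 : ℝ) ≤ (closedBall (0 : ℂ) b).indicator
            (fun η => (‖η‖ₑ ^ (1 / 2 - k - 2 / q : ℝ) * ‖f η‖ₑ) ^ q) η := by
        filter_upwards [ae_ne_zero] with η hη0
        have hη0' : ‖η‖ₑ ≠ 0 := by simpa using hη0
        by_cases hη : η ∈ closedBall (0 : ℂ) b
        · rw [indicator_of_mem hη]
          calc (‖η‖ₑ ^ (1 / 2 - k : ℝ) * (‖χ η‖ₑ * ‖f η‖ₑ)) ^ q * ‖η‖ₑ ^ (-2 : ℝ)
              ≤ (‖η‖ₑ ^ (1 / 2 - k : ℝ) * (1 * ‖f η‖ₑ)) ^ q * ‖η‖ₑ ^ (-2 : ℝ) := by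
                gcongr
                exact hχ1 η
            _ = (‖η‖ₑ ^ (1 / 2 - k : ℝ) * ‖f η‖ₑ) ^ q * (‖η‖ₑ ^ (-2 / q : ℝ)) ^ q := by
                rw [one_mul, ← ENNReal.rpow_mul, div_mul_cancel₀ _ hq0.ne']
            _ = ((‖η‖ₑ ^ (1 / 2 - k : ℝ) * ‖η‖ₑ ^ (-2 / q : ℝ)) * ‖f η‖ₑ) ^ q := by
                rw [← ENNReal.mul_rpow_of_nonneg _ _ hq0.le]
                ring_nf
            _ = _ := by
                rw [← ENNReal.rpow_add _ _ hη0' enorm_ne_top]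
                have h2 : (1 / 2 - k : ℝ) + (-2 / q) = 1 / 2 - k - 2 / q := by ring
                rw [h2]
        · have h2 : b < ‖η‖ := by
            rw [mem_closedBall_zero_iff] at hη
            linarith
          rw [hχ3 η h2]
          simp [hq0]
      refine ne_top_of_le_ne_top ?_ (lintegral_mono_ae h1)
      rw [lintegral_indicator measurableSet_closedBall]
      exact hv _ b hb
    -- Carleman
    have h1 := carleman_van hA hf hg hv1 hχ hb hts k hq1 hq2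
    have h2 : X ≤ K * ∫⁻ ζ, ‖ζ‖ₑ ^ (-1 / 2 - k : ℝ) *
        (‖χ ζ‖ₑ * ‖g ζ‖ₑ + ‖dbar χ ζ 1‖ₑ * ‖f ζ‖ₑ) := by
      rw [hX, hK]
      refine (ENNReal.rpow_le_rpow h1 (by positivity)).trans ?_
      rw [ENNReal.mul_rpow_of_nonneg _ _ (by positivity), ← ENNReal.rpow_mul,
        mul_one_div_cancel hq0.ne', ENNReal.rpow_one]
    set W : ℂ → ℝ≥0∞ := (ann s b).indicator (fun ζ => ‖ζ‖ₑ * V ζ * ‖ζ‖ₑ ^ (-2 / r : ℝ)) with hW
    set Y : ℂ → ℝ≥0∞ := fun ζ => ‖ζ‖ₑ ^ (1 / 2 - k : ℝ) * (‖χ ζ‖ₑ * ‖f ζ‖ₑ) *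
      ‖ζ‖ₑ ^ (-2 / q : ℝ) with hY
    have hWm : AEMeasurable W := by
      apply AEMeasurable.indicator _ (measurableSet_ann s b)
      have h4 : AEMeasurable fun ζ : ℂ => ‖ζ‖ₑ := measurable_enorm.aemeasurable
      have h5 : AEMeasurable fun ζ : ℂ => ‖ζ‖ₑ ^ (-2 / r : ℝ) :=
        (measurable_enorm.pow_const _).aemeasurable
      exact (h4.mul hV).mul h5
    have hYm : AEMeasurable Y := by
      refine AEMeasurable.mul (AEMeasurable.mul ?_ (AEMeasurable.mul ?_ hf')) ?_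
      · apply Measurable.aemeasurable; fun_prop
      · exact hχ.continuous.enorm.measurable.aemeasurable
      · apply Measurable.aemeasurable; fun_prop
    have h3 : ∀ᵐ ζ : ℂ, ‖ζ‖ₑ ^ (-1 / 2 - k : ℝ) *
        (‖χ ζ‖ₑ * ‖g ζ‖ₑ + ‖dbar χ ζ 1‖ₑ * ‖f ζ‖ₑ) ≤
        W ζ * Y ζ + (closedBall (0 : ℂ) b).indicator
          (fun ζ => D * (ENNReal.ofReal b₁) ^ (-1 / 2 - k : ℝ) * ‖f ζ‖ₑ) ζ := by
      filter_upwards [ae_ne_zero, hgV, hzero] with ζ hζ0 hgζ hzζ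
      have hζ0' : ‖ζ‖ₑ ≠ 0 := by simpa using hζ0
      rw [mul_add]
      apply add_le_add
      · -- the main term
        rcases lt_or_ge b ‖ζ‖ with hbζ | hbζ
        · rw [hχ3 ζ hbζ]
          simp
        have hgζ' := hgζ (by linarith)
        rcases lt_or_ge ‖ζ‖ s with hsζ | hsζ
        · rw [hzζ hsζ] at hgζ'
          have h4 : ‖g ζ‖ₑ = 0 := by simpa using hgζ'
          rw [h4]
          simp
        have hmem : ζ ∈ ann s b := ⟨hsζ, hbζ⟩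
        simp only [hW, hY]
        rw [indicator_of_mem hmem]
        calc ‖ζ‖ₑ ^ (-1 / 2 - k : ℝ) * (‖χ ζ‖ₑ * ‖g ζ‖ₑ)
            ≤ ‖ζ‖ₑ ^ (-1 / 2 - k : ℝ) * (‖χ ζ‖ₑ * (V ζ * ‖f ζ‖ₑ)) := by gcongr
          _ = V ζ * ‖χ ζ‖ₑ * ‖f ζ‖ₑ * ‖ζ‖ₑ ^ (-1 / 2 - k : ℝ) := by ring
          _ = V ζ * ‖χ ζ‖ₑ * ‖f ζ‖ₑ * (‖ζ‖ₑ ^ (1 : ℝ) * ‖ζ‖ₑ ^ (-2 / r : ℝ) *
              ‖ζ‖ₑ ^ (1 / 2 - k : ℝ) * ‖ζ‖ₑ ^ (-2 / q : ℝ)) := by
              rw [← ENNReal.rpow_add _ _ hζ0' enorm_ne_top,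
                ← ENNReal.rpow_add _ _ hζ0' enorm_ne_top,
                ← ENNReal.rpow_add _ _ hζ0' enorm_ne_top]
              have h5 : (1 : ℝ) + -2 / r + (1 / 2 - k) + -2 / q = -1 / 2 - k := by
                have h6 : -2 / q = -(2 / q) := by ring
                have h7 : -2 / r = -(2 / r) := by ring
                rw [h6, h7]
                linarith
              rw [h5]
          _ = _ := by
              rw [ENNReal.rpow_one]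
              ring
      · -- the cutoff term
        rcases lt_or_ge b ‖ζ‖ with hbζ | hbζ
        · rw [hdχ2 ζ hbζ]
          simp
        rcases lt_or_ge ‖ζ‖ b₁ with hsζ | hsζ
        · rw [hdχ1 ζ hsζ]
          simp
        have hmem : ζ ∈ closedBall (0 : ℂ) b := by rwa [mem_closedBall_zero_iff]
        rw [indicator_of_mem hmem]
        calc ‖ζ‖ₑ ^ (-1 / 2 - k : ℝ) * (‖dbar χ ζ 1‖ₑ * ‖f ζ‖ₑ)
            ≤ (ENNReal.ofReal b₁) ^ (-1 / 2 - k : ℝ) * (D * ‖f ζ‖ₑ) := by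
              refine mul_le_mul' (rpow_anti ?_ (by linarith)) (mul_le_mul' (hD' ζ hmem) le_rfl)
              rw [← ofReal_norm]
              exact ENNReal.ofReal_le_ofReal hsζ
          _ = _ := by ring
    have h4 : ∫⁻ ζ, ‖ζ‖ₑ ^ (-1 / 2 - k : ℝ) *
        (‖χ ζ‖ₑ * ‖g ζ‖ₑ + ‖dbar χ ζ 1‖ₑ * ‖f ζ‖ₑ) ≤
        (∫⁻ ζ in ann s b, (‖ζ‖ₑ * V ζ) ^ r * ‖ζ‖ₑ ^ (-2 : ℝ)) ^ (1 / r) * X +
        D * (ENNReal.ofReal b₁) ^ (-1 / 2 - k : ℝ) * Φ := by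
      refine (lintegral_mono_ae h3).trans ?_
      have hWY : AEMeasurable (fun ζ => W ζ * Y ζ) := hWm.mul hYm
      rw [lintegral_add_left' hWY, lintegral_indicator measurableSet_closedBall,
        lintegral_const_mul'' _ hf'.restrict]
      gcongr
      have h5 := ENNReal.lintegral_mul_le_Lp_mul_Lq volume hqr.symm hWm hYm
      refine h5.trans (le_of_eq ?_)
      congr 2
      · rw [← lintegral_indicator (measurableSet_ann s b)]
        apply lintegral_congr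
        intro ζ
        simp only [hW]
        by_cases hmem : ζ ∈ ann s b
        · rw [indicator_of_mem hmem, indicator_of_mem hmem,
            ENNReal.mul_rpow_of_nonneg _ _ hr0.le, ← ENNReal.rpow_mul,
            div_mul_cancel₀ _ hr0.ne']
        · rw [indicator_of_notMem hmem, indicator_of_notMem hmem, ENNReal.zero_rpow_of_pos hr0]
      · apply lintegral_congr
        intro ζ
        simp only [hY]
        rw [ENNReal.mul_rpow_of_nonneg _ _ hq0.le, ← ENNReal.rpow_mul (‖ζ‖ₑ) (-2 / q) q,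
          div_mul_cancel₀ _ hq0.ne']
    have h5 : X ≤ 2⁻¹ * X + K * (D * (ENNReal.ofReal b₁) ^ (-1 / 2 - k : ℝ) * Φ) := by
      calc X ≤ K * ((∫⁻ ζ in ann s b, (‖ζ‖ₑ * V ζ) ^ r * ‖ζ‖ₑ ^ (-2 : ℝ)) ^ (1 / r) * X +
            D * (ENNReal.ofReal b₁) ^ (-1 / 2 - k : ℝ) * Φ) := h2.trans (by gcongr)
        _ = (K * (∫⁻ ζ in ann s b, (‖ζ‖ₑ * V ζ) ^ r * ‖ζ‖ₑ ^ (-2 : ℝ)) ^ (1 / r)) * X +
            K * (D * (ENNReal.ofReal b₁) ^ (-1 / 2 - k : ℝ) * Φ) := by ring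
        _ ≤ _ := by gcongr
    have h6 := ennreal_absorb h5 hXfin
    refine le_trans ?_ h6
    -- lower bound
    rw [hJ, hX]
    have h7 : (ENNReal.ofReal b₂) ^ (1 / 2 - k : ℝ) =
        (((ENNReal.ofReal b₂) ^ (1 / 2 - k : ℝ)) ^ q) ^ (1 / q) := by
      rw [← ENNReal.rpow_mul, mul_one_div_cancel hq0.ne', ENNReal.rpow_one]
    rw [h7, ← ENNReal.mul_rpow_of_nonneg _ _ (by positivity)]
    apply ENNReal.rpow_le_rpow _ (by positivity)
    rw [← lintegral_const_mul'', ← lintegral_indicator measurableSet_ball]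
    · apply lintegral_mono
      intro η
      by_cases hη : η ∈ ball (0 : ℂ) b₂
      · rw [indicator_of_mem hη]
        rw [mem_ball_zero_iff] at hη
        beta_reduce
        rw [hχ2 η (by linarith), enorm_one, one_mul, ENNReal.mul_rpow_of_nonneg _ _ hq0.le,
          mul_assoc]
        refine mul_le_mul' (ENNReal.rpow_le_rpow (rpow_anti ?_ (by linarith)) hq0.le) le_rfl
        rw [← ofReal_norm]
        exact ENNReal.ofReal_le_ofReal hη.le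
      · rw [indicator_of_notMem hη]
        exact bot_le
    · exact ((hf'.pow_const q).mul (by apply Measurable.aemeasurable; fun_prop)).restrict
  set a : ℝ≥0∞ := ENNReal.ofReal b₂ with ha
  set c : ℝ≥0∞ := ENNReal.ofReal b₁ with hc
  have ha0 : a ≠ 0 := by
    rw [ha, ne_eq, ENNReal.ofReal_eq_zero]
    linarith
  have hc0 : c ≠ 0 := by
    rw [hc, ne_eq, ENNReal.ofReal_eq_zero]
    linarith
  have hatop : a ≠ ∞ := ENNReal.ofReal_ne_top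
  have hctop : c ≠ ∞ := ENNReal.ofReal_ne_top
  have hac : a * c⁻¹ < 1 := by
    rw [← div_eq_mul_inv]
    apply ENNReal.div_lt_of_lt_mul
    rw [one_mul]
    exact (ENNReal.ofReal_lt_ofReal_iff hb10).2 hb21
  set C2 : ℝ≥0∞ := 2 * K * D * Φ * a ^ (-1 / 2 : ℝ) * c ^ (-1 / 2 : ℝ) with hC2
  have hC2fin : C2 ≠ ∞ := by
    rw [hC2]
    refine ENNReal.mul_ne_top (ENNReal.mul_ne_top (ENNReal.mul_ne_top (ENNReal.mul_ne_top
      (ENNReal.mul_ne_top (by simp) hKfin) hD) hΦfin) ?_) ?_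
    · exact ENNReal.rpow_ne_top_of_ne_zero ha0 hatop
    · exact ENNReal.rpow_ne_top_of_ne_zero hc0 hctop
  have hbound : ∀ k : ℕ, 1 ≤ k → J ≤ C2 * (a * c⁻¹) ^ k := by
    intro k hk
    have h1 : a ^ (k - 1 / 2 : ℝ) * (a ^ (1 / 2 - k : ℝ) * J) = J := by
      rw [← mul_assoc, ← ENNReal.rpow_add _ _ ha0 hatop]
      have h2 : (k - 1 / 2 : ℝ) + (1 / 2 - k) = 0 := by ring
      rw [h2, ENNReal.rpow_zero, one_mul]
    have h3 : a ^ (k - 1 / 2 : ℝ) = a ^ (-1 / 2 : ℝ) * a ^ k := by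
      rw [← ENNReal.rpow_natCast, ← ENNReal.rpow_add _ _ ha0 hatop]
      congr 1
      ring
    have h4 : c ^ (-1 / 2 - k : ℝ) = c ^ (-1 / 2 : ℝ) * (c⁻¹) ^ k := by
      rw [← ENNReal.rpow_natCast, ENNReal.inv_rpow, ← ENNReal.rpow_neg,
        ← ENNReal.rpow_add _ _ hc0 hctop]
      congr 1
    calc J = a ^ (k - 1 / 2 : ℝ) * (a ^ (1 / 2 - k : ℝ) * J) := h1.symm
      _ ≤ a ^ (k - 1 / 2 : ℝ) * (2 * (K * (D * c ^ (-1 / 2 - k : ℝ) * Φ))) :=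
        mul_le_mul' le_rfl (key k hk)
      _ = _ := by
        rw [h3, h4, hC2, mul_pow]
        ring
  have hJ0 : J = 0 := by
    have h1 : Tendsto (fun k : ℕ => C2 * (a * c⁻¹) ^ k) atTop (𝓝 (C2 * 0)) :=
      ENNReal.Tendsto.const_mul (ENNReal.tendsto_pow_atTop_nhds_zero_of_lt_one hac)
        (Or.inr hC2fin)
    rw [mul_zero] at h1
    apply le_antisymm _ bot_le
    apply ge_of_tendsto h1
    filter_upwards [eventually_ge_atTop 1] with k hk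
    exact hbound k hk
  rw [hJ, ENNReal.rpow_eq_zero_iff_of_pos (by positivity)] at hJ0
  rw [lintegral_eq_zero_iff'] at hJ0
  · have h1 := (ae_restrict_iff' measurableSet_ball).1 hJ0
    filter_upwards [h1] with ζ hζ hζb
    have h2 := hζ (by rwa [mem_ball_zero_iff])
    simp only [Pi.zero_apply, mul_eq_zero] at h2
    rcases h2 with h2 | h2
    · rw [ENNReal.rpow_eq_zero_iff_of_pos hq0] at h2
      simpa using h2
    · rw [ENNReal.rpow_eq_zero_iff] at h2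
      rcases h2 with h2 | h2
      · norm_num at h2
      · exact absurd h2.1 enorm_ne_top
  · exact ((hf'.pow_const q).mul (by apply Measurable.aemeasurable; fun_prop)).restrict

omit [NormedSpace ℂ F] [CompleteSpace F] in
theorem zero_of_lt {f : ℂ → F} {s : ℝ}
    (h : ∀ s' < s, ∀ᵐ ζ : ℂ, ‖ζ‖ < s' → f ζ = 0) : ∀ᵐ ζ : ℂ, ‖ζ‖ < s → f ζ = 0 := by
  have h1 : ∀ᵐ ζ : ℂ, ∀ n : ℕ, ‖ζ‖ < s - 1 / (n + 1) → f ζ = 0 := by
    rw [ae_all_iff]
    intro n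
    apply h
    have : (0 : ℝ) < 1 / (n + 1) := by positivity
    linarith
  filter_upwards [h1] with ζ hζ hs
  obtain ⟨n, hn⟩ := exists_nat_one_div_lt (sub_pos.2 hs)
  apply hζ n
  linarith

/-- Strong unique continuation on a disc for `|∂̄ f| ≤ V |f|`. -/
theorem unique_disc {R0 : ℝ} {f g : ℂ → F} (hA : Approx R0 f g)
    (hf : AEStronglyMeasurable f) (hg : AEStronglyMeasurable g)
    {q r : ℝ} (hq2 : q < 2) (hqr : q.HolderConjugate r)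
    (hv : ∀ t b : ℝ, b < R0 → ∫⁻ ζ in closedBall (0 : ℂ) b, (‖ζ‖ₑ ^ t * ‖f ζ‖ₑ) ^ q ≠ ∞)
    {V : ℂ → ℝ≥0∞} (hV : AEMeasurable V)
    (hgV : ∀ᵐ ζ : ℂ, ‖ζ‖ < R0 → ‖g ζ‖ₑ ≤ V ζ * ‖f ζ‖ₑ)
    (hVfin : ∀ b < R0, ∫⁻ ζ in closedBall (0 : ℂ) b,
      (‖ζ‖ₑ * V ζ) ^ r * ‖ζ‖ₑ ^ (-2 : ℝ) ≠ ∞) :
    ∀ᵐ ζ : ℂ, ‖ζ‖ < R0 → f ζ = 0 := by
  have hq1 : 1 < q := hqr.lt
  have hq0 : 0 < q := by linarith
  have hr0 : 0 < r := hqr.symm.pos
  rcases le_or_gt R0 0 with hR0 | hR0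
  · filter_upwards with ζ hζ
    have := norm_nonneg ζ
    linarith
  set T : Set ℝ := {s | s ≤ R0 ∧ ∀ᵐ ζ : ℂ, ‖ζ‖ < s → f ζ = 0} with hT
  have h0T : (0 : ℝ) ∈ T := by
    refine ⟨hR0.le, ?_⟩
    filter_upwards with ζ hζ
    have := norm_nonneg ζ
    linarith
  have hTb : BddAbove T := ⟨R0, fun s hs => hs.1⟩
  set σ : ℝ := sSup T with hσ
  have hσ0 : 0 ≤ σ := le_csSup hTb h0T
  have hσR : σ ≤ R0 := csSup_le ⟨0, h0T⟩ fun s hs => hs.1
  have hPσ : ∀ᵐ ζ : ℂ, ‖ζ‖ < σ → f ζ = 0 := by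
    apply zero_of_lt
    intro s' hs'
    obtain ⟨t, ht, hst⟩ := exists_lt_of_lt_csSup ⟨0, h0T⟩ hs'
    filter_upwards [ht.2] with ζ hζ hs
    exact hζ (hs.trans hst)
  rcases hσR.eq_or_lt with heq | hlt
  · rwa [heq] at hPσ
  exfalso
  -- choose a larger radius
  set G : ℂ → ℝ≥0∞ := fun ζ => (‖ζ‖ₑ * V ζ) ^ r * ‖ζ‖ₑ ^ (-2 : ℝ) with hG
  set δ : ℝ := (R0 - σ) / 2 with hδ
  have hδ0 : 0 < δ := by rw [hδ]; linarith
  set b : ℕ → ℝ := fun n => σ + δ * (1 / (n + 1 : ℝ)) with hb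
  have hbσ : ∀ n, σ < b n := fun n => by
    have : (0 : ℝ) < δ * (1 / (n + 1 : ℝ)) := by positivity
    simp only [hb]
    linarith
  have hbδ : ∀ n, b n ≤ σ + δ := fun n => by
    have h1 : (1 / (n + 1 : ℝ)) ≤ 1 := by
      rw [div_le_one (by positivity)]
      have : (0 : ℝ) ≤ n := n.cast_nonneg
      linarith
    have h2 : δ * (1 / (n + 1 : ℝ)) ≤ δ * 1 := by gcongr
    simp only [hb]
    linarith
  have hblim : Tendsto b atTop (𝓝 σ) := by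
    have h1 : Tendsto (fun n : ℕ => σ + δ * (1 / (n + 1 : ℝ))) atTop (𝓝 (σ + δ * 0)) :=
      tendsto_const_nhds.add (tendsto_one_div_add_atTop_nhds_zero_nat.const_mul δ)
    rwa [mul_zero, add_zero] at h1
  have hlim1 : Tendsto (fun n => ∫⁻ ζ in ann σ (b n), G ζ) atTop (𝓝 0) := by
    have h1 : ∀ n, ∫⁻ ζ in ann σ (b n), G ζ =
        ∫⁻ ζ in ann σ (b n), (closedBall (0 : ℂ) (σ + δ)).indicator G ζ := by
      intro n
      apply setLIntegral_congr_fun (measurableSet_ann _ _)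
      intro ζ hζ
      beta_reduce
      rw [indicator_of_mem]
      rw [mem_closedBall_zero_iff]
      exact hζ.2.trans (hbδ n)
    simp only [h1]
    apply tendsto_setLIntegral_zero
    · rw [lintegral_indicator measurableSet_closedBall]
      apply hVfin
      rw [hδ]
      linarith
    · have h2 : ∀ n, volume (ann σ (b n)) =
          ENNReal.ofReal (b n) ^ 2 * NNReal.pi - ENNReal.ofReal σ ^ 2 * NNReal.pi := by
        intro n
        have h3 : ann σ (b n) = closedBall (0 : ℂ) (b n) \ ball (0 : ℂ) σ := by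
          ext ζ
          simp only [ann, mem_ofPred_eq, Set.mem_sdiff, mem_closedBall_zero_iff, mem_ball_zero_iff,
            not_lt]
          tauto
        rw [h3, measure_sdiff (ball_subset_closedBall.trans
          (closedBall_subset_closedBall (hbσ n).le)) measurableSet_ball.nullMeasurableSet
          measure_ball_lt_top.ne, Complex.volume_closedBall, Complex.volume_ball]
      have h4 : Tendsto (fun n => ENNReal.ofReal (b n) ^ 2 * NNReal.pi -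
          ENNReal.ofReal σ ^ 2 * NNReal.pi) atTop
          (𝓝 (ENNReal.ofReal σ ^ 2 * NNReal.pi - ENNReal.ofReal σ ^ 2 * NNReal.pi)) := by
        apply ENNReal.Tendsto.sub _ tendsto_const_nhds
        · left
          exact ENNReal.mul_ne_top (ENNReal.pow_ne_top ENNReal.ofReal_ne_top) (by simp)
        · apply ENNReal.Tendsto.mul_const _ (Or.inr (by simp))
          exact ENNReal.Tendsto.pow (ENNReal.tendsto_ofReal hblim)
      rw [tsub_self] at h4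
      exact h4.congr fun n => (h2 n).symm
  have hlim2 : Tendsto (fun n => kerConst q ^ (1 / q) *
      (∫⁻ ζ in ann σ (b n), G ζ) ^ (1 / r)) atTop (𝓝 0) := by
    have h1 := ((ENNReal.continuous_rpow_const (y := 1 / r)).tendsto 0).comp hlim1
    rw [ENNReal.zero_rpow_of_pos (by positivity)] at h1
    have h2 : Tendsto (fun n => kerConst q ^ (1 / q) *
      (∫⁻ ζ in ann σ (b n), G ζ) ^ (1 / r)) atTop (𝓝 (kerConst q ^ (1 / q) * 0)) :=
      ENNReal.Tendsto.const_mul h1 (Or.inr (ENNReal.rpow_ne_top_of_nonneg (by positivity)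
        (kerConst_lt_top hq1 hq2).ne))
    rwa [mul_zero] at h2
  have h3 : ∀ᶠ n in atTop, kerConst q ^ (1 / q) *
      (∫⁻ ζ in ann σ (b n), G ζ) ^ (1 / r) < 2⁻¹ :=
    hlim2.eventually_lt_const (by simp)
  obtain ⟨n, hn⟩ := h3.exists
  have hbR : b n < R0 := lt_of_le_of_lt (hbδ n) (by rw [hδ]; linarith)
  have hmid : (σ + b n) / 2 < b n := by linarith [hbσ n]
  have h4 := propagate hA hf hg hq2 hqr hv hV hgV hbR hPσ hn.le hmid
  have h5 : (σ + b n) / 2 ∈ T := ⟨by linarith [hbσ n], h4⟩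
  have h6 := le_csSup hTb h5
  linarith [hbσ n]

end

end Pool.Agent.DbarSUC
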