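import Pool.Agent.DbarSUC.Weak

namespace Pool.Agent.DbarSUC

open MeasureTheory Set Filter Topology Complex Metric
open scoped ENNReal

section

variable {F : Type*} [NormedAddCommGroup F] [NormedSpace ℂ F] [CompleteSpace F]

theorem dbar_const_sub {E : Type*} [NormedAddCommGroup E] [NormedSpace ℂ E]
    {F : Type*} [NormedAddCommGroup F] [NormedSpace ℂ F] (c : F) (φ : E → F) (z v : E) :
    dbar (fun z => c - φ z) z v = - dbar φ z v := by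
  unfold dbar
  rw [fderiv_const_sub]
  simp only [neg_apply, smul_neg, smul_add]
  abel

/-- Cutoffs vanishing near `0`. -/
theorem exists_cutoff : ∃ C : ℝ≥0∞, C ≠ ∞ ∧ ∀ ε : ℝ, 0 < ε → ∃ β : ℂ → ℂ, ContDiff ℝ 1 β ∧
    (∀ ζ, ‖β ζ‖ₑ ≤ 1) ∧ (∀ ζ, ‖ζ‖ < ε → β ζ = 0) ∧ (∀ ζ, 2 * ε ≤ ‖ζ‖ → β ζ = 1) ∧
    (∀ ζ, ‖dbar β ζ 1‖ₑ ≤
      (closedBall (0 : ℂ) (2 * ε)).indicator (fun ζ => C * ‖ζ‖ₑ ^ (-1 : ℝ)) ζ) := by
  let α : ContDiffBump (0 : ℂ) := ⟨1, 2, one_pos, one_lt_two⟩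
  set α' : ℂ → ℂ := fun z => ((α z : ℝ) : ℂ) with hα'
  have hα'c : ContDiff ℝ 1 α' := by
    have h1 : ContDiff ℝ 1 (fun z => (α z : ℝ)) := α.contDiff
    exact Complex.ofRealCLM.contDiff.comp h1
  have hts : tsupport α' ⊆ closedBall 0 2 := by
    have h1 : tsupport (fun z => (α z : ℝ)) = closedBall 0 2 := α.tsupport_eq
    rw [← h1]
    apply closure_mono
    intro z hz
    rw [Function.mem_support] at hz ⊢
    intro h
    apply hz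
    simp only [hα', h, ofReal_zero]
  obtain ⟨C0, hC0, hC0'⟩ := exists_enorm_le (continuous_dbar hα'c 1)
    (isCompact_closedBall (0 : ℂ) 2)
  refine ⟨2 * C0, ENNReal.mul_ne_top (by simp) hC0, fun ε hε => ?_⟩
  have hε' : (ε : ℂ) ≠ 0 := by exact_mod_cast hε.ne'
  refine ⟨fun ζ => 1 - α' (0 + ζ • (ε : ℂ)⁻¹), ?_, ?_, ?_, ?_, ?_⟩
  · apply contDiff_const.sub
    apply hα'c.comp
    exact contDiff_const.add (contDiff_id.smul contDiff_const)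
  · intro ζ
    have h1 : (1 : ℂ) - α' (0 + ζ • (ε : ℂ)⁻¹) =
      ((1 - α (0 + ζ • (ε : ℂ)⁻¹) : ℝ) : ℂ) := by
      simp only [hα', ofReal_sub, ofReal_one]
    simp only [h1]
    rw [← ofReal_norm, Complex.norm_real, Real.norm_of_nonneg (by linarith [α.le_one (x := 0 + ζ • (ε : ℂ)⁻¹)])]
    rw [← ENNReal.ofReal_one]
    apply ENNReal.ofReal_le_ofReal
    linarith [α.nonneg (x := 0 + ζ • (ε : ℂ)⁻¹)]
  · intro ζ hζ
    have h1 : α (0 + ζ • (ε : ℂ)⁻¹) = 1 := by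
      apply α.one_of_mem_closedBall
      change _ ∈ closedBall (0 : ℂ) 1
      rw [mem_closedBall_zero_iff, zero_add, norm_smul, norm_inv, Complex.norm_real,
        Real.norm_of_nonneg hε.le, ← div_eq_mul_inv, div_le_one hε]
      exact hζ.le
    simp only [hα', h1, ofReal_one, sub_self]
  · intro ζ hζ
    have h1 : α (0 + ζ • (ε : ℂ)⁻¹) = 0 := by
      apply α.zero_of_le_dist
      change (2 : ℝ) ≤ _
      rw [dist_zero_right, zero_add, norm_smul, norm_inv, Complex.norm_real,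
        Real.norm_of_nonneg hε.le, ← div_eq_mul_inv, le_div_iff₀ hε]
      exact hζ
    simp only [hα', h1, ofReal_zero, sub_zero]
  · intro ζ
    rw [dbar_const_sub, dbar_comp_line _ _ _ (hα'c.differentiable one_ne_zero _)]
    have h1 : (ε : ℂ)⁻¹ = (ε : ℂ)⁻¹ • (1 : ℂ) := by simp
    rw [enorm_neg]
    have h2 : dbar α' (0 + ζ • (ε : ℂ)⁻¹) (ε : ℂ)⁻¹ =
        (starRingEnd ℂ (ε : ℂ)⁻¹) • dbar α' (0 + ζ • (ε : ℂ)⁻¹) 1 := by
      rw [← dbar_smul_right, ← h1]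
    rw [h2, enorm_smul]
    by_cases hζ : ζ ∈ closedBall (0 : ℂ) (2 * ε)
    · rw [indicator_of_mem hζ]
      have h3 : 0 + ζ • (ε : ℂ)⁻¹ ∈ closedBall (0 : ℂ) 2 := by
        rw [mem_closedBall_zero_iff] at hζ ⊢
        rw [zero_add, norm_smul, norm_inv, Complex.norm_real,
          Real.norm_of_nonneg hε.le, ← div_eq_mul_inv, div_le_iff₀ hε]
        exact hζ
      have h4 := hC0' _ h3
      have h5 : ‖(starRingEnd ℂ) (ε : ℂ)⁻¹‖ₑ ≤ 2 * ‖ζ‖ₑ ^ (-1 : ℝ) := by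
        rw [← ofReal_norm, RCLike.norm_conj, norm_inv, Complex.norm_real,
          Real.norm_of_nonneg hε.le, ENNReal.rpow_neg_one, ← ofReal_norm]
        rw [mem_closedBall_zero_iff] at hζ
        rcases (norm_nonneg ζ).eq_or_lt with h0 | h0
        · rw [← h0]
          simp
        · rw [← ENNReal.ofReal_inv_of_pos h0]
          have h6 : (2 : ℝ≥0∞) = ENNReal.ofReal 2 := by simp
          rw [h6, ← ENNReal.ofReal_mul (by norm_num)]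
          apply ENNReal.ofReal_le_ofReal
          rw [← div_eq_mul_inv, inv_eq_one_div, div_le_div_iff₀ hε h0]
          linarith
      calc ‖(starRingEnd ℂ) (ε : ℂ)⁻¹‖ₑ * ‖dbar α' (0 + ζ • (ε : ℂ)⁻¹) 1‖ₑ
          ≤ (2 * ‖ζ‖ₑ ^ (-1 : ℝ)) * C0 := by gcongr
        _ = 2 * C0 * ‖ζ‖ₑ ^ (-1 : ℝ) := by ring
    · have h3 : 0 + ζ • (ε : ℂ)⁻¹ ∉ tsupport α' := by
        intro h
        apply hζ
        have h4 := hts h
        rw [mem_closedBall_zero_iff] at h4 ⊢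
        rw [zero_add, norm_smul, norm_inv, Complex.norm_real,
          Real.norm_of_nonneg hε.le, ← div_eq_mul_inv, div_le_iff₀ hε] at h4
        exact h4
      rw [dbar_eq_zero_of_notMem_tsupport h3]
      simp

/-- Carleman estimate with cutoffs which may be nonzero at `0`, for `f` vanishing to infinite
order at `0`. -/
theorem carleman_van {R0 : ℝ} {f g : ℂ → F} (hA : Approx R0 f g)
    (hf : AEStronglyMeasurable f) (hg : AEStronglyMeasurable g)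
    (hv : ∀ t b : ℝ, b < R0 → ∫⁻ ζ in closedBall (0 : ℂ) b, ‖ζ‖ₑ ^ t * ‖f ζ‖ₑ ≠ ∞)
    {χ : ℂ → ℂ} (hχ : ContDiff ℝ 1 χ) {b : ℝ} (hb : b < R0)
    (hsupp : tsupport χ ⊆ closedBall 0 b) (k : ℕ) {q : ℝ} (hq1 : 1 < q) (hq2 : q < 2) :
    ∫⁻ η, (‖η‖ₑ ^ (1 / 2 - k : ℝ) * (‖χ η‖ₑ * ‖f η‖ₑ)) ^ q * ‖η‖ₑ ^ (-2 : ℝ) ≤
      kerConst q * (∫⁻ ζ, ‖ζ‖ₑ ^ (-1 / 2 - k : ℝ) *
        (‖χ ζ‖ₑ * ‖g ζ‖ₑ + ‖dbar χ ζ 1‖ₑ * ‖f ζ‖ₑ)) ^ q := by
  obtain ⟨C, hC, hcut⟩ := exists_cutoff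
  set ε : ℕ → ℝ := fun j => (2⁻¹ : ℝ) ^ j with hε
  have hε0 : ∀ j, 0 < ε j := fun j => by simp only [hε]; positivity
  choose β hβ hβ1 hβ2 hβ3 hβ4 using fun j : ℕ => hcut (ε j) (hε0 j)
  have hεlim : Tendsto ε atTop (𝓝 0) :=
    tendsto_pow_atTop_nhds_zero_of_lt_one (by norm_num) (by norm_num)
  have hf' : AEMeasurable (fun ζ => ‖f ζ‖ₑ) := hf.enorm
  have hχ0 : ∀ ζ, ζ ∉ closedBall (0 : ℂ) b → χ ζ = 0 := fun ζ hζ =>
    image_eq_zero_of_notMem_tsupport fun h => hζ (hsupp h)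
  obtain ⟨M, hM, hM'⟩ := exists_enorm_le hχ.continuous (isCompact_closedBall (0 : ℂ) b)
  set G : ℂ → ℝ≥0∞ := fun ζ => C * (‖ζ‖ₑ ^ (-3 / 2 - k : ℝ) * (‖χ ζ‖ₑ * ‖f ζ‖ₑ)) with hG
  have hGm : AEMeasurable G := by
    apply AEMeasurable.const_mul
    apply AEMeasurable.mul
    · apply Measurable.aemeasurable; fun_prop
    · exact hχ.continuous.enorm.measurable.aemeasurable.mul hf'
  have hGfin : ∫⁻ ζ, G ζ ≠ ∞ := by
    have h1 : ∀ ζ, G ζ ≤ (closedBall (0 : ℂ) b).indicator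
        (fun ζ => C * M * (‖ζ‖ₑ ^ (-3 / 2 - k : ℝ) * ‖f ζ‖ₑ)) ζ := by
      intro ζ
      by_cases hζ : ζ ∈ closedBall (0 : ℂ) b
      · rw [indicator_of_mem hζ]
        calc G ζ = C * ‖χ ζ‖ₑ * (‖ζ‖ₑ ^ (-3 / 2 - k : ℝ) * ‖f ζ‖ₑ) := by
              simp only [hG]; ring
          _ ≤ _ := by
              gcongr
              exact hM' ζ hζ
      · simp only [hG, hχ0 ζ hζ]
        simp
    refine ne_top_of_le_ne_top ?_ (lintegral_mono h1)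
    rw [lintegral_indicator measurableSet_closedBall, lintegral_const_mul'']
    · exact ENNReal.mul_ne_top (ENNReal.mul_ne_top hC hM) (hv _ b hb)
    · apply AEMeasurable.mul
      · apply Measurable.aemeasurable; fun_prop
      · exact hf'.restrict
  set B : ℝ≥0∞ := ∫⁻ ζ, ‖ζ‖ₑ ^ (-1 / 2 - k : ℝ) *
        (‖χ ζ‖ₑ * ‖g ζ‖ₑ + ‖dbar χ ζ 1‖ₑ * ‖f ζ‖ₑ) with hB
  have hj : ∀ j, ∫⁻ η, (‖η‖ₑ ^ (1 / 2 - k : ℝ) * (‖β j η • χ η‖ₑ * ‖f η‖ₑ)) ^ q *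
      ‖η‖ₑ ^ (-2 : ℝ) ≤ kerConst q * (B + ∫⁻ ζ in closedBall (0 : ℂ) (2 * ε j), G ζ) ^ q := by
    intro j
    have hts : tsupport (fun ζ => β j ζ • χ ζ) ⊆ ann (ε j) b := by
      apply closure_minimal _ (isCompact_ann _ _).isClosed
      intro ζ hζ
      rw [Function.mem_support] at hζ
      constructor
      · by_contra h
        push Not at h
        exact hζ (by simp only [hβ2 j ζ h, zero_smul])
      · by_contra h
        apply hζ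
        simp only [hχ0 ζ (by rw [mem_closedBall_zero_iff]; exact h), smul_zero]
    have h1 := carleman_weak hA hf hg ((hβ j).smul hχ) (hε0 j) hb hts k hq1 hq2
    refine h1.trans ?_
    have h2 : ∀ᵐ ζ : ℂ, ‖ζ‖ₑ ^ (-1 / 2 - k : ℝ) * (‖β j ζ • χ ζ‖ₑ * ‖g ζ‖ₑ +
        ‖dbar (fun ζ => β j ζ • χ ζ) ζ 1‖ₑ * ‖f ζ‖ₑ) ≤
        ‖ζ‖ₑ ^ (-1 / 2 - k : ℝ) * (‖χ ζ‖ₑ * ‖g ζ‖ₑ + ‖dbar χ ζ 1‖ₑ * ‖f ζ‖ₑ) +
        (closedBall (0 : ℂ) (2 * ε j)).indicator G ζ := by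
      filter_upwards [ae_ne_zero] with ζ hζ0
      have hζ0' : ‖ζ‖ₑ ≠ 0 := by simpa using hζ0
      rw [dbar_smul ((hβ j).differentiable one_ne_zero ζ) (hχ.differentiable one_ne_zero ζ)]
      have h3 : ‖β j ζ • dbar χ ζ 1 + dbar (β j) ζ 1 • χ ζ‖ₑ ≤
          ‖dbar χ ζ 1‖ₑ + ‖dbar (β j) ζ 1‖ₑ * ‖χ ζ‖ₑ := by
        refine (enorm_add_le _ _).trans ?_
        rw [enorm_smul, enorm_smul]
        gcongr
        calc ‖β j ζ‖ₑ * ‖dbar χ ζ 1‖ₑ ≤ 1 * ‖dbar χ ζ 1‖ₑ := by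
              gcongr
              exact hβ1 j ζ
          _ = _ := one_mul _
      have h4 : ‖β j ζ • χ ζ‖ₑ ≤ ‖χ ζ‖ₑ := by
        rw [enorm_smul]
        calc ‖β j ζ‖ₑ * ‖χ ζ‖ₑ ≤ 1 * ‖χ ζ‖ₑ := by
              gcongr
              exact hβ1 j ζ
          _ = _ := one_mul _
      have h5 : ‖ζ‖ₑ ^ (-1 / 2 - k : ℝ) * ((‖dbar (β j) ζ 1‖ₑ * ‖χ ζ‖ₑ) * ‖f ζ‖ₑ) ≤
          (closedBall (0 : ℂ) (2 * ε j)).indicator G ζ := by
        have h6 := hβ4 j ζ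
        by_cases hζ : ζ ∈ closedBall (0 : ℂ) (2 * ε j)
        · rw [indicator_of_mem hζ] at h6 ⊢
          calc ‖ζ‖ₑ ^ (-1 / 2 - k : ℝ) * ((‖dbar (β j) ζ 1‖ₑ * ‖χ ζ‖ₑ) * ‖f ζ‖ₑ)
              ≤ ‖ζ‖ₑ ^ (-1 / 2 - k : ℝ) * (((C * ‖ζ‖ₑ ^ (-1 : ℝ)) * ‖χ ζ‖ₑ) * ‖f ζ‖ₑ) := by
                gcongr
            _ = C * ((‖ζ‖ₑ ^ (-1 / 2 - k : ℝ) * ‖ζ‖ₑ ^ (-1 : ℝ)) * (‖χ ζ‖ₑ * ‖f ζ‖ₑ)) := by
                ring
            _ = G ζ := by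
                have h8 : (-1 / 2 - k : ℝ) + (-1) = -3 / 2 - k := by ring
                rw [← ENNReal.rpow_add _ _ hζ0' enorm_ne_top, h8]
        · rw [indicator_of_notMem hζ] at h6 ⊢
          have h7 : ‖dbar (β j) ζ 1‖ₑ = 0 := le_antisymm h6 bot_le
          rw [h7]
          simp
      calc ‖ζ‖ₑ ^ (-1 / 2 - k : ℝ) * (‖β j ζ • χ ζ‖ₑ * ‖g ζ‖ₑ +
            ‖β j ζ • dbar χ ζ 1 + dbar (β j) ζ 1 • χ ζ‖ₑ * ‖f ζ‖ₑ)
          ≤ ‖ζ‖ₑ ^ (-1 / 2 - k : ℝ) * (‖χ ζ‖ₑ * ‖g ζ‖ₑ +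
            (‖dbar χ ζ 1‖ₑ + ‖dbar (β j) ζ 1‖ₑ * ‖χ ζ‖ₑ) * ‖f ζ‖ₑ) := by
            gcongr
        _ = ‖ζ‖ₑ ^ (-1 / 2 - k : ℝ) * (‖χ ζ‖ₑ * ‖g ζ‖ₑ + ‖dbar χ ζ 1‖ₑ * ‖f ζ‖ₑ) +
            ‖ζ‖ₑ ^ (-1 / 2 - k : ℝ) * ((‖dbar (β j) ζ 1‖ₑ * ‖χ ζ‖ₑ) * ‖f ζ‖ₑ) := by ring
        _ ≤ _ := by gcongr
    have h3 := lintegral_mono_ae h2
    rw [lintegral_add_right' _ (hGm.indicator measurableSet_closedBall),
      lintegral_indicator measurableSet_closedBall] at h3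
    gcongr
    exact h3
  -- Fatou
  have hfatou : ∫⁻ η, (‖η‖ₑ ^ (1 / 2 - k : ℝ) * (‖χ η‖ₑ * ‖f η‖ₑ)) ^ q * ‖η‖ₑ ^ (-2 : ℝ) ≤
      liminf (fun j => ∫⁻ η, (‖η‖ₑ ^ (1 / 2 - k : ℝ) * (‖β j η • χ η‖ₑ * ‖f η‖ₑ)) ^ q *
        ‖η‖ₑ ^ (-2 : ℝ)) atTop := by
    refine le_trans ?_ (lintegral_liminf_le' fun j => ?_)
    · apply lintegral_mono_ae
      filter_upwards [ae_ne_zero] with η hη0
      apply le_of_eq
      symm
      apply Tendsto.liminf_eq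
      apply tendsto_const_nhds.congr'
      have h1 : ∀ᶠ j in atTop, 2 * ε j < ‖η‖ := by
        have h2 : Tendsto (fun j => 2 * ε j) atTop (𝓝 (2 * 0)) := hεlim.const_mul 2
        rw [mul_zero] at h2
        exact h2.eventually_lt_const (norm_pos_iff.2 hη0)
      filter_upwards [h1] with j hj
      rw [hβ3 j η hj.le, one_smul]
    · have h1 := ((hβ j).smul hχ).continuous.enorm.measurable
      exact ((AEMeasurable.mul (by apply Measurable.aemeasurable; fun_prop)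
        (h1.aemeasurable.mul hf')).pow_const q).mul (by apply Measurable.aemeasurable; fun_prop)
  refine hfatou.trans ?_
  have hlim : Tendsto (fun j : ℕ => kerConst q *
      (B + ∫⁻ ζ in closedBall (0 : ℂ) (2 * ε j), G ζ) ^ q) atTop
      (𝓝 (kerConst q * B ^ q)) := by
    have h1 : Tendsto (fun j => ∫⁻ ζ in closedBall (0 : ℂ) (2 * ε j), G ζ) atTop (𝓝 0) := by
      apply tendsto_setLIntegral_zero hGfin
      have h2 : Tendsto (fun j => ENNReal.ofReal (2 * ε j) ^ 2 * NNReal.pi) atTop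
          (𝓝 (ENNReal.ofReal (2 * 0) ^ 2 * NNReal.pi)) := by
        apply ENNReal.Tendsto.mul_const _ (Or.inr (by simp))
        apply ENNReal.Tendsto.pow
        exact ENNReal.tendsto_ofReal (hεlim.const_mul 2)
      simp only [mul_zero, ENNReal.ofReal_zero, ne_eq, OfNat.ofNat_ne_zero, not_false_eq_true,
        zero_pow, zero_mul] at h2
      refine h2.congr fun j => ?_
      rw [Function.comp_apply, Complex.volume_closedBall]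
    have h3 : Tendsto (fun j : ℕ => B + ∫⁻ ζ in closedBall (0 : ℂ) (2 * ε j), G ζ) atTop
        (𝓝 (B + 0)) := tendsto_const_nhds.add h1
    rw [add_zero] at h3
    have h4 := ((ENNReal.continuous_rpow_const (y := q)).tendsto B).comp h3
    exact ENNReal.Tendsto.const_mul h4 (Or.inr (kerConst_lt_top hq1 hq2).ne)
  rw [← hlim.liminf_eq]
  exact liminf_le_liminf (Eventually.of_forall hj)

end

end Pool.Agent.DbarSUC
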