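import Pool.Agent.DbarSUC.Carleman

namespace Pool.Agent.DbarSUC

open MeasureTheory Set Filter Topology Complex Metric
open scoped ENNReal

set_option linter.style.haveILetI false

section

variable {F : Type*} [NormedAddCommGroup F] [NormedSpace ℂ F] [CompleteSpace F]

/-- The closed annulus. -/
def ann (a b : ℝ) : Set ℂ := {ζ | a ≤ ‖ζ‖ ∧ ‖ζ‖ ≤ b}

theorem measurableSet_ann (a b : ℝ) : MeasurableSet (ann a b) :=
  (measurableSet_le measurable_const measurable_norm).inter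
    (measurableSet_le measurable_norm measurable_const)

theorem isCompact_ann (a b : ℝ) : IsCompact (ann a b) := by
  apply (isCompact_closedBall (0 : ℂ) b).of_isClosed_subset
  · exact (isClosed_le continuous_const continuous_norm).inter
      (isClosed_le continuous_norm continuous_const)
  · intro ζ hζ
    rw [mem_closedBall_zero_iff]
    exact hζ.2

/-- `f` has weak derivative `g` on annuli inside the disc of radius `R0`, in the sense of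
approximation by smooth functions. -/
def Approx (R0 : ℝ) (f g : ℂ → F) : Prop :=
  ∀ a b : ℝ, 0 < a → b < R0 → ∀ ε : ℝ≥0∞, 0 < ε → ∃ U : ℂ → F, ContDiff ℝ 1 U ∧
    ∫⁻ ζ in ann a b, ‖U ζ - f ζ‖ₑ ≤ ε ∧ ∫⁻ ζ in ann a b, ‖dbar U ζ 1 - g ζ‖ₑ ≤ ε

theorem exists_enorm_le {G : Type*} [NormedAddCommGroup G] {φ : ℂ → G} (hφ : Continuous φ)
    {s : Set ℂ} (hs : IsCompact s) : ∃ M : ℝ≥0∞, M ≠ ∞ ∧ ∀ ζ ∈ s, ‖φ ζ‖ₑ ≤ M := by
  obtain ⟨M, hM⟩ := hs.exists_bound_of_continuousOn hφ.continuousOn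
  refine ⟨ENNReal.ofReal M, ENNReal.ofReal_ne_top, fun ζ hζ => ?_⟩
  rw [← ofReal_norm]
  exact ENNReal.ofReal_le_ofReal (hM ζ hζ)

theorem exists_weight_le (s a b : ℝ) (ha : 0 < a) :
    ∃ M : ℝ≥0∞, M ≠ ∞ ∧ ∀ ζ ∈ ann a b, ‖ζ‖ₑ ^ s ≤ M := by
  have h1 : ContinuousOn (fun ζ : ℂ => ‖ζ‖ ^ s) (ann a b) := by
    apply ContinuousOn.rpow_const continuous_norm.continuousOn
    intro ζ hζ
    left
    have := hζ.1
    linarith
  obtain ⟨M, hM⟩ := (isCompact_ann a b).exists_bound_of_continuousOn h1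
  refine ⟨ENNReal.ofReal M, ENNReal.ofReal_ne_top, fun ζ hζ => ?_⟩
  have h0 : 0 < ‖ζ‖ := lt_of_lt_of_le ha hζ.1
  rw [enorm_rpow_eq (norm_pos_iff.1 h0), ← ofReal_norm]
  exact ENNReal.ofReal_le_ofReal (hM ζ hζ)

theorem tendsto_enorm_of_summable {u : ℕ → ℝ≥0∞} (hu : ∑' j, u j ≠ ∞) :
    Tendsto u atTop (𝓝 0) := ENNReal.tendsto_atTop_zero_of_tsum_ne_top hu

/-- Carleman estimate for weak functions with cutoff away from `0`. -/
theorem carleman_weak {R0 : ℝ} {f g : ℂ → F} (hA : Approx R0 f g)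
    (hf : AEStronglyMeasurable f) (hg : AEStronglyMeasurable g)
    {χ : ℂ → ℂ} (hχ : ContDiff ℝ 1 χ) {a b : ℝ} (ha : 0 < a) (hb : b < R0)
    (hsupp : tsupport χ ⊆ ann a b) (k : ℕ) {q : ℝ} (hq1 : 1 < q) (hq2 : q < 2) :
    ∫⁻ η, (‖η‖ₑ ^ (1 / 2 - k : ℝ) * (‖χ η‖ₑ * ‖f η‖ₑ)) ^ q * ‖η‖ₑ ^ (-2 : ℝ) ≤
      kerConst q * (∫⁻ ζ, ‖ζ‖ₑ ^ (-1 / 2 - k : ℝ) *
        (‖χ ζ‖ₑ * ‖g ζ‖ₑ + ‖dbar χ ζ 1‖ₑ * ‖f ζ‖ₑ)) ^ q := by
  have hq0 : 0 < q := by linarith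
  have hcs : HasCompactSupport χ := (isCompact_ann a b).of_isClosed_subset
    (isClosed_tsupport _) hsupp
  have h0χ : (0 : ℂ) ∉ tsupport χ := by
    intro h
    have := (hsupp h).1
    rw [norm_zero] at this
    linarith
  choose U hU hU1 hU2 using fun j : ℕ => hA a b ha hb ((2⁻¹ : ℝ≥0∞) ^ j)
    (by apply ENNReal.pow_pos; simp)
  obtain ⟨M1, hM1, hM1'⟩ := exists_enorm_le hχ.continuous (isCompact_ann a b)
  obtain ⟨M2, hM2, hM2'⟩ := exists_enorm_le (continuous_dbar hχ 1) (isCompact_ann a b)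
  obtain ⟨M3, hM3, hM3'⟩ := exists_weight_le (-1 / 2 - k : ℝ) a b ha
  have hχ0 : ∀ ζ, ζ ∉ ann a b → χ ζ = 0 := fun ζ hζ =>
    image_eq_zero_of_notMem_tsupport fun h => hζ (hsupp h)
  have hdχ0 : ∀ ζ, ζ ∉ ann a b → dbar χ ζ 1 = 0 := fun ζ hζ =>
    dbar_eq_zero_of_notMem_tsupport (fun h => hζ (hsupp h)) 1
  set B : ℝ≥0∞ := ∫⁻ ζ, ‖ζ‖ₑ ^ (-1 / 2 - k : ℝ) *
        (‖χ ζ‖ₑ * ‖g ζ‖ₑ + ‖dbar χ ζ 1‖ₑ * ‖f ζ‖ₑ) with hB
  set M : ℝ≥0∞ := M3 * (M1 + M2) with hM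
  have hMtop : M ≠ ∞ := ENNReal.mul_ne_top hM3 (ENNReal.add_ne_top.2 ⟨hM1, hM2⟩)
  -- the estimate for `χ U j`
  have hj : ∀ j, ∫⁻ η, (‖η‖ₑ ^ (1 / 2 - k : ℝ) * (‖χ η‖ₑ * ‖U j η‖ₑ)) ^ q *
      ‖η‖ₑ ^ (-2 : ℝ) ≤ kerConst q * (B + M * (2⁻¹) ^ j) ^ q := by
    intro j
    have h1 := carleman_smooth (f := fun ζ => χ ζ • U j ζ) (hχ.smul (hU j)) hcs.smul_right
      (fun h => h0χ (tsupport_smul_subset_left _ _ h)) k hq1
    simp only [enorm_smul] at h1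
    refine h1.trans ?_
    gcongr
    -- compare the right-hand sides
    have h2 : ∀ ζ, ‖ζ‖ₑ ^ (-1 / 2 - k : ℝ) * ‖dbar (fun ζ => χ ζ • U j ζ) ζ 1‖ₑ ≤
        ‖ζ‖ₑ ^ (-1 / 2 - k : ℝ) * (‖χ ζ‖ₑ * ‖g ζ‖ₑ + ‖dbar χ ζ 1‖ₑ * ‖f ζ‖ₑ) +
        ((ann a b).indicator (fun ζ => M3 * M1 * ‖dbar (U j) ζ 1 - g ζ‖ₑ) ζ +
        (ann a b).indicator (fun ζ => M3 * M2 * ‖U j ζ - f ζ‖ₑ) ζ) := by
      intro ζ
      by_cases hζ : ζ ∈ ann a b
      · rw [indicator_of_mem hζ, indicator_of_mem hζ]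
        rw [dbar_smul (hχ.differentiable one_ne_zero ζ) ((hU j).differentiable one_ne_zero ζ)]
        have h3 : χ ζ • dbar (U j) ζ 1 + dbar χ ζ 1 • U j ζ =
            (χ ζ • g ζ + dbar χ ζ 1 • f ζ) + (χ ζ • (dbar (U j) ζ 1 - g ζ) +
              dbar χ ζ 1 • (U j ζ - f ζ)) := by
          simp only [smul_sub]
          abel
        rw [h3]
        calc ‖ζ‖ₑ ^ (-1 / 2 - k : ℝ) * ‖(χ ζ • g ζ + dbar χ ζ 1 • f ζ) +
              (χ ζ • (dbar (U j) ζ 1 - g ζ) + dbar χ ζ 1 • (U j ζ - f ζ))‖ₑ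
            ≤ ‖ζ‖ₑ ^ (-1 / 2 - k : ℝ) * ((‖χ ζ • g ζ‖ₑ + ‖dbar χ ζ 1 • f ζ‖ₑ) +
              (‖χ ζ • (dbar (U j) ζ 1 - g ζ)‖ₑ + ‖dbar χ ζ 1 • (U j ζ - f ζ)‖ₑ)) := by
              gcongr
              refine (enorm_add_le _ _).trans ?_
              gcongr
              · exact enorm_add_le _ _
              · exact enorm_add_le _ _
          _ = ‖ζ‖ₑ ^ (-1 / 2 - k : ℝ) * (‖χ ζ‖ₑ * ‖g ζ‖ₑ + ‖dbar χ ζ 1‖ₑ * ‖f ζ‖ₑ) +
              (‖ζ‖ₑ ^ (-1 / 2 - k : ℝ) * ‖χ ζ‖ₑ * ‖dbar (U j) ζ 1 - g ζ‖ₑ +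
              ‖ζ‖ₑ ^ (-1 / 2 - k : ℝ) * ‖dbar χ ζ 1‖ₑ * ‖U j ζ - f ζ‖ₑ) := by
              simp only [enorm_smul]
              ring
          _ ≤ _ := by
              gcongr
              · exact hM3' ζ hζ
              · exact hM1' ζ hζ
              · exact hM3' ζ hζ
              · exact hM2' ζ hζ
      · rw [dbar_smul (hχ.differentiable one_ne_zero ζ) ((hU j).differentiable one_ne_zero ζ),
          hχ0 ζ hζ, hdχ0 ζ hζ]
        simp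
    refine (lintegral_mono h2).trans ?_
    have hm : AEMeasurable (fun ζ => ‖dbar (U j) ζ 1 - g ζ‖ₑ) :=
      ((continuous_dbar (hU j) 1).aestronglyMeasurable.sub hg).enorm
    have hm' : AEMeasurable (fun ζ => ‖U j ζ - f ζ‖ₑ) :=
      ((hU j).continuous.aestronglyMeasurable.sub hf).enorm
    have hm2 : AEMeasurable ((ann a b).indicator
        (fun ζ => M3 * M1 * ‖dbar (U j) ζ 1 - g ζ‖ₑ)) :=
      (hm.const_mul _).indicator (measurableSet_ann a b)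
    have hm2' : AEMeasurable ((ann a b).indicator (fun ζ => M3 * M2 * ‖U j ζ - f ζ‖ₑ)) :=
      (hm'.const_mul _).indicator (measurableSet_ann a b)
    have hm3 : AEMeasurable (fun ζ => (ann a b).indicator
        (fun ζ => M3 * M1 * ‖dbar (U j) ζ 1 - g ζ‖ₑ) ζ +
        (ann a b).indicator (fun ζ => M3 * M2 * ‖U j ζ - f ζ‖ₑ) ζ) := hm2.add hm2'
    rw [lintegral_add_right' _ hm3, lintegral_add_right' _ hm2']
    rw [lintegral_indicator (measurableSet_ann a b), lintegral_indicator (measurableSet_ann a b),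
      lintegral_const_mul'' _ hm.restrict, lintegral_const_mul'' _ hm'.restrict]
    gcongr
    calc M3 * M1 * (∫⁻ ζ in ann a b, ‖dbar (U j) ζ 1 - g ζ‖ₑ) +
          M3 * M2 * (∫⁻ ζ in ann a b, ‖U j ζ - f ζ‖ₑ)
        ≤ M3 * M1 * (2⁻¹) ^ j + M3 * M2 * (2⁻¹) ^ j := by
          gcongr
          · exact hU2 j
          · exact hU1 j
      _ = M * (2⁻¹) ^ j := by rw [hM]; ring
  -- pointwise convergence
  have hae : ∀ᵐ ζ, ζ ∈ ann a b → Tendsto (fun j => ‖U j ζ‖ₑ) atTop (𝓝 ‖f ζ‖ₑ) := by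
    have h1 : ∫⁻ ζ in ann a b, ∑' j, ‖U j ζ - f ζ‖ₑ ≠ ∞ := by
      rw [lintegral_tsum]
      · refine ne_top_of_le_ne_top ?_ (ENNReal.tsum_le_tsum hU1)
        rw [ENNReal.tsum_geometric]
        simp
      · intro j
        exact ((hU j).continuous.aestronglyMeasurable.sub hf).enorm.restrict
    have h2 : AEMeasurable (fun ζ => ∑' j, ‖U j ζ - f ζ‖ₑ) (volume.restrict (ann a b)) :=
      AEMeasurable.tsum fun j =>
        ((hU j).continuous.aestronglyMeasurable.sub hf).enorm.restrict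
    have h3 := ae_lt_top' h2 h1
    rw [ae_restrict_iff' (measurableSet_ann a b)] at h3
    filter_upwards [h3] with ζ hζ hmem
    have h4 := ENNReal.tendsto_atTop_zero_of_tsum_ne_top (hζ hmem).ne
    have h5 : Tendsto (fun j => U j ζ) atTop (𝓝 (f ζ)) := by
      rw [tendsto_iff_edist_tendsto_0]
      simpa [edist_eq_enorm_sub] using h4
    exact (continuous_enorm.tendsto _).comp h5
  -- Fatou
  have hfatou : ∫⁻ η, (‖η‖ₑ ^ (1 / 2 - k : ℝ) * (‖χ η‖ₑ * ‖f η‖ₑ)) ^ q * ‖η‖ₑ ^ (-2 : ℝ) ≤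
      liminf (fun j => ∫⁻ η, (‖η‖ₑ ^ (1 / 2 - k : ℝ) * (‖χ η‖ₑ * ‖U j η‖ₑ)) ^ q *
        ‖η‖ₑ ^ (-2 : ℝ)) atTop := by
    refine le_trans ?_ (lintegral_liminf_le' fun j => ?_)
    · apply lintegral_mono_ae
      filter_upwards [hae, ae_ne_zero] with η hη hη0
      apply le_of_eq
      symm
      apply Tendsto.liminf_eq
      by_cases hmem : η ∈ ann a b
      · have h1 := hη hmem
        have hη0' : ‖η‖ₑ ≠ 0 := by simpa using hη0
        have h2 : Tendsto (fun j => ‖χ η‖ₑ * ‖U j η‖ₑ) atTop (𝓝 (‖χ η‖ₑ * ‖f η‖ₑ)) :=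
          ENNReal.Tendsto.const_mul h1 (Or.inr enorm_ne_top)
        have h3 : Tendsto (fun j => ‖η‖ₑ ^ (1 / 2 - k : ℝ) * (‖χ η‖ₑ * ‖U j η‖ₑ)) atTop
            (𝓝 (‖η‖ₑ ^ (1 / 2 - k : ℝ) * (‖χ η‖ₑ * ‖f η‖ₑ))) :=
          ENNReal.Tendsto.const_mul h2
            (Or.inr (ENNReal.rpow_ne_top_of_ne_zero hη0' enorm_ne_top))
        have h4 := (ENNReal.continuous_rpow_const (y := q)).tendsto _ |>.comp h3
        exact ENNReal.Tendsto.mul_const h4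
          (Or.inr (ENNReal.rpow_ne_top_of_ne_zero hη0' enorm_ne_top))
      · rw [hχ0 η hmem]
        simp only [enorm_zero, zero_mul]
        exact tendsto_const_nhds
    · have h1 := ((hU j).continuous.enorm).measurable
      have h2 := hχ.continuous.enorm.measurable
      apply Measurable.aemeasurable
      exact ((Measurable.mul (by fun_prop) (h2.mul h1)).pow_const q).mul (by fun_prop)
  refine hfatou.trans ?_
  have hlim : Tendsto (fun j : ℕ => kerConst q * (B + M * (2⁻¹ : ℝ≥0∞) ^ j) ^ q) atTop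
      (𝓝 (kerConst q * B ^ q)) := by
    have h1 : Tendsto (fun j : ℕ => (2⁻¹ : ℝ≥0∞) ^ j) atTop (𝓝 0) :=
      ENNReal.tendsto_pow_atTop_nhds_zero_of_lt_one (by simp)
    have h2 : Tendsto (fun j : ℕ => M * (2⁻¹ : ℝ≥0∞) ^ j) atTop (𝓝 (M * 0)) :=
      ENNReal.Tendsto.const_mul h1 (Or.inr hMtop)
    have h3 : Tendsto (fun j : ℕ => B + M * (2⁻¹ : ℝ≥0∞) ^ j) atTop (𝓝 (B + M * 0)) :=
      tendsto_const_nhds.add h2
    rw [mul_zero, add_zero] at h3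
    have h4 := ((ENNReal.continuous_rpow_const (y := q)).tendsto B).comp h3
    exact ENNReal.Tendsto.const_mul h4 (Or.inr (kerConst_lt_top hq1 hq2).ne)
  rw [← hlim.liminf_eq]
  exact liminf_le_liminf (Eventually.of_forall hj)

end

end Pool.Agent.DbarSUC
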